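import Pool.Agent.Lib.MP_73b196_co.Fib.Defs

/-!
# Basic lemmas on fibres
-/

set_option autoImplicit false

namespace Pool.Agent.Lib.MP_73b196_co.Fib

variable {V : Type} [DecidableEq V]

/-! ### Restriction -/

theorem rs_apply (F : Finset V) (t : V → Bool) (v : V) : rs F t v = if v ∈ F then t v else false := rfl

theorem rs_mem {F : Finset V} {v : V} (h : v ∈ F) (t : V → Bool) : rs F t v = t v := if_pos h

theorem rs_notMem {F : Finset V} {v : V} (h : v ∉ F) (t : V → Bool) : rs F t v = false := if_neg h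

theorem rs_eq_iff (F : Finset V) (s t : V → Bool) : rs F s = rs F t ↔ ∀ v ∈ F, s v = t v := by
  constructor
  · intro h v hv
    have := congrFun h v
    rwa [rs_mem hv, rs_mem hv] at this
  · intro h
    funext v
    by_cases hv : v ∈ F
    · rw [rs_mem hv, rs_mem hv, h v hv]
    · rw [rs_notMem hv, rs_notMem hv]

theorem rs_rs {F G : Finset V} (h : F ⊆ G) (t : V → Bool) : rs F (rs G t) = rs F t := by
  rw [rs_eq_iff]
  intro v hv
  rw [rs_mem (h hv)]

theorem rs_mono {F G : Finset V} (h : F ⊆ G) {s t : V → Bool} (hst : rs G s = rs G t) :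
    rs F s = rs F t := by
  rw [← rs_rs h s, hst, rs_rs h]

theorem gl_mem {U : Finset V} {v : V} (h : v ∈ U) (t s : V → Bool) : gl U t s v = t v := if_pos h

theorem gl_notMem {U : Finset V} {v : V} (h : v ∉ U) (t s : V → Bool) : gl U t s v = s v := if_neg h

theorem rs_gl_left (U : Finset V) (t s : V → Bool) : rs U (gl U t s) = rs U t := by
  rw [rs_eq_iff]
  intro v hv
  rw [gl_mem hv]

theorem rs_gl_right (U W : Finset V) (t s : V → Bool) (h : rs (U ∩ W) t = rs (U ∩ W) s) :
    rs W (gl U t s) = rs W s := by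
  rw [rs_eq_iff] at h ⊢
  intro v hv
  by_cases hu : v ∈ U
  · rw [gl_mem hu]
    exact h v (Finset.mem_inter.2 ⟨hu, hv⟩)
  · rw [gl_notMem hu]

/-! ### Marginals -/

theorem Eqm.refl (F : Finset V) (A : Tab V) : Eqm F A A := rfl

theorem Eqm.symm {F : Finset V} {A B : Tab V} (h : Eqm F A B) : Eqm F B A := Eq.symm h

theorem Eqm.trans {F : Finset V} {A B C : Tab V} (h : Eqm F A B) (h' : Eqm F B C) : Eqm F A C :=
  Eq.trans h h'

theorem Eqm.card {F : Finset V} {A B : Tab V} (h : Eqm F A B) : A.card = B.card := by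
  have := congrArg Multiset.card h
  rwa [Multiset.card_map, Multiset.card_map] at this

theorem Eqm.mono {F G : Finset V} (h : F ⊆ G) {A B : Tab V} (hAB : Eqm G A B) : Eqm F A B := by
  have h1 := congrArg (Multiset.map (rs F)) hAB
  rw [Multiset.map_map, Multiset.map_map] at h1
  have h2 : rs F ∘ rs G = rs F := funext fun t => rs_rs h t
  rwa [h2] at h1

theorem Eqm.add {F : Finset V} {A B C D : Tab V} (h : Eqm F A B) (h' : Eqm F C D) :
    Eqm F (A + C) (B + D) := by
  unfold Eqm at *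
  rw [Multiset.map_add, Multiset.map_add, h, h']

theorem Eqm.cancel {F : Finset V} {A B C : Tab V} (h : Eqm F (C + A) (C + B)) : Eqm F A B := by
  unfold Eqm at *
  rw [Multiset.map_add, Multiset.map_add] at h
  exact add_left_cancel h

theorem Fb.refl (Δ : Set (Finset V)) (A : Tab V) : Fb Δ A A := fun F _ => Eqm.refl F A

theorem Fb.symm {Δ : Set (Finset V)} {A B : Tab V} (h : Fb Δ A B) : Fb Δ B A :=
  fun F hF => (h F hF).symm

theorem Fb.trans {Δ : Set (Finset V)} {A B C : Tab V} (h : Fb Δ A B) (h' : Fb Δ B C) : Fb Δ A C :=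
  fun F hF => (h F hF).trans (h' F hF)

theorem Fb.add {Δ : Set (Finset V)} {A B C D : Tab V} (h : Fb Δ A B) (h' : Fb Δ C D) :
    Fb Δ (A + C) (B + D) := fun F hF => (h F hF).add (h' F hF)

theorem Fb.cancel {Δ : Set (Finset V)} {A B C : Tab V} (h : Fb Δ (C + A) (C + B)) : Fb Δ A B :=
  fun F hF => (h F hF).cancel

theorem Fb.sub {Δ Δ' : Set (Finset V)} (hs : ∀ F ∈ Δ', ∃ G ∈ Δ, F ⊆ G) {A B : Tab V}
    (h : Fb Δ A B) : Fb Δ' A B := by
  intro F hF
  obtain ⟨G, hG, hFG⟩ := hs F hF
  exact (h G hG).mono hFG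

theorem Fb.mono {Δ Δ' : Set (Finset V)} (hs : Δ' ⊆ Δ) {A B : Tab V} (h : Fb Δ A B) : Fb Δ' A B :=
  fun F hF => h F (hs hF)

theorem fb_union {Δ Δ' : Set (Finset V)} {A B : Tab V} :
    Fb (Δ ∪ Δ') A B ↔ Fb Δ A B ∧ Fb Δ' A B := by
  constructor
  · exact fun h => ⟨h.mono Set.subset_union_left, h.mono Set.subset_union_right⟩
  · rintro ⟨h1, h2⟩ F (hF | hF)
    · exact h1 F hF
    · exact h2 F hF

theorem fb_pw {U : Finset V} {A B : Tab V} : Fb (pw U) A B ↔ Eqm U A B :=
  ⟨fun h => h U (Finset.Subset.refl U), fun h _ hF => h.mono hF⟩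

theorem fb_ad {Γ : Set (Finset V)} {x y : V} {A B : Tab V} :
    Fb (ad Γ x y) A B ↔ Eqm {x, y} A B ∧ Fb Γ A B := by
  constructor
  · exact fun h => ⟨h _ (Set.mem_insert _ _), fun F hF => h F (Set.mem_insert_of_mem _ hF)⟩
  · rintro ⟨h1, h2⟩ F hF
    rcases Set.mem_insert_iff.1 hF with rfl | hF
    · exact h1
    · exact h2 F hF

/-! ### Moves -/

theorem Mv.refl (Δ : Set (Finset V)) (k : ℕ) (T : Tab V) : Mv Δ k T T :=
  ⟨T, 0, 0, by simp, by simp, by simp, Fb.refl _ _⟩

theorem Mv.fb {Δ : Set (Finset V)} {k : ℕ} {T T' : Tab V} (h : Mv Δ k T T') : Fb Δ T T' := by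
  obtain ⟨C, A, B, rfl, rfl, -, h⟩ := h
  exact (Fb.refl Δ C).add h

theorem Mv.of_fb {Δ : Set (Finset V)} {k : ℕ} {T T' : Tab V} (hk : T.card ≤ k) (h : Fb Δ T T') :
    Mv Δ k T T' := ⟨0, T, T', by simp, by simp, hk, h⟩

theorem Mv.mono {Δ Δ' : Set (Finset V)} {k k' : ℕ} (hs : ∀ F ∈ Δ', ∃ G ∈ Δ, F ⊆ G) (hk : k ≤ k')
    {T T' : Tab V} (h : Mv Δ k T T') : Mv Δ' k' T T' := by
  obtain ⟨C, A, B, h1, h2, h3, h4⟩ := h
  exact ⟨C, A, B, h1, h2, h3.trans hk, h4.sub hs⟩

theorem Mv.add {Δ : Set (Finset V)} {k : ℕ} {T T' : Tab V} (h : Mv Δ k T T') (D : Tab V) :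
    Mv Δ k (D + T) (D + T') := by
  obtain ⟨C, A, B, rfl, rfl, h3, h4⟩ := h
  exact ⟨D + C, A, B, (add_assoc _ _ _).symm, (add_assoc _ _ _).symm, h3, h4⟩

/-- If `Δ` is not empty, a move can be reversed. -/
theorem Mv.symm {Δ : Set (Finset V)} (hΔ : Δ.Nonempty) {k : ℕ} {T T' : Tab V} (h : Mv Δ k T T') :
    Mv Δ k T' T := by
  obtain ⟨C, A, B, h1, h2, h3, h4⟩ := h
  obtain ⟨F, hF⟩ := hΔ
  exact ⟨C, B, A, h2, h1, by rw [← (h4 F hF).card]; exact h3, h4.symm⟩

theorem Cn.refl (Δ : Set (Finset V)) (k : ℕ) (T : Tab V) : Cn Δ k T T := Relation.ReflTransGen.refl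

theorem Cn.trans {Δ : Set (Finset V)} {k : ℕ} {T T' T'' : Tab V} (h : Cn Δ k T T')
    (h' : Cn Δ k T' T'') : Cn Δ k T T'' := Relation.ReflTransGen.trans h h'

theorem Cn.fb {Δ : Set (Finset V)} {k : ℕ} {T T' : Tab V} (h : Cn Δ k T T') : Fb Δ T T' := by
  induction h with
  | refl => exact Fb.refl _ _
  | tail _ h ih => exact ih.trans h.fb

theorem Cn.mono {Δ Δ' : Set (Finset V)} {k k' : ℕ} (hs : ∀ F ∈ Δ', ∃ G ∈ Δ, F ⊆ G) (hk : k ≤ k')
    {T T' : Tab V} (h : Cn Δ k T T') : Cn Δ' k' T T' := by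
  induction h with
  | refl => exact Cn.refl _ _ _
  | tail _ h ih => exact Relation.ReflTransGen.tail ih (Mv.mono hs hk h)

theorem Cn.add {Δ : Set (Finset V)} {k : ℕ} {T T' : Tab V} (h : Cn Δ k T T') (D : Tab V) :
    Cn Δ k (D + T) (D + T') := by
  induction h with
  | refl => exact Cn.refl _ _ _
  | tail _ h ih => exact Relation.ReflTransGen.tail ih (h.add D)

theorem Cn.symm {Δ : Set (Finset V)} (hΔ : Δ.Nonempty) {k : ℕ} {T T' : Tab V} (h : Cn Δ k T T') :
    Cn Δ k T' T := by
  induction h with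
  | refl => exact Cn.refl _ _ _
  | tail _ h ih => exact Relation.ReflTransGen.head (h.symm hΔ) ih

theorem Mv.cn {Δ : Set (Finset V)} {k : ℕ} {T T' : Tab V} (h : Mv Δ k T T') : Cn Δ k T T' :=
  Relation.ReflTransGen.single h

/-- Adding two connected pairs. -/
theorem Cn.add_add {Δ : Set (Finset V)} {k : ℕ} {A B C D : Tab V} (h : Cn Δ k A B)
    (h' : Cn Δ k C D) : Cn Δ k (A + C) (B + D) := by
  have h1 : Cn Δ k (A + C) (A + D) := h'.add A
  have h2 : Cn Δ k (D + A) (D + B) := h.add D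
  rw [add_comm D A, add_comm D B] at h2
  exact h1.trans h2

/-! ### Gluing -/

/-- Two multisets with the same image are the projections of a multiset of pairs. -/
theorem exists_pairs {α β γ : Type} (f : α → γ) (g : β → γ) (A : Multiset α) (B : Multiset β)
    (h : A.map f = B.map g) : ∃ W : Multiset (α × β), W.map Prod.fst = A ∧ W.map Prod.snd = B ∧
      ∀ p ∈ W, f p.1 = g p.2 := by
  classical
  induction A using Multiset.induction_on generalizing B with
  | empty =>
    refine ⟨0, by simp, ?_, by simp⟩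
    rw [Multiset.map_zero] at h
    rw [Multiset.map_zero]
    exact (Multiset.map_eq_zero.1 h.symm).symm
  | cons a A ih =>
    rw [Multiset.map_cons] at h
    have h1 : f a ∈ B.map g := by
      rw [← h]
      exact Multiset.mem_cons_self _ _
    obtain ⟨b, hb, hab⟩ := Multiset.mem_map.1 h1
    obtain ⟨B', rfl⟩ := Multiset.exists_cons_of_mem hb
    rw [Multiset.map_cons, hab] at h
    obtain ⟨W, h2, h3, h4⟩ := ih B' ((Multiset.cons_inj_right _).1 h)
    refine ⟨(a, b) ::ₘ W, by rw [Multiset.map_cons, h2], by rw [Multiset.map_cons, h3], ?_⟩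
    intro p hp
    rcases Multiset.mem_cons.1 hp with rfl | hp
    · exact hab.symm
    · exact h4 p hp

/-- Decomposition of a multiset along a decomposition of its image. -/
theorem exists_split {α β : Type} (f : α → β) (T : Multiset α) (C D : Multiset β)
    (h : T.map f = C + D) : ∃ T1 T2, T = T1 + T2 ∧ T1.map f = C ∧ T2.map f = D := by
  classical
  induction C using Multiset.induction_on generalizing T with
  | empty => exact ⟨0, T, by simp, by simp, by rw [h, zero_add]⟩
  | cons c C ih =>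
    have h1 : c ∈ T.map f := by
      rw [h, Multiset.cons_add]
      exact Multiset.mem_cons_self _ _
    obtain ⟨t, ht, htc⟩ := Multiset.mem_map.1 h1
    obtain ⟨T', rfl⟩ := Multiset.exists_cons_of_mem ht
    rw [Multiset.map_cons, htc, Multiset.cons_add] at h
    obtain ⟨T1, T2, h2, h3, h4⟩ := ih T' ((Multiset.cons_inj_right _).1 h)
    refine ⟨t ::ₘ T1, T2, by rw [h2, Multiset.cons_add], by rw [Multiset.map_cons, htc, h3], h4⟩

/-- Gluing of two tables with the same marginal on `U ∩ W`. -/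
theorem exists_glue (U W : Finset V) (A B : Tab V) (h : Eqm (U ∩ W) A B) :
    ∃ T, Eqm U T A ∧ Eqm W T B := by
  obtain ⟨P, h1, h2, h3⟩ := exists_pairs _ _ A B h
  refine ⟨P.map fun p => gl U p.1 p.2, ?_, ?_⟩
  · unfold Eqm
    rw [← h1, Multiset.map_map, Multiset.map_map]
    exact Multiset.map_congr rfl fun p _ => rs_gl_left U p.1 p.2
  · unfold Eqm
    rw [← h2, Multiset.map_map, Multiset.map_map]
    exact Multiset.map_congr rfl fun p hp => rs_gl_right U W p.1 p.2 (h3 p hp)

/-- Lifting of a move: if the `U ∩ W`-marginal belongs to `Δ`, a move on `U` lifts to tables on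
`U ∪ W`, keeping the `W`-marginal. -/
theorem Mv.lift {Δ : Set (Finset V)} {k : ℕ} {U W : Finset V} (hΔ : ∀ F ∈ Δ, F ⊆ U)
    (hS : ∃ G ∈ Δ, U ∩ W ⊆ G) {A B T : Tab V} (h : Mv Δ k A B) (hT : Eqm U T A) :
    ∃ T', Eqm U T' B ∧ Eqm W T' T ∧ Mv (Δ ∪ pw W) k T T' := by
  obtain ⟨C, A0, B0, rfl, rfl, hk, hf⟩ := h
  obtain ⟨S, hS, hUW⟩ := hS
  have hT' : T.map (rs U) = C.map (rs U) + A0.map (rs U) := by
    rw [← Multiset.map_add]
    exact hT
  obtain ⟨T1, T2, rfl, h1, h2⟩ := exists_split _ _ _ _ hT'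
  have h3 : Eqm (U ∩ W) B0 T2 := by
    have h4 : Eqm (U ∩ W) T2 A0 := Eqm.mono Finset.inter_subset_left h2
    exact ((h4.trans ((hf S hS).mono hUW))).symm
  obtain ⟨T3, h4, h5⟩ := exists_glue U W B0 T2 h3
  refine ⟨T1 + T3, Eqm.add h1 h4, (Eqm.refl W T1).add h5, T1, T2, T3, rfl, rfl, ?_, ?_⟩
  · have h6 : T2.card = A0.card := Eqm.card (F := U) h2
    rw [h6]
    exact hk
  · rw [fb_union, fb_pw]
    refine ⟨?_, h5.symm⟩
    intro F hF
    have h6 : Eqm F T2 A0 := Eqm.mono (hΔ F hF) h2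
    exact (h6.trans (hf F hF)).trans (h4.mono (hΔ F hF)).symm

/-- Lifting of a path. -/
theorem Cn.lift {Δ : Set (Finset V)} {k : ℕ} {U W : Finset V} (hΔ : ∀ F ∈ Δ, F ⊆ U)
    (hS : ∃ G ∈ Δ, U ∩ W ⊆ G) {A B T : Tab V} (h : Cn Δ k A B) (hT : Eqm U T A) :
    ∃ T', Eqm U T' B ∧ Eqm W T' T ∧ Cn (Δ ∪ pw W) k T T' := by
  induction h with
  | refl => exact ⟨T, hT, Eqm.refl _ _, Cn.refl _ _ _⟩
  | tail _ h ih =>
    obtain ⟨T1, h1, h2, h3⟩ := ih
    obtain ⟨T2, h4, h5, h6⟩ := h.lift hΔ hS h1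
    exact ⟨T2, h4, h5.trans h2, Relation.ReflTransGen.tail h3 h6⟩

/-- Two tables with the same marginals on `U` and on `W` are connected by moves of degree two which keep
these marginals (up to the coordinates outside `U ∪ W`). -/
theorem match_aux (U W : Finset V) (n : ℕ) : ∀ T T' : Tab V, T.card = n → Eqm U T T' → Eqm W T T' →
    Cn (pw U ∪ pw W) 2 T T' := by
  classical
  induction n with
  | zero =>
    intro T T' hn h1 _
    have h3 : T'.card = 0 := by rw [← h1.card]; exact hn
    rw [Multiset.card_eq_zero.1 hn, Multiset.card_eq_zero.1 h3]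
    exact Cn.refl _ _ _
  | succ n ih =>
    intro T T' hn h1 h2
    obtain ⟨t, ht⟩ := Multiset.card_pos_iff_exists_mem.1 (by omega : 0 < T.card)
    obtain ⟨T0, rfl⟩ := Multiset.exists_cons_of_mem ht
    have hn' : T0.card = n := by
      rw [Multiset.card_cons] at hn
      omega
    -- a cell of `T'` with the same restriction to `U`
    have h3 : rs U t ∈ T'.map (rs U) := by
      rw [← h1, Multiset.map_cons]
      exact Multiset.mem_cons_self _ _
    obtain ⟨a, ha, hat⟩ := Multiset.mem_map.1 h3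
    obtain ⟨T1, rfl⟩ := Multiset.exists_cons_of_mem ha
    by_cases hW : rs W a = rs W t
    · have h4 : Eqm U T0 T1 := by
        unfold Eqm at *
        rw [Multiset.map_cons, Multiset.map_cons, hat] at h1
        exact (Multiset.cons_inj_right _).1 h1
      have h5 : Eqm W T0 T1 := by
        unfold Eqm at *
        rw [Multiset.map_cons, Multiset.map_cons, hW] at h2
        exact (Multiset.cons_inj_right _).1 h2
      have h6 := ih T0 T1 hn' h4 h5
      have h7 : Mv (pw U ∪ pw W) 2 (t ::ₘ T0) (a ::ₘ T0) := by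
        refine ⟨T0, {t}, {a}, ?_, ?_, by simp, ?_⟩
        · rw [add_comm, Multiset.singleton_add]
        · rw [add_comm, Multiset.singleton_add]
        · rw [fb_union, fb_pw, fb_pw]
          refine ⟨?_, ?_⟩
          · unfold Eqm
            rw [Multiset.map_singleton, Multiset.map_singleton, hat]
          · unfold Eqm
            rw [Multiset.map_singleton, Multiset.map_singleton, hW]
      refine h7.cn.trans ?_
      have h8 := h6.add {a}
      rwa [Multiset.singleton_add, Multiset.singleton_add] at h8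
    · -- a second cell with the same restriction to `W`
      have h4 : rs W t ∈ T1.map (rs W) := by
        have h5 : rs W t ∈ (a ::ₘ T1).map (rs W) := by
          rw [← h2, Multiset.map_cons]
          exact Multiset.mem_cons_self _ _
        rw [Multiset.map_cons, Multiset.mem_cons] at h5
        rcases h5 with h5 | h5
        · exact absurd h5.symm hW
        · exact h5
      obtain ⟨b, hb, hbt⟩ := Multiset.mem_map.1 h4
      obtain ⟨T2, rfl⟩ := Multiset.exists_cons_of_mem hb
      have hab : rs (U ∩ W) a = rs (U ∩ W) b := by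
        rw [rs_mono Finset.inter_subset_left hat, rs_mono Finset.inter_subset_right hbt]
      set a' : V → Bool := gl U a b with ha'
      set b' : V → Bool := gl U b a with hb'
      have e1 : rs U a' = rs U a := rs_gl_left _ _ _
      have e2 : rs W a' = rs W b := rs_gl_right _ _ _ _ hab
      have e3 : rs U b' = rs U b := rs_gl_left _ _ _
      have e4 : rs W b' = rs W a := rs_gl_right _ _ _ _ hab.symm
      have h5 : Fb (pw U ∪ pw W) ({a', b'} : Tab V) {a, b} := by
        rw [fb_union, fb_pw, fb_pw]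
        refine ⟨?_, ?_⟩
        · unfold Eqm
          simp only [Multiset.insert_eq_cons, Multiset.map_cons, Multiset.map_singleton, e1, e3]
        · unfold Eqm
          simp only [Multiset.insert_eq_cons, Multiset.map_cons, Multiset.map_singleton, e2, e4]
          exact Multiset.cons_swap _ _ _
      have h6 : Mv (pw U ∪ pw W) 2 (a' ::ₘ b' ::ₘ T2) (a ::ₘ b ::ₘ T2) := by
        refine ⟨T2, {a', b'}, {a, b}, ?_, ?_, by simp, h5⟩
        · rw [add_comm]; simp
        · rw [add_comm]; simp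
      refine Cn.trans ?_ h6.cn
      -- now `a'` has the same restrictions as `t`
      have f1 : rs U a' = rs U t := e1.trans hat
      have f2 : rs W a' = rs W t := e2.trans hbt
      have g1 : Eqm U (t ::ₘ T0) (a' ::ₘ b' ::ₘ T2) :=
        h1.trans (h6.fb.mono Set.subset_union_left U (Finset.Subset.refl U)).symm
      have g2 : Eqm W (t ::ₘ T0) (a' ::ₘ b' ::ₘ T2) :=
        h2.trans (h6.fb.mono Set.subset_union_right W (Finset.Subset.refl W)).symm
      have h7 : Eqm U T0 (b' ::ₘ T2) := by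
        unfold Eqm at *
        rw [Multiset.map_cons, Multiset.map_cons (rs U) a', f1] at g1
        exact (Multiset.cons_inj_right _).1 g1
      have h8 : Eqm W T0 (b' ::ₘ T2) := by
        unfold Eqm at *
        rw [Multiset.map_cons, Multiset.map_cons (rs W) a', f2] at g2
        exact (Multiset.cons_inj_right _).1 g2
      have h9 := ih T0 _ hn' h7 h8
      have h10 : Mv (pw U ∪ pw W) 2 (t ::ₘ T0) (a' ::ₘ T0) := by
        refine ⟨T0, {t}, {a'}, ?_, ?_, by simp, ?_⟩
        · rw [add_comm, Multiset.singleton_add]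
        · rw [add_comm, Multiset.singleton_add]
        · rw [fb_union, fb_pw, fb_pw]
          refine ⟨?_, ?_⟩
          · unfold Eqm
            rw [Multiset.map_singleton, Multiset.map_singleton, f1]
          · unfold Eqm
            rw [Multiset.map_singleton, Multiset.map_singleton, f2]
      refine h10.cn.trans ?_
      have h11 := h9.add {a'}
      rwa [Multiset.singleton_add, Multiset.singleton_add] at h11

theorem match_cn {U W : Finset V} {T T' : Tab V} (h : Eqm U T T') (h' : Eqm W T T') :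
    Cn (pw U ∪ pw W) 2 T T' := match_aux U W _ T T' rfl h h'

end Pool.Agent.Lib.MP_73b196_co.Fib
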