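import Pool.Agent.Lib.MP_73b196_co.Fib.Spec

/-!
# Tables and multisets of cells
-/

set_option autoImplicit false

namespace Pool.Agent.Lib.MP_73b196_co.Fib.BridgeN

open Pool.Agent.Lib.MP_73b196_co Pool.Agent.Lib.MP_73b196_co.Fib

variable {V : Type} [Fintype V] [DecidableEq V]

/-- the table of a multiset -/
def tm (T : Tab V) : (V → Bool) → ℕ := fun i => T.count i

/-- the multiset of a table -/
def mt (x : (V → Bool) → ℕ) : Tab V := ∑ i, x i • ({i} : Multiset (V → Bool))

theorem count_mt (x : (V → Bool) → ℕ) (i : V → Bool) : (mt x).count i = x i := by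
  unfold mt
  rw [Multiset.count_sum', Finset.sum_eq_single i]
  · rw [Multiset.count_nsmul, Multiset.count_singleton_self, mul_one]
  · intro j _ hj
    rw [Multiset.count_nsmul, Multiset.count_singleton, if_neg (Ne.symm hj), mul_zero]
  · intro h
    exact absurd (Finset.mem_univ _) h

theorem tm_mt (x : (V → Bool) → ℕ) : tm (mt x) = x := funext fun i => count_mt x i

theorem mt_tm (T : Tab V) : mt (tm T) = T := by
  rw [Multiset.ext]
  intro i
  rw [count_mt]
  rfl

theorem mt_add (x y : (V → Bool) → ℕ) : mt (x + y) = mt x + mt y := by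
  rw [Multiset.ext]
  intro i
  rw [Multiset.count_add, count_mt, count_mt, count_mt]
  rfl

theorem tm_add (A B : Tab V) : tm (A + B) = tm A + tm B := by
  funext i
  exact Multiset.count_add i A B

theorem card_eq (T : Tab V) : (T.card : ℤ) = ∑ i, (tm T i : ℤ) := by
  have h : ∑ i, T.count i = T.card := Multiset.sum_count_eq_card fun a _ => Finset.mem_univ a
  rw [← h]
  push_cast
  rfl

theorem toInt_add (x y : (V → Bool) → ℕ) : toInt (x + y) = toInt x + toInt y := by
  funext i
  show ((x i + y i : ℕ) : ℤ) = (x i : ℤ) + y i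
  push_cast
  rfl

theorem mg_count (F : Finset V) (T : Tab V) (i : V → Bool) :
    mg F (toInt (tm T)) i = ((T.map (rs F)).count (rs F i) : ℤ) := by
  induction T using Multiset.induction_on with
  | empty =>
    rw [Multiset.map_zero, Multiset.count_zero]
    unfold mg
    refine Finset.sum_eq_zero fun j _ => ?_
    have h : toInt (tm (0 : Tab V)) j = 0 := by
      show ((Multiset.count j (0 : Multiset (V → Bool)) : ℕ) : ℤ) = 0
      rw [Multiset.count_zero]
      rfl
    rw [h, ite_self]
  | cons a T ih =>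
    have h1 : tm (a ::ₘ T) = tm {a} + tm T := by
      rw [← tm_add, Multiset.singleton_add]
    rw [h1, toInt_add, mg_add, ih, Multiset.map_cons, Multiset.count_cons]
    have h2 : mg F (toInt (tm {a})) i = if rs F i = rs F a then 1 else 0 := by
      unfold mg
      rw [Finset.sum_eq_single a]
      · have h3 : toInt (tm ({a} : Tab V)) a = 1 := by
          show ((Multiset.count a {a} : ℕ) : ℤ) = 1
          rw [Multiset.count_singleton_self]
          rfl
        rw [h3]
        by_cases h : rs F i = rs F a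
        · rw [if_pos h, if_pos]
          exact fun v hv => ((rs_eq_iff F i a).1 h v hv).symm
        · rw [if_neg h, if_neg]
          intro h'
          exact h ((rs_eq_iff F i a).2 fun v hv => (h' v hv).symm)
      · intro j _ hj
        have h3 : toInt (tm ({a} : Tab V)) j = 0 := by
          show ((Multiset.count j {a} : ℕ) : ℤ) = 0
          rw [Multiset.count_singleton, if_neg hj]
          rfl
        rw [h3, ite_self]
      · intro h
        exact absurd (Finset.mem_univ _) h
    rw [h2]
    push_cast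
    split_ifs <;> ring

theorem eqm_iff (F : Finset V) (A B : Tab V) :
    Eqm F A B ↔ ∀ i, mg F (toInt (tm A)) i = mg F (toInt (tm B)) i := by
  constructor
  · intro h i
    rw [mg_count, mg_count, show A.map (rs F) = B.map (rs F) from h]
  · intro h
    show A.map (rs F) = B.map (rs F)
    rw [Multiset.ext]
    intro b
    by_cases hb : rs F b = b
    · have h1 := h b
      rw [mg_count, mg_count, hb] at h1
      exact_mod_cast h1
    · have hz : ∀ T : Tab V, (T.map (rs F)).count b = 0 := by
        intro T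
        rw [Multiset.count_eq_zero]
        intro hmem
        obtain ⟨a, -, rfl⟩ := Multiset.mem_map.1 hmem
        exact hb (rs_rs (Finset.Subset.refl F) a)
      rw [hz, hz]

theorem fb_iff (Δ : Set (Finset V)) (A B : Tab V) :
    Fb Δ A B ↔ SameMarginals Δ (tm A) (tm B) := by
  rw [same_iff]
  exact forall₂_congr fun F _ => eqm_iff F A B

theorem step_of_mv {Δ : Set (Finset V)} (h0 : ∅ ∈ Δ) {S S' : Tab V} (h : Mv Δ 4 S S') :
    Relation.ReflTransGen (Step (B4 Δ)) (tm S) (tm S') := by
  obtain ⟨C, A, B, rfl, rfl, hA, hAB⟩ := h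
  by_cases hm : toInt (tm B) - toInt (tm A) = 0
  · have h1 : tm B = tm A := toInt_injective (sub_eq_zero.1 hm)
    rw [tm_add, tm_add, h1]
  · refine Relation.ReflTransGen.single ⟨toInt (tm B) - toInt (tm A), ⟨?_, ?_⟩, Or.inl ?_⟩
    · rw [isMove_iff]
      refine ⟨hm, fun F hF i => ?_⟩
      rw [mg_sub, ((eqm_iff F A B).1 (hAB F hF)) i, sub_self]
    · have h2 : degree (toInt (tm B) - toInt (tm A)) ≤ (B.card : ℤ) := by
        rw [card_eq]
        unfold degree
        refine Finset.sum_le_sum fun i _ => ?_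
        have h3 : (0 : ℤ) ≤ (tm A i : ℤ) := Int.natCast_nonneg _
        have h4 : (0 : ℤ) ≤ (tm B i : ℤ) := Int.natCast_nonneg _
        show max ((tm B i : ℤ) - (tm A i : ℤ)) 0 ≤ (tm B i : ℤ)
        exact max_le (by linarith) h4
      have h5 : A.card = B.card := (hAB ∅ h0).card
      have h6 : (B.card : ℤ) ≤ 4 := by
        rw [← h5]
        exact_mod_cast hA
      exact h2.trans h6
    · rw [tm_add, tm_add, toInt_add, toInt_add]
      abel

theorem mv_of_step {Δ : Set (Finset V)} (h0 : ∅ ∈ Δ) {B : Set ((V → Bool) → ℤ)}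
    (hB : ∀ m ∈ B, IsMove Δ m) (hd : ∀ m ∈ B, degree m ≤ 4) {x y : (V → Bool) → ℕ}
    (h : Step B x y) : Mv Δ 4 (mt x) (mt y) := by
  obtain ⟨m, hm, hxy⟩ := h
  have hmv := hB m hm
  have hdeg : degree (toInt x - toInt y) ≤ 4 := by
    rcases hxy with h | h
    · rw [h, sub_add_cancel_left, degree_neg h0 hmv]
      exact hd m hm
    · rw [h, sub_sub_cancel]
      exact hd m hm
  have hmg : ∀ F ∈ Δ, ∀ i, mg F (toInt x) i = mg F (toInt y) i := by
    intro F hF i
    have h1 := ((isMove_iff Δ m).1 hmv).2 F hF i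
    rcases hxy with h | h
    · rw [h, mg_add, h1, add_zero]
    · rw [h, mg_sub, h1, sub_zero]
  have e1 : x = x ⊓ y + (x - y) := by
    funext i
    show x i = min (x i) (y i) + (x i - y i)
    omega
  have e2 : y = x ⊓ y + (y - x) := by
    funext i
    show y i = min (x i) (y i) + (y i - x i)
    omega
  refine ⟨mt (x ⊓ y), mt (x - y), mt (y - x), ?_, ?_, ?_, ?_⟩
  · rw [← mt_add, ← e1]
  · rw [← mt_add, ← e2]
  · have h2 : ((mt (x - y)).card : ℤ) ≤ 4 := by
      rw [card_eq, tm_mt]
      refine le_trans (le_of_eq ?_) hdeg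
      unfold degree
      refine Finset.sum_congr rfl fun i _ => ?_
      show ((x i - y i : ℕ) : ℤ) = max ((x i : ℤ) - (y i : ℤ)) 0
      omega
    exact_mod_cast h2
  · rw [fb_iff, tm_mt, tm_mt, same_iff]
    intro F hF i
    have h3 := hmg F hF i
    have h4 : mg F (toInt x) i = mg F (toInt (x ⊓ y)) i + mg F (toInt (x - y)) i := by
      conv_lhs => rw [e1]
      rw [toInt_add, mg_add]
    have h5 : mg F (toInt y) i = mg F (toInt (x ⊓ y)) i + mg F (toInt (y - x)) i := by
      conv_lhs => rw [e2]
      rw [toInt_add, mg_add]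
    linarith

end Pool.Agent.Lib.MP_73b196_co.Fib.BridgeN

namespace Pool.Agent.Lib.MP_73b196_co.Fib

open BridgeN

/-- Markov degree at most four in terms of multisets. -/
theorem tBridge : StmtBridge := by
  intro n Δ hΔ
  constructor
  · rintro ⟨B, ⟨-, hB, hc⟩, hd⟩ T T' hTT
    have h1 := hc (tm T) (tm T') ((fb_iff Δ T T').1 hTT)
    have h2 : ∀ x y, Relation.ReflTransGen (Step B) x y → Cn Δ 4 (mt x) (mt y) := by
      intro x y h
      induction h with
      | refl => exact Cn.refl _ _ _
      | tail _ hs ih => exact ih.tail (mv_of_step hΔ.empty hB hd hs)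
    have h3 := h2 _ _ h1
    rwa [mt_tm, mt_tm] at h3
  · intro hD
    refine ⟨B4 Δ, ⟨B4_finite hΔ.empty, fun m hm => hm.1, ?_⟩, fun m hm => hm.2⟩
    intro x y hxy
    have h1 : Fb Δ (mt x) (mt y) := by
      rw [fb_iff, tm_mt, tm_mt]
      exact hxy
    have h2 : ∀ S S', Cn Δ 4 S S' → Relation.ReflTransGen (Step (B4 Δ)) (tm S) (tm S') := by
      intro S S' h
      induction h with
      | refl => exact Relation.ReflTransGen.refl
      | tail _ hs ih => exact ih.trans (step_of_mv hΔ.empty hs)
    have h3 := h2 _ _ (hD _ _ h1)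
    rwa [tm_mt, tm_mt] at h3

end Pool.Agent.Lib.MP_73b196_co.Fib
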