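import Pool.Agent.Lib.MP_73b196_co.Fib.Spec

/-!
# Cones
-/

set_option autoImplicit false

namespace Pool.Agent.Lib.MP_73b196_co.Fib

variable {V : Type} [DecidableEq V]

/-- The map which gives the value `b` to the coordinate `a`. -/
def upc (a : V) (b : Bool) (t : V → Bool) : V → Bool := Function.update t a b

theorem upc_eq {a : V} {b : Bool} {t : V → Bool} (h : t a = b) : upc a b t = t := by
  unfold upc
  rw [← h]
  exact Function.update_eq_self a t

/-- The slice `t a = b`. -/
def sl (a : V) (b : Bool) (T : Tab V) : Tab V := T.filter fun t => t a = b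

theorem sl_add (a : V) (T : Tab V) : sl a false T + sl a true T = T := by
  unfold sl
  have h : ∀ t : V → Bool, (¬ t a = false) = (t a = true) := by
    intro t
    simp
  have h1 := Multiset.filter_add_not (fun t : V → Bool => t a = false) T
  simp only [h] at h1
  exact h1

theorem sl_map (a : V) (b : Bool) (T : Tab V) : (sl a b T).map (upc a b) = sl a b T := by
  unfold sl
  conv_rhs => rw [← Multiset.map_id (T.filter fun t => t a = b)]
  refine Multiset.map_congr rfl ?_
  intro t ht
  rw [Multiset.mem_filter] at ht
  exact upc_eq ht.2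

/-- Marginals of slices. -/
theorem sl_eqm {F : Finset V} {a : V} {T T' : Tab V} (h : Eqm (insert a F) T T') (b : Bool) :
    Eqm F (sl a b T) (sl a b T') := by
  have h1 : ∀ S : Tab V, (sl a b S).map (rs (insert a F)) =
      (S.map (rs (insert a F))).filter fun t => t a = b := by
    intro S
    unfold sl
    rw [Multiset.filter_map]
    congr 1
    refine Multiset.filter_congr ?_
    intro t _
    simp only [Function.comp]
    rw [rs_mem (Finset.mem_insert_self a F)]
  have h2 : Eqm (insert a F) (sl a b T) (sl a b T') := by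
    unfold Eqm at *
    rw [h1, h1, h]
  exact h2.mono (Finset.subset_insert a F)

theorem fb_sl {Γ : Set (Finset V)} {a : V} (hΓ : ∀ F ∈ Γ, a ∉ F) {T T' : Tab V}
    (h : Fb (cone a Γ) T T') (b : Bool) : Fb Γ (sl a b T) (sl a b T') := by
  intro F hF
  apply sl_eqm
  apply h
  show (insert a F).erase a ∈ Γ
  rw [Finset.erase_insert (hΓ F hF)]
  exact hF

/-- Moves of `Γ` become moves of the cone. -/
theorem fb_upc {Γ : Set (Finset V)} {a : V} {A B : Tab V} (h : Fb Γ A B) (b : Bool) :
    Fb (cone a Γ) (A.map (upc a b)) (B.map (upc a b)) := by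
  intro F hF
  have h1 := h (F.erase a) hF
  have h2 : ∀ t : V → Bool, rs F (upc a b t) =
      (fun r : V → Bool => if a ∈ F then Function.update r a b else r) (rs (F.erase a) t) := by
    intro t
    funext v
    by_cases ha : a ∈ F
    · simp only [if_pos ha]
      by_cases hv : v = a
      · subst hv
        rw [rs_mem ha, Function.update_self]
        unfold upc
        rw [Function.update_self]
      · rw [Function.update_of_ne hv]
        by_cases hvF : v ∈ F
        · rw [rs_mem hvF, rs_mem (Finset.mem_erase.2 ⟨hv, hvF⟩)]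
          unfold upc
          rw [Function.update_of_ne hv]
        · rw [rs_notMem hvF, rs_notMem (fun h => hvF (Finset.mem_of_mem_erase h))]
    · simp only [if_neg ha]
      by_cases hvF : v ∈ F
      · have hv : v ≠ a := fun h => ha (h ▸ hvF)
        rw [rs_mem hvF, rs_mem (Finset.mem_erase.2 ⟨hv, hvF⟩)]
        unfold upc
        rw [Function.update_of_ne hv]
      · rw [rs_notMem hvF, rs_notMem (fun h => hvF (Finset.mem_of_mem_erase h))]
  unfold Eqm at *
  rw [Multiset.map_map, Multiset.map_map]
  have h3 : rs F ∘ upc a b =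
      (fun r : V → Bool => if a ∈ F then Function.update r a b else r) ∘ rs (F.erase a) :=
    funext h2
  rw [h3, ← Multiset.map_map, ← Multiset.map_map, h1]

theorem mv_upc {Γ : Set (Finset V)} {a : V} {k : ℕ} {A B : Tab V} (h : Mv Γ k A B) (b : Bool) :
    Mv (cone a Γ) k (A.map (upc a b)) (B.map (upc a b)) := by
  obtain ⟨C, A0, B0, rfl, rfl, hk, hf⟩ := h
  refine ⟨C.map (upc a b), A0.map (upc a b), B0.map (upc a b), Multiset.map_add _ _ _,
    Multiset.map_add _ _ _, ?_, fb_upc hf b⟩
  rw [Multiset.card_map]
  exact hk

theorem cn_upc {Γ : Set (Finset V)} {a : V} {k : ℕ} {A B : Tab V} (h : Cn Γ k A B) (b : Bool) :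
    Cn (cone a Γ) k (A.map (upc a b)) (B.map (upc a b)) := by
  induction h with
  | refl => exact Cn.refl _ _ _
  | tail _ h ih => exact Relation.ReflTransGen.tail ih (mv_upc h b)

/-- Paths in the slices. -/
theorem cn_slices {Γ : Set (Finset V)} {a : V} {k : ℕ} {T T' : Tab V}
    (h : ∀ b, Cn Γ k (sl a b T) (sl a b T')) : Cn (cone a Γ) k T T' := by
  have h1 : ∀ b, Cn (cone a Γ) k (sl a b T) (sl a b T') := by
    intro b
    have := cn_upc (a := a) (h b) b
    rwa [sl_map, sl_map] at this
  have h2 := (h1 false).add_add (h1 true)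
  rwa [sl_add, sl_add] at h2

theorem tCone : StmtCone := by
  intro V _ Γ a hΓ hD T T' hT
  exact cn_slices fun b => hD _ _ (fb_sl hΓ hT b)

theorem prc_add {Γ : Set (Finset V)} {a x y : V} {A B : Tab V} (D : Tab V)
    (h : Relation.ReflTransGen (Prc Γ a x y) A B) :
    Relation.ReflTransGen (Prc Γ a x y) (D + A) (D + B) := by
  induction h with
  | refl => exact Relation.ReflTransGen.refl
  | tail _ h ih =>
    refine Relation.ReflTransGen.tail ih ?_
    rcases h with h | h
    · exact Or.inl (h.add D)
    · exact Or.inr (h.add D)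

theorem prc_upc {Γ : Set (Finset V)} {a x y : V} {A B : Tab V} (b : Bool)
    (h : Relation.ReflTransGen (Pr Γ x y) A B) :
    Relation.ReflTransGen (Prc Γ a x y) (A.map (upc a b)) (B.map (upc a b)) := by
  induction h with
  | refl => exact Relation.ReflTransGen.refl
  | tail _ h ih =>
    refine Relation.ReflTransGen.tail ih ?_
    rcases h with h | h
    · exact Or.inl (mv_upc h b)
    · exact Or.inr (mv_upc h b)

theorem tConeP : StmtConeP := by
  intro V _ Γ a x y hΓ _ _ hP T T' hT
  have h1 : ∀ b, Relation.ReflTransGen (Prc Γ a x y) (sl a b T) (sl a b T') := by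
    intro b
    have := prc_upc (a := a) b (hP _ _ (fb_sl hΓ hT b))
    rwa [sl_map, sl_map] at this
  have h2 := prc_add (sl a false T) (h1 true)
  have h3 := prc_add (sl a true T') (h1 false)
  rw [add_comm (sl a true T'), add_comm (sl a true T'), sl_add] at h3
  rw [sl_add] at h2
  exact h2.trans h3

/-- (P) in a cone. -/
theorem pp_cone {Γ : Set (Finset V)} {a x y : V} (hx : a ≠ x) (hy : a ≠ y) (h : PPc Γ a x y) :
    PP (cone a Γ) x y := by
  intro T T' hT
  have h1 := h T T' hT
  clear hT
  induction h1 with
  | refl => exact Relation.ReflTransGen.refl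
  | tail _ h ih =>
    refine Relation.ReflTransGen.tail ih ?_
    rcases h with h | h
    · refine Or.inl (h.mono ?_ le_rfl)
      intro F hF
      refine ⟨F, ?_, Finset.Subset.refl F⟩
      rcases Set.mem_insert_iff.1 hF with rfl | hF
      · show ({x, y} : Finset V).erase a ∈ ad Γ x y
        have : ({x, y} : Finset V).erase a = {x, y} := by
          apply Finset.erase_eq_of_notMem
          rw [Finset.mem_insert, Finset.mem_singleton]
          rintro (h | h)
          · exact hx h
          · exact hy h
        rw [this]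
        exact Set.mem_insert _ _
      · exact Set.mem_insert_of_mem _ hF
    · exact Or.inr h

/-- (P) is trivial if `xy` is an edge. -/
theorem pp_of_mem {Γ : Set (Finset V)} {x y : V} (h : {x, y} ∈ Γ) (hD : Dg Γ) : PP Γ x y := by
  intro T T' hT
  have h1 := hD T T' hT
  clear hT
  have h2 : ad Γ x y = Γ := Set.insert_eq_of_mem h
  induction h1 with
  | refl => exact Relation.ReflTransGen.refl
  | tail _ h ih =>
    refine Relation.ReflTransGen.tail ih (Or.inl ?_)
    rw [h2]
    exact h

/-- (P) implies connectivity. -/
theorem dg_of_pp {Γ : Set (Finset V)} {x y : V} (h : PP Γ x y) : Dg Γ := by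
  intro T T' hT
  have h1 := h T T' hT
  clear hT
  induction h1 with
  | refl => exact Cn.refl _ _ _
  | tail _ h ih =>
    refine Relation.ReflTransGen.tail ih ?_
    rcases h with h | h
    · exact h.mono (fun F hF => ⟨F, Set.mem_insert_of_mem _ hF, Finset.Subset.refl F⟩) le_rfl
    · exact h.mono (fun F hF => ⟨F, hF, Finset.Subset.refl F⟩) (by norm_num)

/-- All tables with the same `U`-marginal are connected. -/
theorem dg_pw (U : Finset V) : Dg (pw U) := by
  intro T T' hT
  have h := match_cn (fb_pw.1 hT) (fb_pw.1 hT)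
  rw [Set.union_self] at h
  exact h.mono (fun F hF => ⟨F, hF, Finset.Subset.refl F⟩) (by norm_num)

end Pool.Agent.Lib.MP_73b196_co.Fib
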