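import Pool.Agent.Lib.MP_73b196_co.Fib.Spec

/-!
# The complex `{x, y} + a * Γ`
-/

set_option autoImplicit false

namespace Pool.Agent.Lib.MP_73b196_co.Fib.ConeDN

open Pool.Agent.Lib.MP_73b196_co.Fib

variable {V : Type} [DecidableEq V]

/-- a slice -/
def sl (a : V) (b : Bool) (T : Tab V) : Tab V := T.filter fun r => r a = b

/-- give the coordinate `a` the value `b` -/
def up (a : V) (b : Bool) (T : Tab V) : Tab V := T.map fun r => Function.update r a b

theorem sl_add (a : V) (b : Bool) (A B : Tab V) : sl a b (A + B) = sl a b A + sl a b B :=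
  Multiset.filter_add _ _ _

theorem up_add (a : V) (b : Bool) (A B : Tab V) : up a b (A + B) = up a b A + up a b B :=
  Multiset.map_add _ _ _

theorem sl_split (a : V) (b : Bool) (T : Tab V) : sl a b T + sl a (!b) T = T := by
  have h1 : sl a (!b) T = T.filter fun r => ¬ r a = b := by
    refine Multiset.filter_congr fun r _ => ?_
    cases r a <;> cases b <;> simp
  rw [h1]
  exact Multiset.filter_add_not _ _

theorem up_sl (a : V) (b : Bool) (T : Tab V) : up a b (sl a b T) = sl a b T := by
  unfold up
  have h : ∀ r ∈ sl a b T, Function.update r a b = id r := by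
    intro r hr
    have h1 := (Multiset.mem_filter.1 hr).2
    rw [← h1, Function.update_eq_self]
    rfl
  rw [Multiset.map_congr rfl h, Multiset.map_id]

theorem sl_up (a : V) (b : Bool) (T : Tab V) : sl a b (up a b T) = up a b T := by
  refine Multiset.filter_eq_self.2 fun r hr => ?_
  obtain ⟨s, -, rfl⟩ := Multiset.mem_map.1 hr
  exact Function.update_self _ _ _

theorem sl_up_not (a : V) (b : Bool) (T : Tab V) : sl a (!b) (up a b T) = 0 := by
  refine Multiset.filter_eq_nil.2 fun r hr => ?_
  obtain ⟨s, -, rfl⟩ := Multiset.mem_map.1 hr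
  rw [Function.update_self]
  cases b <;> simp

theorem sl_up_not' (a : V) (b : Bool) (T : Tab V) : sl a b (up a (!b) T) = 0 := by
  have h := sl_up_not a (!b) T
  rwa [Bool.not_not] at h

theorem ht_add (x y : V) (A B : Tab V) : ht x y (A + B) = ht x y A + ht x y B :=
  Multiset.countP_add _ _ _

theorem ht_up {a x y : V} (hx : a ≠ x) (hy : a ≠ y) (b : Bool) (T : Tab V) :
    ht x y (up a b T) = ht x y T := by
  unfold ht up
  rw [Multiset.countP_map, Multiset.countP_eq_card_filter]
  congr 1
  refine Multiset.filter_congr fun r _ => ?_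
  rw [Function.update_of_ne hx.symm, Function.update_of_ne hy.symm]

theorem ht_eqm {x y : V} {A B : Tab V} (h : Eqm {x, y} A B) : ht x y A = ht x y B := by
  have key : ∀ T : Tab V, ht x y T = ht x y (T.map (rs {x, y})) := by
    intro T
    unfold ht
    rw [Multiset.countP_map, Multiset.countP_eq_card_filter]
    congr 1
    refine Multiset.filter_congr fun r _ => ?_
    rw [rs_mem (by simp), rs_mem (by simp)]
  rw [key A, key B, show A.map (rs {x, y}) = B.map (rs {x, y}) from h]

/-- the number of cells with given values at `x`, `y` -/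
def cn (x y : V) (p q : Bool) (T : Tab V) : ℕ := T.countP fun t => t x = p ∧ t y = q

theorem cn_card (x y : V) (T : Tab V) :
    cn x y true true T + cn x y true false T + cn x y false true T + cn x y false false T =
      T.card := by
  unfold cn
  induction T using Multiset.induction_on with
  | empty => simp
  | cons r T ih =>
    simp only [Multiset.countP_cons, Multiset.card_cons]
    rw [← ih]
    cases r x <;> cases r y <;> simp <;> ring

theorem cn_x (x y : V) (T : Tab V) :
    cn x y true true T + cn x y true false T = T.countP fun t => t x = true := by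
  unfold cn
  induction T using Multiset.induction_on with
  | empty => simp
  | cons r T ih =>
    simp only [Multiset.countP_cons]
    rw [← ih]
    cases r x <;> cases r y <;> simp <;> ring

theorem cn_y (x y : V) (T : Tab V) :
    cn x y true true T + cn x y false true T = T.countP fun t => t y = true := by
  unfold cn
  induction T using Multiset.induction_on with
  | empty => simp
  | cons r T ih =>
    simp only [Multiset.countP_cons]
    rw [← ih]
    cases r x <;> cases r y <;> simp <;> ring

theorem countP_eqm {x : V} {A B : Tab V} (h : Eqm {x} A B) :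
    (A.countP fun t => t x = true) = B.countP fun t => t x = true := by
  have key : ∀ T : Tab V, (T.countP fun t => t x = true) =
      (T.map (rs {x})).countP fun t => t x = true := by
    intro T
    rw [Multiset.countP_map, Multiset.countP_eq_card_filter]
    congr 1
    refine Multiset.filter_congr fun r _ => ?_
    rw [rs_mem (by simp)]
  rw [key A, key B, show A.map (rs {x}) = B.map (rs {x}) from h]

/-- the `{x, y}`-marginal is determined by the height, the marginals of `x` and `y` and the size -/
theorem eqm_of_ht {x y : V} {A B : Tab V} (hxy : x ≠ y) (hx : Eqm {x} A B) (hy : Eqm {y} A B)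
    (h : ht x y A = ht x y B) : Eqm {x, y} A B := by
  have c1 : cn x y true true A = cn x y true true B := h
  have c2 := countP_eqm hx
  have c3 := countP_eqm hy
  have c4 : A.card = B.card := hx.card
  rw [← cn_x x y, ← cn_x x y] at c2
  rw [← cn_y x y, ← cn_y x y] at c3
  rw [← cn_card x y, ← cn_card x y] at c4
  have hall : ∀ p q, cn x y p q A = cn x y p q B := by
    intro p q
    cases p <;> cases q <;> omega
  have hb : (A.map fun r => (r x, r y)) = B.map fun r => (r x, r y) := by
    rw [Multiset.ext]
    rintro ⟨p, q⟩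
    have hc : ∀ T : Tab V, (T.map fun r => (r x, r y)).count (p, q) = cn x y p q T := by
      intro T
      unfold cn
      rw [Multiset.count_map, Multiset.countP_eq_card_filter]
      congr 1
      refine Multiset.filter_congr fun r _ => ?_
      rw [Prod.mk.injEq, eq_comm, @eq_comm _ q]
    rw [hc, hc, hall]
  have h2 := congrArg (Multiset.map fun pq : Bool × Bool =>
    (fun v => if v = x then pq.1 else if v = y then pq.2 else false : V → Bool)) hb
  rw [Multiset.map_map, Multiset.map_map] at h2
  have h3 : ((fun pq : Bool × Bool =>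
      (fun v => if v = x then pq.1 else if v = y then pq.2 else false : V → Bool)) ∘
        fun r : V → Bool => (r x, r y)) = rs {x, y} := by
    funext r v
    show (if v = x then r x else if v = y then r y else false) = rs {x, y} r v
    rw [rs_apply]
    by_cases h1 : v = x
    · subst h1
      simp
    · by_cases h2 : v = y
      · subst h2
        simp [h1]
      · simp [h1, h2]
  rw [h3] at h2
  exact h2

theorem up_eqm {a : V} (b : Bool) {G : Finset V} {A B : Tab V} (h : Eqm (G.erase a) A B) :
    Eqm G (up a b A) (up a b B) := by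
  have h1 := congrArg (Multiset.map fun s => rs G (Function.update s a b))
    (show A.map (rs (G.erase a)) = B.map (rs (G.erase a)) from h)
  rw [Multiset.map_map, Multiset.map_map] at h1
  have h2 : ((fun s : V → Bool => rs G (Function.update s a b)) ∘ rs (G.erase a)) =
      rs G ∘ fun r => Function.update r a b := by
    funext r
    show rs G (Function.update (rs (G.erase a) r) a b) = rs G (Function.update r a b)
    rw [rs_eq_iff]
    intro v hv
    by_cases hva : v = a
    · subst hva
      rw [Function.update_self, Function.update_self]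
    · rw [Function.update_of_ne hva, Function.update_of_ne hva,
        rs_mem (Finset.mem_erase.2 ⟨hva, hv⟩)]
  rw [h2] at h1
  show (up a b A).map (rs G) = (up a b B).map (rs G)
  unfold up
  rw [Multiset.map_map, Multiset.map_map]
  exact h1

theorem sl_eqm {a : V} (b : Bool) {F : Finset V} {A B : Tab V} (h : Eqm (insert a F) A B) :
    Eqm F (sl a b A) (sl a b B) := by
  have key : ∀ T : Tab V, (sl a b T).map (rs (insert a F)) =
      (T.map (rs (insert a F))).filter fun r => r a = b := by
    intro T
    rw [Multiset.filter_map]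
    unfold sl
    congr 1
    refine Multiset.filter_congr fun r _ => ?_
    show r a = b ↔ rs (insert a F) r a = b
    rw [rs_mem (Finset.mem_insert_self _ _)]
  have h1 : Eqm (insert a F) (sl a b A) (sl a b B) := by
    show (sl a b A).map (rs (insert a F)) = (sl a b B).map (rs (insert a F))
    rw [key, key, show A.map (rs (insert a F)) = B.map (rs (insert a F)) from h]
  exact h1.mono (Finset.subset_insert _ _)

section

variable {Γ : Set (Finset V)} {a x y : V}

theorem up_fb (hx : a ≠ x) (hy : a ≠ y) (b : Bool) {A B : Tab V} (h : Fb (ad Γ x y) A B) :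
    Fb (ad (cone a Γ) x y) (up a b A) (up a b B) := by
  rw [fb_ad] at h ⊢
  refine ⟨up_eqm b (h.1.mono (Finset.erase_subset _ _)), fun G hG => up_eqm b (h.2 _ hG)⟩

theorem up_cn (hx : a ≠ x) (hy : a ≠ y) (b : Bool) {A B : Tab V} (h : Cn (ad Γ x y) 4 A B) :
    Cn (ad (cone a Γ) x y) 4 (up a b A) (up a b B) := by
  induction h with
  | refl => exact Cn.refl _ _ _
  | tail _ hs ih =>
    refine ih.tail ?_
    obtain ⟨C, A', B', rfl, rfl, hc, hf⟩ := hs
    refine ⟨up a b C, up a b A', up a b B', up_add _ _ _ _, up_add _ _ _ _, ?_, up_fb hx hy b hf⟩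
    unfold up
    rw [Multiset.card_map]
    exact hc

theorem un_ht {A B : Tab V} (h : Un x y A B) : ht x y A = 0 ∧ ht x y B = 1 := by
  obtain ⟨r, r', s, s', rfl, rfl, h1, h2, h3, h4, h5, h6, h7, h8⟩ := h
  unfold ht
  simp only [Multiset.insert_eq_cons, Multiset.countP_cons, ← Multiset.cons_zero,
    Multiset.countP_zero]
  simp [h1, h2, h3, h4, h5, h6, h7, h8]

theorem un_card {A B : Tab V} (h : Un x y A B) : A.card = 2 ∧ B.card = 2 := by
  obtain ⟨r, r', s, s', rfl, rfl, -⟩ := h
  exact ⟨rfl, rfl⟩

theorem un_eqm {A B A' B' : Tab V} (h : Un x y A B) (h' : Un x y A' B') :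
    Eqm {x, y} A A' ∧ Eqm {x, y} B B' := by
  obtain ⟨r, r', s, s', rfl, rfl, h1, h2, h3, h4, h5, h6, h7, h8⟩ := h
  obtain ⟨t, t', u, u', rfl, rfl, k1, k2, k3, k4, k5, k6, k7, k8⟩ := h'
  have e : ∀ p q : V → Bool, p x = q x → p y = q y → rs {x, y} p = rs {x, y} q := by
    intro p q h1 h2
    rw [rs_eq_iff]
    intro v hv
    rw [Finset.mem_insert, Finset.mem_singleton] at hv
    rcases hv with rfl | rfl
    · exact h1
    · exact h2
  constructor
  · show Multiset.map (rs {x, y}) {r, r'} = Multiset.map (rs {x, y}) {t, t'}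
    simp only [Multiset.insert_eq_cons, Multiset.map_cons, Multiset.map_singleton]
    rw [e r t (by rw [h1, k1]) (by rw [h2, k2]), e r' t' (by rw [h3, k3]) (by rw [h4, k4])]
  · show Multiset.map (rs {x, y}) {s, s'} = Multiset.map (rs {x, y}) {u, u'}
    simp only [Multiset.insert_eq_cons, Multiset.map_cons, Multiset.map_singleton]
    rw [e s u (by rw [h5, k5]) (by rw [h6, k6]), e s' u' (by rw [h7, k7]) (by rw [h8, k8])]

/-- one step: up in the slice `b`, down in the other one -/
theorem step (hx : a ≠ x) (hy : a ≠ y) (hU : QU Γ x y) (hD : QD Γ x y) {T T' : Tab V}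
    (hs : ∀ b, Fb Γ (sl a b T) (sl a b T')) (b : Bool)
    (h1 : ht x y (sl a b T) < ht x y (sl a b T'))
    (h2 : ht x y (sl a (!b) T') < ht x y (sl a (!b) T)) :
    ∃ T2, Cn (ad (cone a Γ) x y) 4 T T2 ∧ ht x y (sl a b T2) = ht x y (sl a b T) + 1 ∧
      ht x y (sl a (!b) T2) + 1 = ht x y (sl a (!b) T) := by
  obtain ⟨C, A, B, c1, f1, u1⟩ := hU _ _ (hs b) h1
  obtain ⟨C', A', B', c2, f2, u2⟩ := hD _ _ (hs (!b)) h2
  have p1 := up_cn hx hy b c1
  have p2 := up_cn hx hy (!b) c2
  rw [up_sl, up_add] at p1 p2
  have p3 := p1.add_add p2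
  rw [sl_split] at p3
  refine ⟨(up a b C + up a (!b) C') + (up a b B + up a (!b) A'), p3.tail ?_, ?_, ?_⟩
  · refine ⟨up a b C + up a (!b) C', up a b A + up a (!b) B', up a b B + up a (!b) A',
      add_add_add_comm _ _ _ _, rfl, ?_, ?_⟩
    · unfold up
      rw [Multiset.card_add, Multiset.card_map, Multiset.card_map, (un_card u1).1,
        (un_card u2).2]
    · rw [fb_ad]
      constructor
      · have q1 : Eqm {x, y} (up a b A) (up a b A') :=
          up_eqm b ((un_eqm u1 u2).1.mono (Finset.erase_subset _ _))
        have hmem : ∀ c (T : Tab V), (up a c T).map (rs {x, y}) = T.map (rs {x, y}) := by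
          intro c T
          unfold up
          rw [Multiset.map_map]
          refine Multiset.map_congr rfl fun r _ => ?_
          show rs {x, y} (Function.update r a c) = rs {x, y} r
          rw [rs_eq_iff]
          intro v hv
          rw [Function.update_of_ne]
          rintro rfl
          rw [Finset.mem_insert, Finset.mem_singleton] at hv
          rcases hv with h | h
          · exact hx h
          · exact hy h
        show (up a b A + up a (!b) B').map (rs {x, y}) = (up a b B + up a (!b) A').map (rs {x, y})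
        rw [Multiset.map_add, Multiset.map_add, hmem, hmem, hmem, hmem,
          show A.map (rs {x, y}) = A'.map (rs {x, y}) from (un_eqm u1 u2).1,
          show B.map (rs {x, y}) = B'.map (rs {x, y}) from (un_eqm u1 u2).2, add_comm]
      · intro G hG
        exact (up_eqm b (f1 _ hG)).add (up_eqm (!b) (f2 _ hG)).symm
  · have e1 : ht x y (sl a b T) = ht x y (C + A) := ht_eqm (fb_ad.1 c1.fb).1
    rw [sl_add, sl_add, sl_add, sl_up, sl_up, sl_up_not', sl_up_not', add_zero, add_zero,
      ht_add, ht_up hx hy, ht_up hx hy, e1, ht_add, (un_ht u1).1, (un_ht u1).2]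
  · have e1 : ht x y (sl a (!b) T) = ht x y (C' + B') := ht_eqm (fb_ad.1 c2.fb).1
    rw [sl_add, sl_add, sl_add, sl_up, sl_up, sl_up_not, sl_up_not, zero_add, zero_add,
      ht_add, ht_up hx hy, ht_up hx hy, e1, ht_add, (un_ht u2).1, (un_ht u2).2]

theorem main (hxy : x ≠ y) (hx : a ≠ x) (hy : a ≠ y) (hΓ : ∀ F ∈ Γ, a ∉ F) (gx : {x} ∈ Γ)
    (gy : {y} ∈ Γ) (hU : QU Γ x y) (hD : QD Γ x y) (hdg : Dg (ad Γ x y)) (N : ℕ) :
    ∀ T T' : Tab V, Fb (ad (cone a Γ) x y) T T' →
      (∑ b, ((ht x y (sl a b T) : ℤ) - ht x y (sl a b T')).natAbs) ≤ N →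
      Cn (ad (cone a Γ) x y) 4 T T' := by
  have hsl : ∀ T T' : Tab V, Fb (ad (cone a Γ) x y) T T' → ∀ b, Fb Γ (sl a b T) (sl a b T') := by
    intro T T' hT b F hF
    refine sl_eqm b ((fb_ad.1 hT).2 _ ?_)
    show (insert a F).erase a ∈ Γ
    rw [Finset.erase_insert (hΓ F hF)]
    exact hF
  have hsum : ∀ T T' : Tab V, Fb (ad (cone a Γ) x y) T T' →
      ht x y (sl a false T) + ht x y (sl a true T) =
        ht x y (sl a false T') + ht x y (sl a true T') := by
    intro T T' hT
    have h1 := ht_eqm (fb_ad.1 hT).1
    rw [← sl_split a false T, ← sl_split a false T', ht_add, ht_add] at h1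
    exact h1
  induction N with
  | zero =>
    intro T T' hT hN
    have h0 : ∀ b, ht x y (sl a b T) = ht x y (sl a b T') := by
      intro b
      rw [Fintype.sum_bool] at hN
      cases b <;> omega
    have h1 : ∀ b, Cn (ad (cone a Γ) x y) 4 (sl a b T) (sl a b T') := by
      intro b
      have h2 : Fb (ad Γ x y) (sl a b T) (sl a b T') := by
        rw [fb_ad]
        exact ⟨eqm_of_ht hxy (hsl T T' hT b _ gx) (hsl T T' hT b _ gy) (h0 b), hsl T T' hT b⟩
      have h3 := up_cn hx hy b (hdg _ _ h2)
      rwa [up_sl, up_sl] at h3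
    have h2 := (h1 false).add_add (h1 (!false))
    rwa [sl_split, sl_split] at h2
  | succ N ih =>
    intro T T' hT hN
    by_cases he : ht x y (sl a false T) = ht x y (sl a false T')
    · refine ih T T' hT ?_
      have h1 := hsum T T' hT
      rw [Fintype.sum_bool]
      omega
    · have h1 := hsum T T' hT
      have hb : ∃ b, ht x y (sl a b T) < ht x y (sl a b T') ∧
          ht x y (sl a (!b) T') < ht x y (sl a (!b) T) := by
        rcases lt_or_gt_of_ne he with h | h
        · exact ⟨false, h, by show ht x y (sl a true T') < ht x y (sl a true T); omega⟩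
        · exact ⟨true, by omega, by show ht x y (sl a false T') < ht x y (sl a false T); omega⟩
      obtain ⟨b, hb1, hb2⟩ := hb
      obtain ⟨T2, hc, k1, k2⟩ := step hx hy hU hD (hsl T T' hT) b hb1 hb2
      refine hc.trans (ih T2 T' (hc.fb.symm.trans hT) ?_)
      rw [Fintype.sum_bool] at hN ⊢
      cases b
      · rw [Bool.not_false] at k2 hb2
        omega
      · rw [Bool.not_true] at k2 hb2
        omega

end

end Pool.Agent.Lib.MP_73b196_co.Fib.ConeDN

namespace Pool.Agent.Lib.MP_73b196_co.Fib

/-- The complex `{x, y} + a * Γ`. -/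
theorem tConeD (h : StmtUnit) : StmtConeD := by
  intro V _ Γ a x y hxy hΓ hx hy h0 gx gy hP hdg T T' hT
  obtain ⟨hU, hD⟩ := h V Γ x y hxy h0 gx gy hP hdg
  exact ConeDN.main hxy hx hy hΓ gx gy hU hD hdg _ T T' hT le_rfl

end Pool.Agent.Lib.MP_73b196_co.Fib
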