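import Pool.Agent.Lib.MP_73b196_co.Fib.Spec

/-!
# Crossed cones with the edge `xy` (statement `StmtCrossD` of `Fib/Spec.lean`)
-/

set_option autoImplicit false

namespace Pool.Agent.Lib.MP_73b196_co.Fib

namespace CrossDN

variable {V : Type} [DecidableEq V]

/-! ### Weights -/

/-- total weight of a table -/
def wt (w : (V → Bool) → ℤ) (T : Tab V) : ℤ := (T.map w).sum

omit [DecidableEq V] in
theorem wt_nil (w : (V → Bool) → ℤ) : wt w (0 : Tab V) = 0 := by simp [wt]

omit [DecidableEq V] in
theorem wt_add (w : (V → Bool) → ℤ) (A B : Tab V) : wt w (A + B) = wt w A + wt w B := by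
  simp [wt]

omit [DecidableEq V] in
theorem wt_sing (w : (V → Bool) → ℤ) (r : V → Bool) : wt w ({r} : Tab V) = w r := by simp [wt]

omit [DecidableEq V] in
theorem wt_wadd (w w' : (V → Bool) → ℤ) (T : Tab V) :
    wt (fun r => w r + w' r) T = wt w T + wt w' T := by
  unfold wt
  rw [Multiset.sum_map_add]

omit [DecidableEq V] in
theorem wt_congr {w w' : (V → Bool) → ℤ} {T : Tab V} (h : ∀ r ∈ T, w r = w' r) :
    wt w T = wt w' T := by
  unfold wt
  rw [Multiset.map_congr rfl h]

omit [DecidableEq V] in
theorem wt_nonneg {w : (V → Bool) → ℤ} {T : Tab V} (h : ∀ r ∈ T, 0 ≤ w r) : 0 ≤ wt w T := by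
  unfold wt
  apply Multiset.sum_nonneg
  intro a ha
  obtain ⟨r, hr, rfl⟩ := Multiset.mem_map.1 ha
  exact h r hr

omit [DecidableEq V] in
theorem wt_neg (w : (V → Bool) → ℤ) (T : Tab V) : wt (fun r => - w r) T = - wt w T := by
  unfold wt
  rw [Multiset.sum_map_neg]

omit [DecidableEq V] in
theorem wt_pos {w : (V → Bool) → ℤ} {T : Tab V} (h : 0 < wt w T) : ∃ r ∈ T, 0 < w r := by
  by_contra hcon
  push Not at hcon
  have h1 : 0 ≤ wt (fun r => - w r) T := wt_nonneg fun r hr => neg_nonneg.2 (hcon r hr)
  rw [wt_neg] at h1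
  omega

omit [DecidableEq V] in
theorem wt_map (w : (V → Bool) → ℤ) (f : (V → Bool) → (V → Bool)) (T : Tab V) :
    wt w (T.map f) = wt (fun r => w (f r)) T := by
  unfold wt
  rw [Multiset.map_map]
  rfl

omit [DecidableEq V] in
theorem wt_eq_zero {w : (V → Bool) → ℤ} {T : Tab V} (h : ∀ r ∈ T, 0 ≤ w r) (h0 : wt w T = 0) :
    ∀ r ∈ T, w r = 0 := by
  intro r hr
  obtain ⟨T0, rfl⟩ := Multiset.exists_cons_of_mem hr
  have h1 : 0 ≤ wt w T0 := wt_nonneg fun a ha => h a (Multiset.mem_cons_of_mem ha)
  have h2 : wt w (r ::ₘ T0) = w r + wt w T0 := by simp [wt]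
  have h3 := h r (Multiset.mem_cons_self _ _)
  omega

theorem wt_loc {K : Finset V} {w : (V → Bool) → ℤ} (hw : ∀ r, w (rs K r) = w r) {T T' : Tab V}
    (h : Eqm K T T') : wt w T = wt w T' := by
  have h1 : ∀ T : Tab V, wt w (T.map (rs K)) = wt w T := by
    intro T
    rw [wt_map]
    exact wt_congr fun r _ => hw r
  rw [← h1 T, ← h1 T']
  unfold Eqm at h
  rw [h]

open Classical in
/-- Equality of marginals from equality of weights. -/
theorem eqm_of_wt {K : Finset V} {T T' : Tab V}
    (h : ∀ u : V → Bool, wt (fun r => if rs K r = rs K u then 1 else 0) T =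
      wt (fun r => if rs K r = rs K u then 1 else 0) T') : Eqm K T T' := by
  have cnt : ∀ (T : Tab V) (u : V → Bool), (((T.map (rs K)).count u : ℕ) : ℤ) =
      wt (fun r => if rs K r = u then 1 else 0) T := by
    intro T u
    induction T using Multiset.induction_on with
    | empty => simp [wt]
    | cons a T ih =>
      rw [Multiset.map_cons, Multiset.count_cons]
      have h2 : wt (fun r => if rs K r = u then (1 : ℤ) else 0) (a ::ₘ T) =
          (if rs K a = u then 1 else 0) + wt (fun r => if rs K r = u then 1 else 0) T := by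
        simp [wt]
      rw [h2, ← ih]
      by_cases hu : u = rs K a
      · rw [if_pos hu, if_pos hu.symm]
        push_cast
        ring
      · rw [if_neg hu, if_neg (fun h => hu h.symm)]
        push_cast
        ring
  unfold Eqm
  apply Multiset.ext.2
  intro u
  have h3 : (((T.map (rs K)).count u : ℕ) : ℤ) = (((T'.map (rs K)).count u : ℕ) : ℤ) := by
    rw [cnt, cnt]
    by_cases hu : rs K u = u
    · have h4 := h u
      rw [hu] at h4
      exact h4
    · have h5 : ∀ r : V → Bool, rs K r ≠ u := by
        intro r hr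
        apply hu
        rw [← hr, rs_rs (Finset.Subset.refl K)]
      have h6 : ∀ T : Tab V, wt (fun r => if rs K r = u then (1 : ℤ) else 0) T = 0 := by
        intro T
        have : wt (fun r => if rs K r = u then (1 : ℤ) else 0) T = wt (fun _ => (0 : ℤ)) T :=
          wt_congr fun r _ => if_neg (h5 r)
        rw [this]
        simp [wt]
      rw [h6, h6]
  exact_mod_cast h3

/-! ### Indicators -/

/-- indicator of `b = p` -/
def iv (p b : Bool) : ℤ := if b = p then 1 else 0

/-- the state `(p, q)` -/
def wn (s t : V) (p q : Bool) (r : V → Bool) : ℤ := iv p (r s) * iv q (r t)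

/-- the state `(p, q)` and `x = 1` -/
def wf (s t x : V) (p q : Bool) (r : V → Bool) : ℤ := iv p (r s) * iv q (r t) * iv true (r x)

/-- the state `(p, q)` and `(x, y) = (a, b)` -/
def w4 (s t x y : V) (p q a b : Bool) (r : V → Bool) : ℤ :=
  iv p (r s) * iv q (r t) * (iv a (r x) * iv b (r y))

/-- `x = y = 1` -/
def wh (x y : V) (r : V → Bool) : ℤ := iv true (r x) * iv true (r y)

theorem iv_nonneg (p b : Bool) : 0 ≤ iv p b := by
  revert p b; decide

omit [DecidableEq V] in
theorem w4_nonneg (s t x y : V) (p q a b : Bool) (r : V → Bool) : 0 ≤ w4 s t x y p q a b r :=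
  mul_nonneg (mul_nonneg (iv_nonneg _ _) (iv_nonneg _ _))
    (mul_nonneg (iv_nonneg _ _) (iv_nonneg _ _))

omit [DecidableEq V] in
theorem wf_x (s t x y : V) (p q : Bool) (T : Tab V) : wt (wf s t x p q) T =
    wt (w4 s t x y p q true true) T + wt (w4 s t x y p q true false) T := by
  rw [← wt_wadd]
  apply wt_congr
  intro r _
  unfold wf w4
  generalize r s = a; generalize r t = b; generalize r x = c; generalize r y = d
  revert a b c d p q
  decide

omit [DecidableEq V] in
theorem wf_y (s t x y : V) (p q : Bool) (T : Tab V) : wt (wf s t y p q) T =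
    wt (w4 s t x y p q true true) T + wt (w4 s t x y p q false true) T := by
  rw [← wt_wadd]
  apply wt_congr
  intro r _
  unfold wf w4
  generalize r s = a; generalize r t = b; generalize r x = c; generalize r y = d
  revert a b c d p q
  decide

omit [DecidableEq V] in
theorem wn_eq (s t x y : V) (p q : Bool) (T : Tab V) : wt (wn s t p q) T =
    wt (w4 s t x y p q true true) T + wt (w4 s t x y p q true false) T +
      wt (w4 s t x y p q false true) T + wt (w4 s t x y p q false false) T := by
  rw [← wt_wadd, ← wt_wadd, ← wt_wadd]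
  apply wt_congr
  intro r _
  unfold wn w4
  generalize r s = a; generalize r t = b; generalize r x = c; generalize r y = d
  revert a b c d p q
  decide

omit [DecidableEq V] in
theorem wh_eq (s t x y : V) (T : Tab V) : wt (wh x y) T =
    sm fun p q => wt (w4 s t x y p q true true) T := by
  unfold sm
  rw [← wt_wadd, ← wt_wadd, ← wt_wadd]
  apply wt_congr
  intro r _
  unfold wh w4
  generalize r s = a; generalize r t = b; generalize r x = c; generalize r y = d
  revert a b c d
  decide

omit [DecidableEq V] in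
theorem w4_wt_nonneg (s t x y : V) (p q a b : Bool) (T : Tab V) :
    0 ≤ wt (w4 s t x y p q a b) T := wt_nonneg fun r _ => w4_nonneg s t x y p q a b r

theorem iv_pos {p b : Bool} (h : 0 < iv p b) : b = p := by
  revert p b; decide

omit [DecidableEq V] in
theorem exists_cell {s t x y : V} {p q a b : Bool} {T : Tab V}
    (h : 0 < wt (w4 s t x y p q a b) T) : ∃ r ∈ T, r s = p ∧ r t = q ∧ r x = a ∧ r y = b := by
  obtain ⟨r, hr, h1⟩ := wt_pos h
  refine ⟨r, hr, ?_⟩
  clear h hr
  unfold w4 at h1
  generalize r s = a' at *; generalize r t = b' at *; generalize r x = c' at *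
  generalize r y = d' at *
  revert a' b' c' d' p q a b
  decide

/-! ### Marginals and weights -/

theorem rs_ind {K : Finset V} (r u : V → Bool) :
    (rs K r = rs K u) ↔ ∀ v ∈ K, r v = u v := rs_eq_iff K r u

/-- Equality of the marginals for `{s, t, x, y}`. -/
theorem eqm_M {s t x y : V} {T T' : Tab V}
    (h : ∀ p q a b, wt (w4 s t x y p q a b) T = wt (w4 s t x y p q a b) T') :
    Eqm {s, t, x, y} T T' := by
  classical
  apply eqm_of_wt
  intro u
  have h1 : ∀ T : Tab V, wt (fun r => if rs {s, t, x, y} r = rs {s, t, x, y} u then (1 : ℤ) else 0) T =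
      wt (w4 s t x y (u s) (u t) (u x) (u y)) T := by
    intro T
    apply wt_congr
    intro r _
    have h2 : (rs {s, t, x, y} r = rs {s, t, x, y} u) ↔
        (r s = u s ∧ r t = u t ∧ r x = u x ∧ r y = u y) := by
      rw [rs_ind]
      simp
    unfold w4 iv
    by_cases h3 : r s = u s <;> by_cases h4 : r t = u t <;> by_cases h5 : r x = u x <;>
      by_cases h6 : r y = u y <;> simp [h2, h3, h4, h5, h6]
  rw [h1, h1]
  exact h _ _ _ _

theorem wh_loc (x y : V) (r : V → Bool) : wh x y (rs {x, y} r) = wh x y r := by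
  unfold wh
  rw [rs_mem (by simp), rs_mem (by simp)]

theorem w4_loc (s t x y : V) (p q a b : Bool) (r : V → Bool) :
    w4 s t x y p q a b (rs {s, t, x, y} r) = w4 s t x y p q a b r := by
  unfold w4
  rw [rs_mem (by simp), rs_mem (by simp), rs_mem (by simp), rs_mem (by simp)]

theorem wf_loc (s t x : V) (p q : Bool) (r : V → Bool) :
    wf s t x p q (rs {s, t, x} r) = wf s t x p q r := by
  unfold wf
  rw [rs_mem (by simp), rs_mem (by simp), rs_mem (by simp)]

theorem wn_loc (s t : V) (p q : Bool) (r : V → Bool) :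
    wn s t p q (rs {s, t} r) = wn s t p q r := by
  unfold wn
  rw [rs_mem (by simp), rs_mem (by simp)]

/-- the sum over `q` is determined by the `{s, x}`-marginal -/
theorem sumF {s t x : V} {T T' : Tab V} (h : Eqm {s, x} T T') (p : Bool) :
    wt (wf s t x p false) T + wt (wf s t x p true) T =
      wt (wf s t x p false) T' + wt (wf s t x p true) T' := by
  have h1 : ∀ T : Tab V, wt (wf s t x p false) T + wt (wf s t x p true) T =
      wt (fun r => iv p (r s) * iv true (r x)) T := by
    intro T
    rw [← wt_wadd]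
    apply wt_congr
    intro r _
    unfold wf
    generalize r s = a; generalize r t = b; generalize r x = c
    revert a b c p
    decide
  rw [h1, h1]
  apply wt_loc (K := {s, x}) _ h
  intro r
  show iv p (rs {s, x} r s) * iv true (rs {s, x} r x) = _
  rw [rs_mem (by simp), rs_mem (by simp)]

/-- the `{x, y}`-marginal from the marginals for `x`, `y` and the number of cells `(1, 1)` -/
theorem eqm_xy {x y : V} {T T' : Tab V} (hx : Eqm {x} T T') (hy : Eqm {y} T T')
    (h : wt (wh x y) T = wt (wh x y) T') : Eqm {x, y} T T' := by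
  classical
  apply eqm_of_wt
  intro u
  have h1 : ∀ T : Tab V, wt (fun r => if rs {x, y} r = rs {x, y} u then (1 : ℤ) else 0) T =
      wt (fun r => iv (u x) (r x) * iv (u y) (r y)) T := by
    intro T
    apply wt_congr
    intro r _
    have h2 : (rs {x, y} r = rs {x, y} u) ↔ (r x = u x ∧ r y = u y) := by
      rw [rs_ind]
      simp
    unfold iv
    by_cases h5 : r x = u x <;> by_cases h6 : r y = u y <;> simp [h2, h5, h6]
  rw [h1, h1]
  have e1 : wt (fun r => iv true (r x)) T = wt (fun r => iv true (r x)) T' := by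
    apply wt_loc (K := {x}) _ hx
    intro r
    show iv true (rs {x} r x) = _
    rw [rs_mem (by simp)]
  have e2 : wt (fun r => iv true (r y)) T = wt (fun r => iv true (r y)) T' := by
    apply wt_loc (K := {y}) _ hy
    intro r
    show iv true (rs {y} r y) = _
    rw [rs_mem (by simp)]
  have e3 : wt (fun _ => (1 : ℤ)) T = wt (fun _ => (1 : ℤ)) T' := by
    apply wt_loc (K := {y}) _ hy
    intro r
    rfl
  have f1 : ∀ T : Tab V, wt (wh x y) T = wt (fun r => iv true (r x) * iv true (r y)) T :=
    fun T => rfl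
  have f2 : ∀ T : Tab V, wt (fun r => iv true (r x)) T =
      wt (fun r => iv true (r x) * iv true (r y)) T +
        wt (fun r => iv true (r x) * iv false (r y)) T := by
    intro T
    rw [← wt_wadd]
    apply wt_congr
    intro r _
    generalize r x = c; generalize r y = d
    revert c d
    decide
  have f3 : ∀ T : Tab V, wt (fun r => iv true (r y)) T =
      wt (fun r => iv true (r x) * iv true (r y)) T +
        wt (fun r => iv false (r x) * iv true (r y)) T := by
    intro T
    rw [← wt_wadd]
    apply wt_congr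
    intro r _
    generalize r x = c; generalize r y = d
    revert c d
    decide
  have f4 : ∀ T : Tab V, wt (fun _ => (1 : ℤ)) T =
      wt (fun r => iv true (r x) * iv true (r y)) T +
        wt (fun r => iv true (r x) * iv false (r y)) T +
        wt (fun r => iv false (r x) * iv true (r y)) T +
        wt (fun r => iv false (r x) * iv false (r y)) T := by
    intro T
    rw [← wt_wadd, ← wt_wadd, ← wt_wadd]
    apply wt_congr
    intro r _
    generalize r x = c; generalize r y = d
    revert c d
    decide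
  rw [f1, f1] at h
  rw [f2 T, f2 T'] at e1
  rw [f3 T, f3 T'] at e2
  rw [f4 T, f4 T'] at e3
  generalize u x = a
  generalize u y = b
  cases a <;> cases b <;> omega

/-! ### Composition and exchange -/

theorem Mv_comp {Γ Γ' Δ : Set (Finset V)} {k k' : ℕ} {T1 T2 T3 : Tab V} (h : Mv Γ k T1 T2)
    (h' : Mv Γ' k' T2 T3) (hΔ : Fb Δ T1 T3) : Mv Δ (k + k') T1 T3 := by
  classical
  obtain ⟨C, A, B, rfl, h2, h3, h4⟩ := h
  obtain ⟨C', A', B', h2', rfl, h3', h4'⟩ := h'
  have e1 : (C - C') + C ∩ C' = C := Multiset.sub_add_inter C C'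
  have e2 : (C' - C) + C ∩ C' = C' := by
    rw [Multiset.inter_comm]
    exact Multiset.sub_add_inter C' C
  have g1 : C + A = C ∩ C' + ((C - C') + A) := by
    rw [← add_assoc, add_comm (C ∩ C'), e1]
  have g2 : C' + B' = C ∩ C' + ((C' - C) + B') := by
    rw [← add_assoc, add_comm (C ∩ C'), e2]
  refine ⟨C ∩ C', (C - C') + A, (C' - C) + B', g1, g2, ?_, ?_⟩
  · have h5 : C - C' ≤ A' := by
      rw [Multiset.sub_le_iff_le_add']
      rw [← h2', h2]
      exact Multiset.le_add_right _ _
    have h6 := Multiset.card_le_card h5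
    rw [Multiset.card_add]
    omega
  · rw [g1, g2] at hΔ
    exact hΔ.cancel

section
variable {G1 G2 : Set (Finset V)} {U W : Finset V} {s t x y : V}

theorem Cr_swap (h : Cr G1 G2 U W s t x y) : Cr G2 G1 W U t s y x where
  on1 := h.on2
  on2 := h.on1
  free1 := h.free2
  free2 := h.free1
  inter := by rw [Finset.inter_comm, h.inter, Finset.pair_comm]
  st := h.st.symm
  xs := h.yt
  xt := h.ys
  ys := h.xt
  yt := h.xs
  xU := h.yW
  yW := h.xU
  e1 := h.e2
  e2 := h.e1
  t1 := h.s2
  x1 := h.y2
  s2 := h.t1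
  y2 := h.x1

theorem Cr_sU (h : Cr G1 G2 U W s t x y) : s ∈ U := by
  have : s ∈ U ∩ W := by rw [h.inter]; simp
  exact (Finset.mem_inter.1 this).1

theorem Cr_tU (h : Cr G1 G2 U W s t x y) : t ∈ U := by
  have : t ∈ U ∩ W := by rw [h.inter]; simp
  exact (Finset.mem_inter.1 this).1

theorem Cr_yU (h : Cr G1 G2 U W s t x y) : y ∉ U := by
  intro hy
  have : y ∈ U ∩ W := Finset.mem_inter.2 ⟨hy, h.yW⟩
  rw [h.inter] at this
  simp [h.ys, h.yt] at this

theorem Cr_xy (h : Cr G1 G2 U W s t x y) : x ≠ y := by
  intro hxy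
  exact Cr_yU h (hxy ▸ h.xU)

theorem fb_swap (h : Cr G1 G2 U W s t x y) {r r' : V → Bool} (hs : r s = r' s)
    (ht : r t = r' t) : Fb (cone s G1 ∪ cone t G2) (({r} : Tab V) + {r'})
      ({gl U r r'} + {gl U r' r}) := by
  have h1 : rs (U ∩ W) r = rs (U ∩ W) r' := by
    rw [h.inter, rs_eq_iff]
    intro v hv
    rcases Finset.mem_insert.1 hv with rfl | hv
    · exact hs
    · rw [Finset.mem_singleton.1 hv]; exact ht
  rw [fb_union]
  constructor
  · intro F hF
    apply Eqm.mono (h.on1 F hF)
    unfold Eqm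
    simp only [Multiset.map_add, Multiset.map_singleton, rs_gl_left]
  · intro F hF
    apply Eqm.mono (h.on2 F hF)
    unfold Eqm
    simp only [Multiset.map_add, Multiset.map_singleton, rs_gl_right U W r r' h1,
      rs_gl_right U W r' r h1.symm]
    exact add_comm _ _

theorem gl_vals (h : Cr G1 G2 U W s t x y) (r r' : V → Bool) :
    gl U r r' s = r s ∧ gl U r r' t = r t ∧ gl U r r' x = r x ∧ gl U r r' y = r' y :=
  ⟨gl_mem (Cr_sU h) _ _, gl_mem (Cr_tU h) _ _, gl_mem h.xU _ _, gl_notMem (Cr_yU h) _ _⟩

omit [DecidableEq V] in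
theorem exists_sub {T L : Tab V} (hL : L.Nodup) (h : ∀ r ∈ L, r ∈ T) : ∃ C, T = C + L := by
  have h1 : L ≤ T := (Multiset.le_iff_subset hL).2 h
  obtain ⟨C, hC⟩ := exists_add_of_le h1
  exact ⟨C, by rw [hC, add_comm]⟩

/-- the `Om`-moves are moves of the complex -/
theorem om_mono {T T' : Tab V}
    (hT : Cn (Om G1 G2 s t x y) 4 T T') : Cn (ad (cone s G1 ∪ cone t G2) x y) 4 T T' := by
  refine Cn.mono ?_ le_rfl hT
  intro F hF
  rcases Set.mem_insert_iff.1 hF with rfl | hF
  · refine ⟨{s, t, x, y}, Or.inl (Or.inr (Finset.Subset.refl _)), ?_⟩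
    intro v hv
    simp only [Finset.mem_insert, Finset.mem_singleton] at hv ⊢
    tauto
  · rcases hF with hF | hF
    · exact ⟨F, Or.inl (Or.inl (Set.mem_insert_of_mem _ hF)), Finset.Subset.refl _⟩
    · exact ⟨F, Or.inr (Set.mem_insert_of_mem _ hF), Finset.Subset.refl _⟩

/-- (1) equal parameters -/
theorem same_par (h : Cr G1 G2 U W s t x y) (hOm : Dg (Om G1 G2 s t x y)) {T T' : Tab V}
    (hf : Fb (ad (cone s G1 ∪ cone t G2) x y) T T')
    (hN : ∀ p q a b, wt (w4 s t x y p q a b) T = wt (w4 s t x y p q a b) T') :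
    Cn (ad (cone s G1 ∪ cone t G2) x y) 4 T T' := by
  apply om_mono
  apply hOm
  have hM := eqm_M hN
  rw [fb_ad, fb_union] at hf
  obtain ⟨h1, h2, h3⟩ := hf
  intro F hF
  rcases hF with (hF | hF) | hF
  · rcases Set.mem_insert_iff.1 hF with hF | hF
    · apply hM.mono
      intro v hv
      by_cases hvs : v = s
      · simp [hvs]
      · have : v ∈ F.erase s := Finset.mem_erase.2 ⟨hvs, hv⟩
        rw [hF] at this
        simp only [Finset.mem_insert, Finset.mem_singleton] at this ⊢
        tauto
    · exact h2 F hF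
  · exact hM.mono hF
  · rcases Set.mem_insert_iff.1 hF with hF | hF
    · apply hM.mono
      intro v hv
      by_cases hvt : v = t
      · simp [hvt]
      · have : v ∈ F.erase t := Finset.mem_erase.2 ⟨hvt, hv⟩
        rw [hF] at this
        simp only [Finset.mem_insert, Finset.mem_singleton] at this ⊢
        tauto
    · exact h3 F hF

/-- distance of two functions on the states -/
def m4 (f g : Bool → Bool → ℤ) : ℕ :=
  (f false false - g false false).natAbs + (f false true - g false true).natAbs +
    (f true false - g true false).natAbs + (f true true - g true true).natAbs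

omit [DecidableEq V] in
theorem wf_vals {r r' : V → Bool} {a b : Bool} (h1 : r s = r' s) (h2 : r t = r' t)
    (h3 : r x = r' x) : wf s t x a b r = wf s t x a b r' := by
  unfold wf
  rw [h1, h2, h3]

omit [DecidableEq V] in
theorem w4_vals {r : V → Bool} {p q c d a b : Bool} (h1 : r s = p) (h2 : r t = q)
    (h3 : r x = c) (h4 : r y = d) :
    w4 s t x y a b true true r = iv a p * iv b q * (iv true c * iv true d) := by
  unfold w4
  rw [h1, h2, h3, h4]

/-- the marginals used for the parameters -/
theorem fb_par (h : Cr G1 G2 U W s t x y) {T T' : Tab V}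
    (hf : Fb (cone s G1 ∪ cone t G2) T T') :
    (∀ p q, wt (wn s t p q) T = wt (wn s t p q) T') ∧ Eqm {s, x} T T' ∧ Eqm {t, y} T T' ∧
      Eqm {x} T T' ∧ Eqm {y} T T' := by
  rw [fb_union] at hf
  obtain ⟨h2, h3⟩ := hf
  have hst : Eqm {s, t} T T' := by
    apply h2
    show ({s, t} : Finset V).erase s ∈ G1
    rw [Finset.erase_insert (by simpa using h.st)]
    exact h.t1
  refine ⟨fun p q => wt_loc (wn_loc s t p q) hst, ?_, ?_, ?_, ?_⟩
  · apply h2
    show ({s, x} : Finset V).erase s ∈ G1
    rw [Finset.erase_insert (by simpa using h.xs.symm)]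
    exact h.x1
  · apply h3
    show ({t, y} : Finset V).erase t ∈ G2
    rw [Finset.erase_insert (by simpa using h.yt.symm)]
    exact h.y2
  · apply h2
    show ({x} : Finset V).erase s ∈ G1
    rw [Finset.erase_eq_of_notMem (by simpa using h.xs.symm)]
    exact h.x1
  · apply h3
    show ({y} : Finset V).erase t ∈ G2
    rw [Finset.erase_eq_of_notMem (by simpa using h.yt.symm)]
    exact h.y2

/-- (2) equal `F`, `G` -/
theorem caseC (h : Cr G1 G2 U W s t x y) (hOm : Dg (Om G1 G2 s t x y)) (n : ℕ) :
    ∀ T T' : Tab V, Fb (ad (cone s G1 ∪ cone t G2) x y) T T' →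
    (∀ p q, wt (wf s t x p q) T = wt (wf s t x p q) T') →
    (∀ p q, wt (wf s t y p q) T = wt (wf s t y p q) T') →
    m4 (fun p q => wt (w4 s t x y p q true true) T)
      (fun p q => wt (w4 s t x y p q true true) T') ≤ n →
    Cn (ad (cone s G1 ∪ cone t G2) x y) 4 T T' := by
  induction n with
  | zero =>
    intro T T' hf hF hG hm
    apply same_par h hOm hf
    have hn := (fb_par h (fb_ad.1 hf).2).1
    intro p q a b
    have h1 : wt (w4 s t x y p q true true) T = wt (w4 s t x y p q true true) T' := by
      simp only [m4] at hm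
      cases p <;> cases q <;> omega
    have h2 := hF p q
    have h3 := hG p q
    have h4 := hn p q
    rw [wf_x s t x y, wf_x s t x y] at h2
    rw [wf_y s t x y, wf_y s t x y] at h3
    rw [wn_eq s t x y, wn_eq s t x y] at h4
    cases a <;> cases b <;> omega
  | succ n ih =>
    intro T T' hf hF hG hm
    by_cases hall : ∀ p q, wt (w4 s t x y p q true true) T = wt (w4 s t x y p q true true) T'
    · apply ih T T' hf hF hG
      simp only [m4, hall, sub_self, Int.natAbs_zero]
      omega
    · push Not at hall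
      have hpar := fb_par h (fb_ad.1 hf).2
      have hn := hpar.1
      have hsum : sm (fun p q => wt (w4 s t x y p q true true) T) =
          sm (fun p q => wt (w4 s t x y p q true true) T') := by
        rw [← wh_eq, ← wh_eq]
        exact wt_loc (wh_loc x y) (fb_ad.1 hf).1
      simp only [sm] at hsum
      have hex1 : ∃ p q, wt (w4 s t x y p q true true) T' < wt (w4 s t x y p q true true) T := by
        by_contra hcon
        push Not at hcon
        obtain ⟨p, q, hpq⟩ := hall
        have a1 := hcon false false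
        have a2 := hcon false true
        have a3 := hcon true false
        have a4 := hcon true true
        cases p <;> cases q <;> omega
      have hex2 : ∃ p q, wt (w4 s t x y p q true true) T < wt (w4 s t x y p q true true) T' := by
        by_contra hcon
        push Not at hcon
        obtain ⟨p, q, hpq⟩ := hall
        have a1 := hcon false false
        have a2 := hcon false true
        have a3 := hcon true false
        have a4 := hcon true true
        cases p <;> cases q <;> omega
      obtain ⟨p, q, hpq⟩ := hex1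
      obtain ⟨p', q', hpq'⟩ := hex2
      have k1 : 0 < wt (w4 s t x y p q true true) T :=
        lt_of_le_of_lt (w4_wt_nonneg s t x y p q true true T') hpq
      have k2 : 0 < wt (w4 s t x y p q false false) T := by
        have h2 := hF p q
        have h3 := hG p q
        have h4 := hn p q
        rw [wf_x s t x y, wf_x s t x y] at h2
        rw [wf_y s t x y, wf_y s t x y] at h3
        rw [wn_eq s t x y, wn_eq s t x y] at h4
        have h5 := w4_wt_nonneg s t x y p q false false T'
        omega
      have k3 : 0 < wt (w4 s t x y p' q' true false) T := by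
        have h2 := hF p' q'
        rw [wf_x s t x y, wf_x s t x y] at h2
        have h5 := w4_wt_nonneg s t x y p' q' true false T'
        omega
      have k4 : 0 < wt (w4 s t x y p' q' false true) T := by
        have h2 := hG p' q'
        rw [wf_y s t x y, wf_y s t x y] at h2
        have h5 := w4_wt_nonneg s t x y p' q' false true T'
        omega
      obtain ⟨r1, hr1, s1, t1, x1, y1⟩ := exists_cell k1
      obtain ⟨r2, hr2, s2, t2, x2, y2⟩ := exists_cell k2
      obtain ⟨r3, hr3, s3, t3, x3, y3⟩ := exists_cell k3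
      obtain ⟨r4, hr4, s4, t4, x4, y4⟩ := exists_cell k4
      have n12 : r1 ≠ r2 := by rintro rfl; rw [x1] at x2; cases x2
      have n13 : r1 ≠ r3 := by rintro rfl; rw [y1] at y3; cases y3
      have n14 : r1 ≠ r4 := by rintro rfl; rw [x1] at x4; cases x4
      have n23 : r2 ≠ r3 := by rintro rfl; rw [x2] at x3; cases x3
      have n24 : r2 ≠ r4 := by rintro rfl; rw [y2] at y4; cases y4
      have n34 : r3 ≠ r4 := by rintro rfl; rw [x3] at x4; cases x4
      have hL : (({r1} : Tab V) + {r2} + ({r3} + {r4})) = r1 ::ₘ r2 ::ₘ r3 ::ₘ {r4} := by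
        rw [add_assoc, Multiset.singleton_add, Multiset.singleton_add, Multiset.singleton_add]
      obtain ⟨C, hC⟩ := exists_sub (T := T) (L := {r1} + {r2} + ({r3} + {r4})) (by
        rw [hL]
        simp only [Multiset.nodup_cons, Multiset.mem_cons, Multiset.mem_singleton,
          Multiset.nodup_singleton, n12, n13, n14, n23, n24, n34, or_self, not_false_eq_true,
          and_self]) (by
        intro r hr
        simp only [Multiset.mem_add, Multiset.mem_singleton] at hr
        rcases hr with (rfl | rfl) | (rfl | rfl)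
        · exact hr1
        · exact hr2
        · exact hr3
        · exact hr4)
      obtain ⟨a1, a2, a3, a4⟩ := gl_vals h r1 r2
      obtain ⟨b1, b2, b3, b4⟩ := gl_vals h r2 r1
      obtain ⟨c1, c2, c3, c4⟩ := gl_vals h r3 r4
      obtain ⟨d1, d2, d3, d4⟩ := gl_vals h r4 r3
      set T3 : Tab V := C + (({gl U r1 r2} + {gl U r2 r1}) + ({gl U r3 r4} + {gl U r4 r3})) with hT3
      have hfb0 : Fb (cone s G1 ∪ cone t G2) (({r1} : Tab V) + {r2} + ({r3} + {r4}))
          (({gl U r1 r2} + {gl U r2 r1}) + ({gl U r3 r4} + {gl U r4 r3})) :=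
        (fb_swap h (s1.trans s2.symm) (t1.trans t2.symm)).add
          (fb_swap h (s3.trans s4.symm) (t3.trans t4.symm))
      have hxy0 : Eqm {x, y} (({r1} : Tab V) + {r2} + ({r3} + {r4}))
          (({gl U r1 r2} + {gl U r2 r1}) + ({gl U r3 r4} + {gl U r4 r3})) := by
        have e1 : rs {x, y} (gl U r1 r2) = rs {x, y} r3 := by
          rw [rs_eq_iff]
          intro v hv
          simp only [Finset.mem_insert, Finset.mem_singleton] at hv
          rcases hv with rfl | rfl
          · rw [a3, x1, x3]
          · rw [a4, y2, y3]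
        have e2 : rs {x, y} (gl U r2 r1) = rs {x, y} r4 := by
          rw [rs_eq_iff]
          intro v hv
          simp only [Finset.mem_insert, Finset.mem_singleton] at hv
          rcases hv with rfl | rfl
          · rw [b3, x2, x4]
          · rw [b4, y1, y4]
        have e3 : rs {x, y} (gl U r3 r4) = rs {x, y} r1 := by
          rw [rs_eq_iff]
          intro v hv
          simp only [Finset.mem_insert, Finset.mem_singleton] at hv
          rcases hv with rfl | rfl
          · rw [c3, x1, x3]
          · rw [c4, y1, y4]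
        have e4 : rs {x, y} (gl U r4 r3) = rs {x, y} r2 := by
          rw [rs_eq_iff]
          intro v hv
          simp only [Finset.mem_insert, Finset.mem_singleton] at hv
          rcases hv with rfl | rfl
          · rw [d3, x2, x4]
          · rw [d4, y2, y3]
        unfold Eqm
        simp only [Multiset.map_add, Multiset.map_singleton, e1, e2, e3, e4]
        exact add_comm _ _
      have hmv : Mv (ad (cone s G1 ∪ cone t G2) x y) 4 T T3 :=
        ⟨C, _, _, hC, hT3, by simp, fb_ad.2 ⟨hxy0, hfb0⟩⟩
      have hwt : ∀ w : (V → Bool) → ℤ, wt w T3 = wt w T - (w r1 + w r2 + (w r3 + w r4)) +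
          (w (gl U r1 r2) + w (gl U r2 r1) + (w (gl U r3 r4) + w (gl U r4 r3))) := by
        intro w
        rw [hC, hT3]
        simp only [wt_add, wt_sing]
        ring
      refine hmv.cn.trans (ih T3 T' (hmv.fb.symm.trans hf) ?_ ?_ ?_)
      · intro a b
        rw [hwt, ← hF a b, wf_vals (r' := r1) a1 a2 a3, wf_vals (r' := r2) b1 b2 b3,
          wf_vals (r' := r3) c1 c2 c3, wf_vals (r' := r4) d1 d2 d3]
        ring
      · intro a b
        rw [hwt, ← hG a b,
          wf_vals (s := s) (t := t) (x := y) (r' := r2) (a1.trans (s1.trans s2.symm))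
            (a2.trans (t1.trans t2.symm)) a4,
          wf_vals (s := s) (t := t) (x := y) (r' := r1) (b1.trans (s2.trans s1.symm))
            (b2.trans (t2.trans t1.symm)) b4,
          wf_vals (s := s) (t := t) (x := y) (r' := r4) (c1.trans (s3.trans s4.symm))
            (c2.trans (t3.trans t4.symm)) c4,
          wf_vals (s := s) (t := t) (x := y) (r' := r3) (d1.trans (s4.trans s3.symm))
            (d2.trans (t4.trans t3.symm)) d4]
        ring
      · have hc3 : ∀ a b, wt (w4 s t x y a b true true) T3 =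
            wt (w4 s t x y a b true true) T - iv a p * iv b q + iv a p' * iv b q' := by
          intro a b
          rw [hwt, w4_vals s1 t1 x1 y1, w4_vals s2 t2 x2 y2, w4_vals s3 t3 x3 y3,
            w4_vals s4 t4 x4 y4, w4_vals (a1.trans s1) (a2.trans t1) (a3.trans x1) (a4.trans y2),
            w4_vals (b1.trans s2) (b2.trans t2) (b3.trans x2) (b4.trans y1),
            w4_vals (c1.trans s3) (c2.trans t3) (c3.trans x3) (c4.trans y4),
            w4_vals (d1.trans s4) (d2.trans t4) (d3.trans x4) (d4.trans y3)]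
          have e1 : iv true true = 1 := rfl
          have e2 : iv true false = 0 := rfl
          rw [e1, e2]
          ring
        simp only [m4] at hm ⊢
        simp only [hc3]
        have e1 : iv true true = 1 := rfl
        have e2 : iv true false = 0 := rfl
        have e3 : iv false true = 0 := rfl
        have e4 : iv false false = 1 := rfl
        cases p <;> cases q <;> cases p' <;> cases q' <;>
          simp only [e1, e2, e3, e4] <;> omega

/-! ### Cells of the slices -/

omit [DecidableEq V] in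
theorem countP_eq_wt (P : (V → Bool) → Prop) [DecidablePred P] (T : Tab V) :
    ((T.countP P : ℕ) : ℤ) = wt (fun r => if P r then 1 else 0) T := by
  induction T using Multiset.induction_on with
  | empty => simp [wt]
  | cons a T ih =>
    have h2 : wt (fun r => if P r then (1 : ℤ) else 0) (a ::ₘ T) =
        (if P a then 1 else 0) + wt (fun r => if P r then 1 else 0) T := by
      simp [wt]
    rw [h2, ← ih, Multiset.countP_cons]
    by_cases h : P a
    · simp only [h, if_true]
      push_cast
      ring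
    · simp only [h, if_false]
      push_cast
      ring

omit [DecidableEq V] in
theorem ht_slice (s t x : V) (p : Bool) (T : Tab V) :
    ((ht x t (T.filter fun r => r s = p) : ℕ) : ℤ) = wt (wf s t x p true) T := by
  unfold ht
  rw [Multiset.countP_filter, countP_eq_wt]
  apply wt_congr
  intro r _
  unfold wf iv
  by_cases h1 : r x = true <;> by_cases h2 : r t = true <;> by_cases h3 : r s = p <;>
    simp [h1, h2, h3]

theorem sliceU (hU : StmtUnit) (hS : StmtSlice) (h : Cr G1 G2 U W s t x y) (hPP : PP G1 x t)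
    (hDg : Dg (ad G1 x t)) {T T' : Tab V} (hfb : Fb (cone s G1) T T') (d : Bool → ℤ)
    (hd : ∀ p, d p = 0 ∨ (d p = 1 ∧ wt (wf s t x p true) T < wt (wf s t x p true) T') ∨
      (d p = -1 ∧ wt (wf s t x p true) T' < wt (wf s t x p true) T)) :
    ∃ (C : Tab V) (A B : Bool → Tab V), Cn (cone s (ad G1 x t)) 4 T (C + (A false + A true)) ∧
      ∀ p, Fb (cone s G1) (A p) (B p) ∧ (d p = 0 → A p = 0 ∧ B p = 0) ∧
        (d p ≠ 0 → Eqm {s, t, x} (A p) ({cl s t x x p (!decide (d p = 1)) true true} +
            {cl s t x x p (decide (d p = 1)) false false}) ∧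
          Eqm {s, t, x} (B p) ({cl s t x x p (decide (d p = 1)) true true} +
            {cl s t x x p (!decide (d p = 1)) false false})) := by
  obtain ⟨qu, qd⟩ := hU V G1 x t h.xt h.e1 h.x1 h.t1 hPP hDg
  obtain ⟨C, A, B, hC, hAB⟩ := hS V G1 s t x h.free1 h.st h.xs h.xt h.e1 qu qd T T' hfb
    (fun p => d p ≠ 0) (fun p => decide (d p = 1)) (by
      intro p hp hup
      have h1 : d p = 1 := of_decide_eq_true hup
      rcases hd p with h2 | h2 | h2
      · exact absurd h2 hp
      · have := h2.2
        rw [← ht_slice, ← ht_slice] at this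
        exact_mod_cast this
      · rw [h1] at h2
        exact absurd h2.1 (by norm_num)) (by
      intro p hp hup
      have h1 : d p ≠ 1 := of_decide_eq_false hup
      rcases hd p with h2 | h2 | h2
      · exact absurd h2 hp
      · exact absurd h2.1 h1
      · have := h2.2
        rw [← ht_slice, ← ht_slice] at this
        exact_mod_cast this)
  refine ⟨C, A, B, hC, fun p => ⟨(hAB p).1, fun h0 => (hAB p).2.1 (fun hn => hn h0), ?_⟩⟩
  intro hp
  rcases hd p with h2 | h2 | h2
  · exact absurd h2 hp
  · have h3 := (hAB p).2.2.1 hp (by simp [h2.1])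
    have e : decide (d p = 1) = true := by simp [h2.1]
    rw [e]
    exact h3
  · have h3 := (hAB p).2.2.2 hp (by simp [h2.1])
    have e : decide (d p = 1) = false := by simp [h2.1]
    rw [e]
    refine ⟨h3.2, ?_⟩
    have h4 := h3.1
    rw [Multiset.insert_eq_cons, ← Multiset.singleton_add, add_comm] at h4
    rw [add_comm]
    exact h4

theorem pair_split {K : Finset V} {α : Tab V} {c1 c2 : V → Bool} (h : Eqm K α ({c1} + {c2})) :
    ∃ r1 r2, α = {r1} + {r2} ∧ rs K r1 = rs K c1 ∧ rs K r2 = rs K c2 := by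
  have h1 : α.map (rs K) = {rs K c1} + {rs K c2} := by
    have h2 : α.map (rs K) = (({c1} : Tab V) + {c2}).map (rs K) := h
    rw [h2, Multiset.map_add, Multiset.map_singleton, Multiset.map_singleton]
  obtain ⟨T1, T2, h2, h3, h4⟩ := exists_split _ _ _ _ h1
  obtain ⟨r1, h5, h6⟩ := Multiset.map_eq_singleton.1 h3
  obtain ⟨r2, h7, h8⟩ := Multiset.map_eq_singleton.1 h4
  exact ⟨r1, r2, by rw [h2, h5, h7], h6, h8⟩

theorem cl_s (s t x y : V) (p q a b : Bool) : cl s t x y p q a b s = p := by
  unfold cl; rw [if_pos rfl]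

theorem cl_t {s t : V} (h : s ≠ t) (x y : V) (p q a b : Bool) : cl s t x y p q a b t = q := by
  unfold cl; rw [if_neg h.symm, if_pos rfl]

theorem cl_x {s t x : V} (hs : x ≠ s) (ht : x ≠ t) (y : V) (p q a b : Bool) :
    cl s t x y p q a b x = a := by
  unfold cl; rw [if_neg hs, if_neg ht, if_pos rfl]

/-- cells with the same values at `s, t, x` -/
theorem rs3 {s t x : V} {r r' : V → Bool} (h1 : r s = r' s) (h2 : r t = r' t)
    (h3 : r x = r' x) : rs {s, t, x} r = rs {s, t, x} r' := by
  rw [rs_eq_iff]
  intro v hv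
  simp only [Finset.mem_insert, Finset.mem_singleton] at hv
  rcases hv with rfl | rfl | rfl
  · exact h1
  · exact h2
  · exact h3

theorem rs3' {s t x : V} {r r' : V → Bool} (h : rs {s, t, x} r = rs {s, t, x} r') :
    r s = r' s ∧ r t = r' t ∧ r x = r' x := by
  rw [rs_eq_iff] at h
  exact ⟨h s (by simp), h t (by simp), h x (by simp)⟩

/-- The cells of a table which are changed by the unit steps of the slices. -/
theorem cellsU (hU : StmtUnit) (hS : StmtSlice) (h : Cr G1 G2 U W s t x y) (hPP : PP G1 x t)
    (hDg : Dg (ad G1 x t)) {T T' : Tab V} (hfb : Fb (cone s G1) T T') (d : Bool → ℤ)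
    (hd : ∀ p, d p = 0 ∨ (d p = 1 ∧ wt (wf s t x p true) T < wt (wf s t x p true) T') ∨
      (d p = -1 ∧ wt (wf s t x p true) T' < wt (wf s t x p true) T))
    (fl : (V → Bool) → (V → Bool)) (hfl : ∀ r, fl r s = r s ∧ fl r t = r t ∧ fl r x = !r x) :
    ∃ (C : Tab V) (A B α : Bool → Tab V) (w0 : Tab V),
      Cn (cone s (ad G1 x t)) 4 T (C + (A false + A true)) ∧ T = w0 + (α false + α true) ∧
      ∀ p, Fb (cone s G1) (A p) (B p) ∧ Eqm {s, t, x} (A p) (α p) ∧
        Eqm {s, t, x} (B p) ((α p).map fl) ∧ (d p = 0 → α p = 0) ∧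
        (d p ≠ 0 → ∃ r1 r2, α p = {r1} + {r2} ∧
          (r1 s = p ∧ r1 t = !decide (d p = 1) ∧ r1 x = true) ∧
          (r2 s = p ∧ r2 t = decide (d p = 1) ∧ r2 x = false)) := by
  obtain ⟨C, A, B, hC, hAB⟩ := sliceU hU hS h hPP hDg hfb d hd
  have hK : Eqm {s, t, x} T (C + (A false + A true)) := by
    apply hC.fb
    have e : ({s, t, x} : Finset V).erase s = {x, t} := by
      rw [Finset.erase_insert (by simp [h.st, h.xs.symm]), Finset.pair_comm]
    show ({s, t, x} : Finset V).erase s ∈ ad G1 x t
    rw [e]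
    exact Set.mem_insert _ _
  have h1 : T.map (rs {s, t, x}) = C.map (rs {s, t, x}) + (A false + A true).map (rs {s, t, x}) := by
    rw [← Multiset.map_add]
    exact hK
  obtain ⟨w0, α', hT, -, h2⟩ := exists_split _ _ _ _ h1
  rw [Multiset.map_add] at h2
  obtain ⟨α0, α1, h3, h4, h5⟩ := exists_split _ _ _ _ h2
  have hα : ∀ p, Eqm {s, t, x} ((fun p => bif p then α1 else α0) p) (A p) := by
    intro p
    cases p
    · exact h4
    · exact h5
  refine ⟨C, A, B, fun p => bif p then α1 else α0, w0, hC, ?_, fun p => ?_⟩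
  · rw [hT, h3]
    rfl
  · generalize (fun p => bif p then α1 else α0) = α at *
    have hp0 : d p = 0 → α p = 0 := by
      intro h0
      have h6 := (hα p).card
      rw [((hAB p).2.1 h0).1, Multiset.card_zero, Multiset.card_eq_zero] at h6
      exact h6
    have hp1 : d p ≠ 0 → ∃ r1 r2, α p = {r1} + {r2} ∧
          (r1 s = p ∧ r1 t = !decide (d p = 1) ∧ r1 x = true) ∧
          (r2 s = p ∧ r2 t = decide (d p = 1) ∧ r2 x = false) := by
      intro hne
      obtain ⟨r1, r2, h6, h7, h8⟩ := pair_split ((hα p).trans ((hAB p).2.2 hne).1)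
      obtain ⟨a1, a2, a3⟩ := rs3' h7
      obtain ⟨b1, b2, b3⟩ := rs3' h8
      rw [cl_s] at a1 b1
      rw [cl_t h.st] at a2 b2
      rw [cl_x h.xs h.xt] at a3 b3
      exact ⟨r1, r2, h6, ⟨a1, a2, a3⟩, ⟨b1, b2, b3⟩⟩
    refine ⟨(hAB p).1, (hα p).symm, ?_, hp0, hp1⟩
    by_cases h0 : d p = 0
    · rw [hp0 h0, ((hAB p).2.1 h0).2]
      rfl
    · obtain ⟨r1, r2, h6, ⟨a1, a2, a3⟩, ⟨b1, b2, b3⟩⟩ := hp1 h0
      refine ((hAB p).2.2 h0).2.trans ?_
      unfold Eqm
      rw [h6]
      simp only [Multiset.map_add, Multiset.map_singleton]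
      have e1 : rs {s, t, x} (fl r1) =
          rs {s, t, x} (cl s t x x p (!decide (d p = 1)) false false) := by
        apply rs3
        · rw [(hfl r1).1, a1, cl_s]
        · rw [(hfl r1).2.1, a2, cl_t h.st]
        · rw [(hfl r1).2.2, a3, cl_x h.xs h.xt]; rfl
      have e2 : rs {s, t, x} (fl r2) =
          rs {s, t, x} (cl s t x x p (decide (d p = 1)) true true) := by
        apply rs3
        · rw [(hfl r2).1, b1, cl_s]
        · rw [(hfl r2).2.1, b2, cl_t h.st]
        · rw [(hfl r2).2.2, b3, cl_x h.xs h.xt]; rfl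
      rw [e1, e2]
      exact add_comm _ _

theorem iv_dF (a b p : Bool) (d : Bool → ℤ) (hd : d p = 1 ∨ d p = -1) :
    iv a p * (iv b (decide (d p = 1)) - iv b (!decide (d p = 1))) = iv a p * dF d p b := by
  unfold dF
  rcases hd with h | h
  · have e : decide (d p = 1) = true := by simp [h]
    rw [e, h]
    cases a <;> cases p <;> cases b <;> decide
  · have e : decide (d p = 1) = false := by simp [h]
    rw [e, h]
    cases a <;> cases p <;> cases b <;> decide

theorem sum_iv_dF (a b : Bool) (d : Bool → ℤ) :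
    iv a false * dF d false b + iv a true * dF d true b = dF d a b := by
  have e1 : iv true true = 1 := rfl
  have e2 : iv true false = 0 := rfl
  have e3 : iv false true = 0 := rfl
  have e4 : iv false false = 1 := rfl
  cases a <;> simp only [e1, e2, e3, e4] <;> ring

omit [DecidableEq V] in
/-- the change of `F` by the cells of one slice -/
theorem chF {α : Tab V} {p : Bool} {d : Bool → ℤ} (hd : d p = 0 ∨ d p = 1 ∨ d p = -1)
    (fl : (V → Bool) → (V → Bool)) (hfl : ∀ r, fl r s = r s ∧ fl r t = r t ∧ fl r x = !r x)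
    (h0 : d p = 0 → α = 0) (h1 : d p ≠ 0 → ∃ r1 r2, α = {r1} + {r2} ∧
      (r1 s = p ∧ r1 t = !decide (d p = 1) ∧ r1 x = true) ∧
      (r2 s = p ∧ r2 t = decide (d p = 1) ∧ r2 x = false)) (a b : Bool) :
    wt (fun r => wf s t x a b (fl r) - wf s t x a b r) α = iv a p * dF d p b := by
  by_cases hp : d p = 0
  · rw [h0 hp, wt_nil]
    unfold dF
    rw [hp]
    simp
  · obtain ⟨r1, r2, h6, ⟨a1, a2, a3⟩, ⟨b1, b2, b3⟩⟩ := h1 hp
    rw [← iv_dF a b p d (hd.resolve_left hp), h6, wt_add, wt_sing, wt_sing]
    unfold wf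
    rw [(hfl r1).1, (hfl r1).2.1, (hfl r1).2.2, (hfl r2).1, (hfl r2).2.1, (hfl r2).2.2,
      a1, a2, a3, b1, b2, b3]
    have e1 : iv true true = 1 := rfl
    have e2 : iv true false = 0 := rfl
    simp only [Bool.not_true, Bool.not_false, e1, e2]
    ring

/-- the changes of weights in a realized step -/
theorem step_wt {T T1 T2 w0 α : Tab V} {fl : (V → Bool) → (V → Bool)} (hT : T = w0 + α)
    (h1 : Cn (Om G1 G2 s t x y) 4 T T1) (h2 : Eqm {s, t, x, y} T2 (w0 + α.map fl))
    {w : (V → Bool) → ℤ} (hw : ∀ r, w (rs {s, t, x, y} r) = w r) :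
    wt w T1 = wt w T ∧ wt w T2 = wt w T + wt (fun r => w (fl r) - w r) α := by
  constructor
  · have h3 : Eqm {s, t, x, y} T T1 := h1.fb _ (Or.inl (Or.inr (Finset.Subset.refl _)))
    exact (wt_loc hw h3).symm
  · rw [wt_loc hw h2, hT, wt_add, wt_add, wt_map]
    have : wt (fun r => w (fl r) - w r) α = wt (fun r => w (fl r)) α - wt w α := by
      have e := wt_wadd (fun r => w (fl r)) (fun r => - w r) α
      rw [wt_neg] at e
      have e' : wt (fun r => w (fl r) - w r) α = wt (fun r => w (fl r) + -w r) α :=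
        wt_congr fun r _ => by ring
      rw [e', e]
      ring
    rw [this]
    ring

theorem wf_loc4x (p q : Bool) (r : V → Bool) :
    wf s t x p q (rs {s, t, x, y} r) = wf s t x p q r := by
  unfold wf
  rw [rs_mem (by simp), rs_mem (by simp), rs_mem (by simp)]

theorem wf_loc4y (p q : Bool) (r : V → Bool) :
    wf s t y p q (rs {s, t, x, y} r) = wf s t y p q r := by
  unfold wf
  rw [rs_mem (by simp), rs_mem (by simp), rs_mem (by simp)]

theorem wn_loc4 (p q : Bool) (r : V → Bool) :
    wn s t p q (rs {s, t, x, y} r) = wn s t p q r := by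
  unfold wn
  rw [rs_mem (by simp), rs_mem (by simp)]

theorem wh_loc4 (r : V → Bool) : wh x y (rs {s, t, x, y} r) = wh x y r := by
  unfold wh
  rw [rs_mem (by simp), rs_mem (by simp)]

/-- a move which keeps the number of cells `(1, 1)` -/
theorem mv_h (h : Cr G1 G2 U W s t x y) {k : ℕ} {T1 T2 : Tab V}
    (hm : Mv (cone s G1 ∪ cone t G2) k T1 T2) (hH : wt (wh x y) T1 = wt (wh x y) T2) :
    Mv (ad (cone s G1 ∪ cone t G2) x y) k T1 T2 := by
  have hfb := hm.fb
  have hxy : Eqm {x, y} T1 T2 := eqm_xy (fb_par h hfb).2.2.2.1 (fb_par h hfb).2.2.2.2 hH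
  obtain ⟨C, A, B, h1, h2, h3, h4⟩ := hm
  refine ⟨C, A, B, h1, h2, h3, fb_ad.2 ⟨?_, h4⟩⟩
  rw [h1, h2] at hxy
  exact hxy.cancel

/-- exchange of the parts outside `U` of two cells of one state -/
theorem swap_cells (h : Cr G1 G2 U W s t x y) {T : Tab V} {u1 u2 : V → Bool} (h1 : u1 ∈ T)
    (h2 : u2 ∈ T) (hne : u1 ≠ u2) (hs : u1 s = u2 s) (ht : u1 t = u2 t) :
    ∃ T3, Mv (cone s G1 ∪ cone t G2) 2 T T3 ∧ ∀ w : (V → Bool) → ℤ,
      wt w T3 = wt w T - (w u1 + w u2) + (w (gl U u1 u2) + w (gl U u2 u1)) := by
  obtain ⟨C, hC⟩ := exists_sub (T := T) (L := {u1} + {u2}) (by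
    rw [Multiset.singleton_add]
    simp only [Multiset.nodup_cons, Multiset.mem_singleton, Multiset.nodup_singleton, hne,
      not_false_eq_true, and_self]) (by
    intro r hr
    simp only [Multiset.mem_add, Multiset.mem_singleton] at hr
    rcases hr with rfl | rfl
    · exact h1
    · exact h2)
  refine ⟨C + ({gl U u1 u2} + {gl U u2 u1}), ⟨C, _, _, hC, rfl, by simp, fb_swap h hs ht⟩, ?_⟩
  intro w
  rw [hC]
  simp only [wt_add, wt_sing]
  ring

/-- correction of the number of cells `(1, 1)` by an exchange -/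
theorem fixH (h : Cr G1 G2 U W s t x y) {T1 T2 : Tab V}
    (hm : Mv (cone s G1 ∪ cone t G2) 2 T1 T2)
    (hH : wt (wh x y) T2 = wt (wh x y) T1 ∨ wt (wh x y) T2 = wt (wh x y) T1 + 1 ∨
      wt (wh x y) T2 = wt (wh x y) T1 - 1)
    (hLo : sm (fun p q => max 0 (wt (wf s t x p q) T2 + wt (wf s t y p q) T2 -
      wt (wn s t p q) T2)) ≤ wt (wh x y) T1)
    (hHi : wt (wh x y) T1 ≤ sm (fun p q => min (wt (wf s t x p q) T2) (wt (wf s t y p q) T2))) :
    ∃ T3, Mv (ad (cone s G1 ∪ cone t G2) x y) 4 T1 T3 ∧
      (∀ p q, wt (wf s t x p q) T3 = wt (wf s t x p q) T2) ∧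
      (∀ p q, wt (wf s t y p q) T3 = wt (wf s t y p q) T2) := by
  -- the final step
  have fin : ∀ u1 u2 : V → Bool, u1 ∈ T2 → u2 ∈ T2 → u1 s = u2 s → u1 t = u2 t →
      u1 x = true → u2 x = false → u2 y = !u1 y →
      wt (wh x y) T2 + (iv true (u2 y) - iv true (u1 y)) = wt (wh x y) T1 →
      ∃ T3, Mv (ad (cone s G1 ∪ cone t G2) x y) 4 T1 T3 ∧
      (∀ p q, wt (wf s t x p q) T3 = wt (wf s t x p q) T2) ∧
      (∀ p q, wt (wf s t y p q) T3 = wt (wf s t y p q) T2) := by
    intro u1 u2 hu1 hu2 hs ht hx1 hx2 hy hh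
    have hne : u1 ≠ u2 := by rintro rfl; rw [hx1] at hx2; cases hx2
    obtain ⟨T3, hm3, hw⟩ := swap_cells h hu1 hu2 hne hs ht
    obtain ⟨a1, a2, a3, a4⟩ := gl_vals h u1 u2
    obtain ⟨b1, b2, b3, b4⟩ := gl_vals h u2 u1
    have e1 : iv true true = 1 := rfl
    have e2 : iv true false = 0 := rfl
    have hH3 : wt (wh x y) T1 = wt (wh x y) T3 := by
      rw [hw, ← hh]
      unfold wh
      rw [a3, a4, b3, b4, hx1, hx2, e1, e2]
      ring
    refine ⟨T3, ?_, ?_, ?_⟩
    · have hfb : Fb (cone s G1 ∪ cone t G2) T1 T3 := hm.fb.trans hm3.fb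
      have hxy : Eqm {x, y} T1 T3 := eqm_xy (fb_par h hfb).2.2.2.1 (fb_par h hfb).2.2.2.2 hH3
      exact Mv_comp hm hm3 (fb_ad.2 ⟨hxy, hfb⟩)
    · intro p q
      rw [hw, wf_vals (r' := u1) a1 a2 a3, wf_vals (r' := u2) b1 b2 b3]
      ring
    · intro p q
      rw [hw, wf_vals (s := s) (t := t) (x := y) (r' := u2) (a1.trans hs) (a2.trans ht) a4,
        wf_vals (s := s) (t := t) (x := y) (r' := u1) (b1.trans hs.symm) (b2.trans ht.symm) b4]
      ring
  rcases hH with hH | hH | hH
  · exact ⟨T2, (mv_h h hm hH.symm).mono (fun F hF => ⟨F, hF, Finset.Subset.refl _⟩) (by norm_num),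
      fun _ _ => rfl, fun _ _ => rfl⟩
  · -- too many cells `(1, 1)`
    have hex : ∃ p q, 0 < wt (w4 s t x y p q true true) T2 ∧
        0 < wt (w4 s t x y p q false false) T2 := by
      by_contra hcon
      push Not at hcon
      have hall : ∀ p q, wt (w4 s t x y p q true true) T2 ≤
          max 0 (wt (wf s t x p q) T2 + wt (wf s t y p q) T2 - wt (wn s t p q) T2) := by
        intro p q
        have h1 := hcon p q
        have h2 := w4_wt_nonneg s t x y p q true true T2
        rw [wf_x s t x y, wf_y s t x y, wn_eq s t x y]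
        omega
      rw [wh_eq s t x y T2] at hH
      simp only [sm] at hH hLo
      have a1 := hall false false
      have a2 := hall false true
      have a3 := hall true false
      have a4 := hall true true
      omega
    obtain ⟨p, q, k1, k2⟩ := hex
    obtain ⟨r1, hr1, s1, t1, x1, y1⟩ := exists_cell k1
    obtain ⟨r2, hr2, s2, t2, x2, y2⟩ := exists_cell k2
    refine fin r1 r2 hr1 hr2 (s1.trans s2.symm) (t1.trans t2.symm) x1 x2 (by rw [y1, y2]; rfl) ?_
    rw [hH, y1, y2]
    have e1 : iv true true = 1 := rfl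
    have e2 : iv true false = 0 := rfl
    rw [e1, e2]
    ring
  · -- not enough cells `(1, 1)`
    have hex : ∃ p q, 0 < wt (w4 s t x y p q true false) T2 ∧
        0 < wt (w4 s t x y p q false true) T2 := by
      by_contra hcon
      push Not at hcon
      have hall : ∀ p q, min (wt (wf s t x p q) T2) (wt (wf s t y p q) T2) ≤
          wt (w4 s t x y p q true true) T2 := by
        intro p q
        have h1 := hcon p q
        rw [wf_x s t x y, wf_y s t x y]
        omega
      rw [wh_eq s t x y T2] at hH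
      simp only [sm] at hH hHi
      have a1 := hall false false
      have a2 := hall false true
      have a3 := hall true false
      have a4 := hall true true
      omega
    obtain ⟨p, q, k1, k2⟩ := hex
    obtain ⟨r1, hr1, s1, t1, x1, y1⟩ := exists_cell k1
    obtain ⟨r2, hr2, s2, t2, x2, y2⟩ := exists_cell k2
    refine fin r1 r2 hr1 hr2 (s1.trans s2.symm) (t1.trans t2.symm) x1 x2 (by rw [y1, y2]; rfl) ?_
    rw [hH, y1, y2]
    have e1 : iv true true = 1 := rfl
    have e2 : iv true false = 0 := rfl
    rw [e1, e2]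
    ring

/-- flip of `x` -/
def flx (x : V) (r : V → Bool) : V → Bool := Function.update r x (!r x)

/-- flip of `x` and of `y` -/
def fxy (x y : V) (r : V → Bool) : V → Bool := Function.update (Function.update r x (!r x)) y (!r y)

theorem flx_vals (h : Cr G1 G2 U W s t x y) (r : V → Bool) :
    flx x r s = r s ∧ flx x r t = r t ∧ flx x r x = !r x ∧ flx x r y = r y := by
  unfold flx
  refine ⟨Function.update_of_ne h.xs.symm _ _, Function.update_of_ne h.xt.symm _ _,
    Function.update_self _ _ _, Function.update_of_ne (Cr_xy h).symm _ _⟩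

theorem fxy_vals (h : Cr G1 G2 U W s t x y) (r : V → Bool) :
    fxy x y r s = r s ∧ fxy x y r t = r t ∧ fxy x y r x = !r x ∧ fxy x y r y = !r y := by
  unfold fxy
  refine ⟨?_, ?_, ?_, Function.update_self _ _ _⟩
  · rw [Function.update_of_ne h.ys.symm, Function.update_of_ne h.xs.symm]
  · rw [Function.update_of_ne h.yt.symm, Function.update_of_ne h.xt.symm]
  · rw [Function.update_of_ne (Cr_xy h), Function.update_self]

/-- realization of unit steps on the `U`-side only -/
theorem realD (hU : StmtUnit) (hS : StmtSlice) (hR : StmtReal) (h : Cr G1 G2 U W s t x y)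
    (hOm : Dg (Om G1 G2 s t x y)) (hPP : PP G1 x t) (hDg : Dg (ad G1 x t)) {T T' : Tab V}
    (hfb : Fb (cone s G1) T T') (d : Bool → ℤ)
    (hd : ∀ p, d p = 0 ∨ (d p = 1 ∧ wt (wf s t x p true) T < wt (wf s t x p true) T') ∨
      (d p = -1 ∧ wt (wf s t x p true) T' < wt (wf s t x p true) T)) :
    ∃ (α : Bool → Tab V) (w0 T1 T2 : Tab V), T = w0 + (α false + α true) ∧
      Cn (Om G1 G2 s t x y) 4 T T1 ∧
      Mv (cone s G1 ∪ cone t G2) (α false + α true).card T1 T2 ∧
      (∀ p q, wt (wf s t x p q) T2 = wt (wf s t x p q) T + dF d p q) ∧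
      (∀ p q, wt (wf s t y p q) T2 = wt (wf s t y p q) T) ∧
      (∀ p q, wt (wn s t p q) T2 = wt (wn s t p q) T) ∧
      wt (wh x y) T1 = wt (wh x y) T ∧
      wt (wh x y) T2 = wt (wh x y) T +
        (wt (fun r => wh x y (flx x r) - wh x y r) (α false) +
          wt (fun r => wh x y (flx x r) - wh x y r) (α true)) ∧
      ∀ p, (d p = 0 → α p = 0) ∧ (d p ≠ 0 → ∃ r1 r2, α p = {r1} + {r2} ∧
          (r1 s = p ∧ r1 t = !decide (d p = 1) ∧ r1 x = true) ∧
          (r2 s = p ∧ r2 t = decide (d p = 1) ∧ r2 x = false)) := by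
  have hfl : ∀ r, flx x r s = r s ∧ flx x r t = r t ∧ flx x r x = !r x := fun r =>
    ⟨(flx_vals h r).1, (flx_vals h r).2.1, (flx_vals h r).2.2.1⟩
  obtain ⟨C, A, B, α, w0, hC, hT, hp⟩ := cellsU hU hS h hPP hDg hfb d hd (flx x) hfl
  have hsty : Eqm {s, t, y} (α false + α true) ((α false + α true).map (flx x)) := by
    unfold Eqm
    rw [Multiset.map_map]
    apply Multiset.map_congr rfl
    intro r _
    exact (rs3 (flx_vals h r).1 (flx_vals h r).2.1 (flx_vals h r).2.2.2).symm
  obtain ⟨T1, T2, h1, h2, h3⟩ := hR V G1 G2 U W s t x y h hOm T C (A false + A true)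
    (B false + B true) w0 (α false + α true) (α false + α true) w0 (α false + α true)
    ((α false + α true).map (flx x)) (α false + α true).card hC ((hp false).1.add (hp true).1)
    (by rw [← hT]; exact Cn.refl _ _ _) (Fb.refl _ _) (by rw [← hT]; exact Eqm.refl _ _) le_rfl
    ((hp false).2.1.add (hp true).2.1) (by
      rw [Multiset.map_add]
      exact (hp false).2.2.1.add (hp true).2.2.1) (Eqm.refl _ _) hsty
  have hα : ∀ p, (d p = 0 → α p = 0) ∧ (d p ≠ 0 → ∃ r1 r2, α p = {r1} + {r2} ∧
          (r1 s = p ∧ r1 t = !decide (d p = 1) ∧ r1 x = true) ∧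
          (r2 s = p ∧ r2 t = decide (d p = 1) ∧ r2 x = false)) := fun p =>
    ⟨(hp p).2.2.2.1, (hp p).2.2.2.2⟩
  have hd' : ∀ p, d p = 0 ∨ d p = 1 ∨ d p = -1 := by
    intro p
    rcases hd p with h | h | h
    · exact Or.inl h
    · exact Or.inr (Or.inl h.1)
    · exact Or.inr (Or.inr h.1)
  refine ⟨α, w0, T1, T2, hT, h1, h2, ?_, ?_, ?_, ?_, ?_, hα⟩
  · intro p q
    rw [(step_wt hT h1 h3 (wf_loc4x p q)).2, wt_add,
      chF (hd' false) (flx x) hfl (hα false).1 (hα false).2,
      chF (hd' true) (flx x) hfl (hα true).1 (hα true).2, sum_iv_dF]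
  · intro p q
    rw [(step_wt hT h1 h3 (wf_loc4y p q)).2]
    have : wt (fun r => wf s t y p q (flx x r) - wf s t y p q r) (α false + α true) =
        wt (fun _ => (0 : ℤ)) (α false + α true) := by
      apply wt_congr
      intro r _
      rw [wf_vals (s := s) (t := t) (x := y) (r' := r) (flx_vals h r).1 (flx_vals h r).2.1
        (flx_vals h r).2.2.2]
      ring
    rw [this]
    simp [wt]
  · intro p q
    rw [(step_wt hT h1 h3 (wn_loc4 p q)).2]
    have : wt (fun r => wn s t p q (flx x r) - wn s t p q r) (α false + α true) =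
        wt (fun _ => (0 : ℤ)) (α false + α true) := by
      apply wt_congr
      intro r _
      unfold wn
      rw [(flx_vals h r).1, (flx_vals h r).2.1]
      ring
    rw [this]
    simp [wt]
  · exact (step_wt hT h1 h3 wh_loc4).1
  · rw [(step_wt hT h1 h3 wh_loc4).2, wt_add]

/-- the change of the number of cells `(1, 1)` by the cells of one slice -/
theorem chH (h : Cr G1 G2 U W s t x y) {α : Tab V} {r1 r2 : V → Bool} (hα : α = {r1} + {r2})
    (h1 : r1 x = true) (h2 : r2 x = false) :
    wt (fun r => wh x y (flx x r) - wh x y r) α = iv true (r2 y) - iv true (r1 y) := by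
  rw [hα, wt_add, wt_sing, wt_sing]
  unfold wh
  rw [(flx_vals h r1).2.2.1, (flx_vals h r1).2.2.2, (flx_vals h r2).2.2.1,
    (flx_vals h r2).2.2.2, h1, h2]
  have e1 : iv true true = 1 := rfl
  have e2 : iv true false = 0 := rfl
  simp only [Bool.not_true, Bool.not_false, e1, e2]
  ring

theorem iv_cases (b : Bool) : iv true b = 0 ∨ iv true b = 1 := by
  cases b
  · exact Or.inl rfl
  · exact Or.inr rfl

/-- first alternative -/
theorem step1 (hU : StmtUnit) (hS : StmtSlice) (hR : StmtReal) (h : Cr G1 G2 U W s t x y)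
    (hOm : Dg (Om G1 G2 s t x y)) (hPP : PP G1 x t) (hDg : Dg (ad G1 x t)) {T T' : Tab V}
    (hfb : Fb (cone s G1) T T') (d : Bool → ℤ)
    (hd : ∀ p, d p = 0 ∨ (d p = 1 ∧ wt (wf s t x p true) T < wt (wf s t x p true) T') ∨
      (d p = -1 ∧ wt (wf s t x p true) T' < wt (wf s t x p true) T))
    (hp : ∃ p, d p ≠ 0 ∧ d (!p) = 0)
    (hLo : sm (fun p q => max 0 (wt (wf s t x p q) T + dF d p q + wt (wf s t y p q) T -
      wt (wn s t p q) T)) ≤ wt (wh x y) T)
    (hHi : wt (wh x y) T ≤ sm (fun p q => min (wt (wf s t x p q) T + dF d p q)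
      (wt (wf s t y p q) T))) :
    ∃ T3, Cn (ad (cone s G1 ∪ cone t G2) x y) 4 T T3 ∧
      (∀ p q, wt (wf s t x p q) T3 = wt (wf s t x p q) T + dF d p q) ∧
      (∀ p q, wt (wf s t y p q) T3 = wt (wf s t y p q) T) := by
  obtain ⟨α, w0, T1, T2, hT, h1, h2, hF, hG, hn, hh1, hh2, hα⟩ :=
    realD hU hS hR h hOm hPP hDg hfb d hd
  obtain ⟨p, hp1, hp2⟩ := hp
  obtain ⟨r1, r2, h6, ⟨a1, a2, a3⟩, ⟨b1, b2, b3⟩⟩ := (hα p).2 hp1
  have hz := (hα (!p)).1 hp2
  have hcard : (α false + α true).card ≤ 2 := by
    cases p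
    · rw [h6, show α true = 0 from hz]
      simp
    · rw [h6, show α false = 0 from hz]
      simp
  have hch : wt (fun r => wh x y (flx x r) - wh x y r) (α false) +
      wt (fun r => wh x y (flx x r) - wh x y r) (α true) = iv true (r2 y) - iv true (r1 y) := by
    cases p
    · rw [show α true = 0 from hz, wt_nil, chH h h6 a3 b3, add_zero]
    · rw [show α false = 0 from hz, wt_nil, chH h h6 a3 b3, zero_add]
  rw [hch] at hh2
  obtain ⟨T3, h3, h4, h5⟩ := fixH h
    (h2.mono (fun F hF => ⟨F, hF, Finset.Subset.refl _⟩) hcard) (by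
      rw [hh1, hh2]
      rcases iv_cases (r1 y) with e | e <;> rcases iv_cases (r2 y) with e' | e' <;>
        rw [e, e'] <;> omega) (by
      simp only [hF, hG, hn, hh1]
      exact hLo) (by
      simp only [hF, hG, hh1]
      exact hHi)
  exact ⟨T3, (om_mono h1).trans h3.cn, fun p q => by rw [h4, hF], fun p q => by rw [h5, hG]⟩

omit [DecidableEq V] in
theorem y_zero {T : Tab V} {p q : Bool} (h0 : wt (wf s t y p q) T = 0) {r : V → Bool}
    (hr : r ∈ T) (h1 : r s = p) (h2 : r t = q) : r y = false := by
  have h3 := wt_eq_zero (w := wf s t y p q) (fun r _ =>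
    mul_nonneg (mul_nonneg (iv_nonneg _ _) (iv_nonneg _ _)) (iv_nonneg _ _)) h0 r hr
  unfold wf at h3
  rw [h1, h2] at h3
  generalize r y = b at *
  revert b
  cases p <;> cases q <;> decide

omit [DecidableEq V] in
theorem y_one {T : Tab V} {p q : Bool} (h0 : wt (wf s t y p q) T = wt (wn s t p q) T)
    {r : V → Bool} (hr : r ∈ T) (h1 : r s = p) (h2 : r t = q) : r y = true := by
  have h4 : wt (fun r => wn s t p q r - wf s t y p q r) T = 0 := by
    have e := wt_wadd (wn s t p q) (fun r => - wf s t y p q r) T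
    rw [wt_neg] at e
    have e' : wt (fun r => wn s t p q r - wf s t y p q r) T =
        wt (fun r => wn s t p q r + - wf s t y p q r) T := wt_congr fun r _ => by ring
    rw [e', e, h0]
    ring
  have h3 := wt_eq_zero (fun r _ => by
    unfold wn wf
    generalize r s = a; generalize r t = b; generalize r y = c
    clear h0 h4 hr h1 h2
    revert a b c p q
    decide) h4 r hr
  unfold wn wf at h3
  rw [h1, h2] at h3
  generalize r y = b at *
  clear h0 h4 hr h1 h2
  revert b
  cases p <;> cases q <;> decide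

theorem dF_down {d : Bool → ℤ} {p : Bool} (hd : d p = 1 ∨ d p = -1) :
    dF d p (!decide (d p = 1)) < 0 := by
  unfold dF
  rcases hd with h | h <;> simp [h]

theorem dF_up {d : Bool → ℤ} {p : Bool} (hd : d p = 1 ∨ d p = -1) :
    0 < dF d p (decide (d p = 1)) := by
  unfold dF
  rcases hd with h | h <;> simp [h]

/-- second alternative -/
theorem step2 (hU : StmtUnit) (hS : StmtSlice) (hR : StmtReal) (h : Cr G1 G2 U W s t x y)
    (hOm : Dg (Om G1 G2 s t x y)) (hPP : PP G1 x t) (hDg : Dg (ad G1 x t)) {T T' : Tab V}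
    (hfb : Fb (cone s G1) T T') (d : Bool → ℤ)
    (hd : ∀ p, d p = 0 ∨ (d p = 1 ∧ wt (wf s t x p true) T < wt (wf s t x p true) T') ∨
      (d p = -1 ∧ wt (wf s t x p true) T' < wt (wf s t x p true) T))
    (hne : ∀ p, d p ≠ 0) (p0 : Bool)
    (hq : ∀ q, (0 < dF d p0 q → wt (wf s t y p0 q) T = 0) ∧
      (dF d p0 q < 0 → wt (wf s t y p0 q) T = wt (wn s t p0 q) T) ∧
      (0 < dF d (!p0) q → wt (wf s t y (!p0) q) T = wt (wn s t (!p0) q) T) ∧
      (dF d (!p0) q < 0 → wt (wf s t y (!p0) q) T = 0)) :
    ∃ T3, Cn (ad (cone s G1 ∪ cone t G2) x y) 4 T T3 ∧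
      (∀ p q, wt (wf s t x p q) T3 = wt (wf s t x p q) T + dF d p q) ∧
      (∀ p q, wt (wf s t y p q) T3 = wt (wf s t y p q) T) := by
  obtain ⟨α, w0, T1, T2, hT, h1, h2, hF, hG, hn, hh1, hh2, hα⟩ :=
    realD hU hS hR h hOm hPP hDg hfb d hd
  have hd' : ∀ p, d p = 1 ∨ d p = -1 := by
    intro p
    rcases hd p with h | h | h
    · exact absurd h (hne p)
    · exact Or.inl h.1
    · exact Or.inr h.1
  have hmem : ∀ p, ∀ r ∈ α p, r ∈ T := by
    intro p r hr
    rw [hT]
    apply Multiset.mem_add.2
    right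
    apply Multiset.mem_add.2
    cases p
    · exact Or.inl hr
    · exact Or.inr hr
  obtain ⟨r1, r2, h6, ⟨a1, a2, a3⟩, ⟨b1, b2, b3⟩⟩ := (hα p0).2 (hne p0)
  obtain ⟨r1', r2', h6', ⟨a1', a2', a3'⟩, ⟨b1', b2', b3'⟩⟩ := (hα (!p0)).2 (hne (!p0))
  have m1 : r1 ∈ T := hmem p0 r1 (by rw [h6]; simp)
  have m2 : r2 ∈ T := hmem p0 r2 (by rw [h6]; simp)
  have m1' : r1' ∈ T := hmem (!p0) r1' (by rw [h6']; simp)
  have m2' : r2' ∈ T := hmem (!p0) r2' (by rw [h6']; simp)
  have y1 : r1 y = true := y_one ((hq _).2.1 (dF_down (hd' p0))) m1 a1 a2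
  have y2 : r2 y = false := y_zero ((hq _).1 (dF_up (hd' p0))) m2 b1 b2
  have y1' : r1' y = false := y_zero ((hq _).2.2.2 (dF_down (hd' (!p0)))) m1' a1' a2'
  have y2' : r2' y = true := y_one ((hq _).2.2.1 (dF_up (hd' (!p0)))) m2' b1' b2'
  have e1 : iv true true = 1 := rfl
  have e2 : iv true false = 0 := rfl
  have c1 : wt (fun r => wh x y (flx x r) - wh x y r) (α p0) = -1 := by
    rw [chH h h6 a3 b3, y1, y2, e1, e2]; rfl
  have c2 : wt (fun r => wh x y (flx x r) - wh x y r) (α (!p0)) = 1 := by
    rw [chH h h6' a3' b3', y1', y2', e1, e2]; rfl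
  have hch : wt (fun r => wh x y (flx x r) - wh x y r) (α false) +
      wt (fun r => wh x y (flx x r) - wh x y r) (α true) = 0 := by
    cases p0
    · rw [c1, show wt (fun r => wh x y (flx x r) - wh x y r) (α true) = 1 from c2]; rfl
    · rw [c1, show wt (fun r => wh x y (flx x r) - wh x y r) (α false) = 1 from c2]; rfl
  have hcard : (α false + α true).card ≤ 4 := by
    have k1 : (α p0).card = 2 := by rw [h6]; simp
    have k2 : (α (!p0)).card = 2 := by rw [h6']; simp
    rw [Multiset.card_add]
    cases p0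
    · have k2' : (α true).card = 2 := k2
      omega
    · have k2' : (α false).card = 2 := k2
      omega
  refine ⟨T2, (om_mono h1).trans ((mv_h h h2 (by rw [hh1, hh2, hch, add_zero])).mono
    (fun F hF => ⟨F, hF, Finset.Subset.refl _⟩) hcard).cn, hF, hG⟩

/-- canonical cell with the values `p, q, c` at `s, t, y` -/
theorem rs_canon (h : Cr G1 G2 U W s t x y) {r : V → Bool} {p q c : Bool} (h1 : r s = p)
    (h2 : r t = q) (h3 : r y = c) :
    rs {s, t, y} r = rs {s, t, y} (cl t s y y q p c c) := by
  apply rs3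
  · rw [h1, cl_t h.st.symm]
  · rw [h2, cl_s]
  · rw [h3, cl_x h.yt h.ys]

/-- fourth and fifth alternative -/
theorem step45 (hU : StmtUnit) (hS : StmtSlice) (hR : StmtReal) (h : Cr G1 G2 U W s t x y)
    (hOm : Dg (Om G1 G2 s t x y)) (hPP : PP G1 x t) (hDg : Dg (ad G1 x t))
    (hPP' : PP G2 y s) (hDg' : Dg (ad G2 y s)) {T T' : Tab V}
    (hfb : Fb (cone s G1) T T') (hfb' : Fb (cone t G2) T T') (d e : Bool → ℤ)
    (hd : ∀ p, d p = 0 ∨ (d p = 1 ∧ wt (wf s t x p true) T < wt (wf s t x p true) T') ∨
      (d p = -1 ∧ wt (wf s t x p true) T' < wt (wf s t x p true) T))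
    (he : ∀ q, e q = 0 ∨ (e q = 1 ∧ wt (wf t s y q true) T < wt (wf t s y q true) T') ∨
      (e q = -1 ∧ wt (wf t s y q true) T' < wt (wf t s y q true) T))
    (hne : ∀ p, d p ≠ 0)
    (hc : ((∀ r ∈ T, r y = r x) ∧ ∀ p q, dF d p q = dF e q p) ∨
      ((∀ r ∈ T, r y = !r x) ∧ ∀ p q, dF d p q = - dF e q p)) :
    ∃ T3, Cn (ad (cone s G1 ∪ cone t G2) x y) 4 T T3 ∧
      (∀ p q, wt (wf s t x p q) T3 = wt (wf s t x p q) T + dF d p q) ∧
      (∀ p q, wt (wf s t y p q) T3 = wt (wf s t y p q) T + dF e q p) := by
  have hfl : ∀ r, fxy x y r s = r s ∧ fxy x y r t = r t ∧ fxy x y r x = !r x := fun r =>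
    ⟨(fxy_vals h r).1, (fxy_vals h r).2.1, (fxy_vals h r).2.2.1⟩
  obtain ⟨C, A, B, α, w0, hC, hT, hp⟩ := cellsU hU hS h hPP hDg hfb d hd (fxy x y) hfl
  obtain ⟨C', A', B', hC', hp'⟩ := sliceU hU hS (Cr_swap h) hPP' hDg' hfb' e he
  have hd' : ∀ p, d p = 1 ∨ d p = -1 := by
    intro p
    rcases hd p with h | h | h
    · exact absurd h (hne p)
    · exact Or.inl h.1
    · exact Or.inr h.1
  have hmem : ∀ p, ∀ r ∈ α p, r ∈ T := by
    intro p r hr
    rw [hT]
    apply Multiset.mem_add.2
    right
    apply Multiset.mem_add.2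
    cases p
    · exact Or.inl hr
    · exact Or.inr hr
  obtain ⟨r1, r2, h6, ⟨a1, a2, a3⟩, ⟨b1, b2, b3⟩⟩ := (hp false).2.2.2.2 (hne false)
  obtain ⟨r3, r4, h7, ⟨c1, c2, c3⟩, ⟨f1, f2, f3⟩⟩ := (hp true).2.2.2.2 (hne true)
  have m1 : r1 ∈ T := hmem false r1 (by rw [h6]; simp)
  have m2 : r2 ∈ T := hmem false r2 (by rw [h6]; simp)
  have m3 : r3 ∈ T := hmem true r3 (by rw [h7]; simp)
  have m4 : r4 ∈ T := hmem true r4 (by rw [h7]; simp)
  have hK : ∀ (A B : Tab V), Eqm {t, s, y} A B → Eqm {s, t, y} A B := by
    intro A B hAB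
    rw [Finset.insert_comm]
    exact hAB
  -- the marginals of the two sides agree
  have hen : ∀ q, e q ≠ 0 := by
    intro q hq
    rcases hc with hc | hc
    · have k1 := hc.2 true q
      have k2 := hd' true
      unfold dF at k1
      cases q <;> rcases k2 with k2 | k2 <;> simp [hq, k2] at k1
    · have k1 := hc.2 true q
      have k2 := hd' true
      unfold dF at k1
      cases q <;> rcases k2 with k2 | k2 <;> simp [hq, k2] at k1
  have hbα : Eqm {s, t, y} (A' false + A' true) (α false + α true) ∧
      Eqm {s, t, y} (B' false + B' true) ((α false + α true).map (fxy x y)) := by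
    have q1 := (hp' false).2.2 (hen false)
    have q2 := (hp' true).2.2 (hen true)
    have g1 := (hK _ _ q1.1).add (hK _ _ q2.1)
    have g2 := (hK _ _ q1.2).add (hK _ _ q2.2)
    have e1 := hc
    rw [h6, h7]
    refine ⟨g1.trans ?_, g2.trans ?_⟩
    · unfold Eqm
      simp only [Multiset.map_add, Multiset.map_singleton]
      rcases hc with hc | hc
      · have y1 := hc.1 r1 m1
        have y2 := hc.1 r2 m2
        have y3 := hc.1 r3 m3
        have y4 := hc.1 r4 m4
        rw [a3] at y1
        rw [b3] at y2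
        rw [c3] at y3
        rw [f3] at y4
        rw [rs_canon h a1 a2 y1, rs_canon h b1 b2 y2, rs_canon h c1 c2 y3, rs_canon h f1 f2 y4]
        have k1 := hc.2 true true
        have k2 := hc.2 true false
        have k3 := hc.2 false true
        simp only [dF, if_true, Bool.false_eq_true, if_false] at k1 k2 k3
        rcases hd' true with k | k
        · have z1 : e true = 1 := by rw [← k1, k]
          have z2 : e false = -1 := by rw [← k2, k]
          have z3 : d false = -1 := by rw [k3, z1]
          rw [z1, z2, z3, k]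
          have u1 : decide ((1 : ℤ) = 1) = true := rfl
          have u2 : decide ((-1 : ℤ) = 1) = false := rfl
          simp only [u1, u2, decide_true, decide_false, Bool.not_true, Bool.not_false]
          abel
        · have z1 : e true = -1 := by rw [← k1, k]
          have z2 : e false = 1 := by rw [← k2, k]; rfl
          have z3 : d false = 1 := by rw [k3, z1]; rfl
          rw [z1, z2, z3, k]
          have u1 : decide ((1 : ℤ) = 1) = true := rfl
          have u2 : decide ((-1 : ℤ) = 1) = false := rfl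
          simp only [u1, u2, decide_true, decide_false, Bool.not_true, Bool.not_false]
          abel
      · have y1 := hc.1 r1 m1
        have y2 := hc.1 r2 m2
        have y3 := hc.1 r3 m3
        have y4 := hc.1 r4 m4
        rw [a3] at y1
        rw [b3] at y2
        rw [c3] at y3
        rw [f3] at y4
        rw [rs_canon h a1 a2 y1, rs_canon h b1 b2 y2, rs_canon h c1 c2 y3, rs_canon h f1 f2 y4]
        have k1 := hc.2 true true
        have k2 := hc.2 true false
        have k3 := hc.2 false true
        simp only [dF, if_true, Bool.false_eq_true, if_false] at k1 k2 k3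
        rcases hd' true with k | k
        · have z1 : e true = -1 := by omega
          have z2 : e false = 1 := by omega
          have z3 : d false = -1 := by omega
          rw [z1, z2, z3, k]
          have u1 : decide ((1 : ℤ) = 1) = true := rfl
          have u2 : decide ((-1 : ℤ) = 1) = false := rfl
          simp only [u1, u2, decide_true, decide_false, Bool.not_true, Bool.not_false]
          abel
        · have z1 : e true = 1 := by omega
          have z2 : e false = -1 := by omega
          have z3 : d false = 1 := by omega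
          rw [z1, z2, z3, k]
          have u1 : decide ((1 : ℤ) = 1) = true := rfl
          have u2 : decide ((-1 : ℤ) = 1) = false := rfl
          simp only [u1, u2, decide_true, decide_false, Bool.not_true, Bool.not_false]
          abel
    · unfold Eqm
      simp only [Multiset.map_add, Multiset.map_singleton]
      obtain ⟨v1, v2, v3, v4⟩ := fxy_vals h r1
      obtain ⟨v1', v2', v3', v4'⟩ := fxy_vals h r2
      obtain ⟨v5, v6, v7, v8⟩ := fxy_vals h r3
      obtain ⟨v5', v6', v7', v8'⟩ := fxy_vals h r4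
      rcases hc with hc | hc
      · have y1 := hc.1 r1 m1
        have y2 := hc.1 r2 m2
        have y3 := hc.1 r3 m3
        have y4 := hc.1 r4 m4
        rw [a3] at y1
        rw [b3] at y2
        rw [c3] at y3
        rw [f3] at y4
        rw [y1] at v4
        rw [y2] at v4'
        rw [y3] at v8
        rw [y4] at v8'
        rw [rs_canon h (v1.trans a1) (v2.trans a2) v4, rs_canon h (v1'.trans b1) (v2'.trans b2) v4',
          rs_canon h (v5.trans c1) (v6.trans c2) v8, rs_canon h (v5'.trans f1) (v6'.trans f2) v8']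
        have k1 := hc.2 true true
        have k2 := hc.2 true false
        have k3 := hc.2 false true
        simp only [dF, if_true, Bool.false_eq_true, if_false] at k1 k2 k3
        rcases hd' true with k | k
        · have z1 : e true = 1 := by omega
          have z2 : e false = -1 := by omega
          have z3 : d false = -1 := by omega
          rw [z1, z2, z3, k]
          have u1 : decide ((1 : ℤ) = 1) = true := rfl
          have u2 : decide ((-1 : ℤ) = 1) = false := rfl
          simp only [u1, u2, decide_true, decide_false, Bool.not_true, Bool.not_false]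
          abel
        · have z1 : e true = -1 := by omega
          have z2 : e false = 1 := by omega
          have z3 : d false = 1 := by omega
          rw [z1, z2, z3, k]
          have u1 : decide ((1 : ℤ) = 1) = true := rfl
          have u2 : decide ((-1 : ℤ) = 1) = false := rfl
          simp only [u1, u2, decide_true, decide_false, Bool.not_true, Bool.not_false]
          abel
      · have y1 := hc.1 r1 m1
        have y2 := hc.1 r2 m2
        have y3 := hc.1 r3 m3
        have y4 := hc.1 r4 m4
        rw [a3] at y1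
        rw [b3] at y2
        rw [c3] at y3
        rw [f3] at y4
        rw [y1] at v4
        rw [y2] at v4'
        rw [y3] at v8
        rw [y4] at v8'
        rw [rs_canon h (v1.trans a1) (v2.trans a2) v4, rs_canon h (v1'.trans b1) (v2'.trans b2) v4',
          rs_canon h (v5.trans c1) (v6.trans c2) v8, rs_canon h (v5'.trans f1) (v6'.trans f2) v8']
        have k1 := hc.2 true true
        have k2 := hc.2 true false
        have k3 := hc.2 false true
        simp only [dF, if_true, Bool.false_eq_true, if_false] at k1 k2 k3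
        rcases hd' true with k | k
        · have z1 : e true = -1 := by omega
          have z2 : e false = 1 := by omega
          have z3 : d false = -1 := by omega
          rw [z1, z2, z3, k]
          have u1 : decide ((1 : ℤ) = 1) = true := rfl
          have u2 : decide ((-1 : ℤ) = 1) = false := rfl
          simp only [u1, u2, decide_true, decide_false, Bool.not_true, Bool.not_false]
          abel
        · have z1 : e true = 1 := by omega
          have z2 : e false = -1 := by omega
          have z3 : d false = 1 := by omega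
          rw [z1, z2, z3, k]
          have u1 : decide ((1 : ℤ) = 1) = true := rfl
          have u2 : decide ((-1 : ℤ) = 1) = false := rfl
          simp only [u1, u2, decide_true, decide_false, Bool.not_true, Bool.not_false]
          abel
  have hcard : (α false + α true).card ≤ 4 := by
    rw [h6, h7]
    simp
  obtain ⟨T1, T2, h1, h2, h3⟩ := hR V G1 G2 U W s t x y h hOm T C (A false + A true)
    (B false + B true) C' (A' false + A' true) (B' false + B' true) w0 (α false + α true)
    ((α false + α true).map (fxy x y)) 4 hC ((hp false).1.add (hp true).1)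
    hC' ((hp' false).1.add (hp' true).1) (by rw [← hT]; exact Eqm.refl _ _) hcard
    ((hp false).2.1.add (hp true).2.1) (by
      rw [Multiset.map_add]
      exact (hp false).2.2.1.add (hp true).2.2.1) hbα.1 hbα.2
  have hF : ∀ p q, wt (fun r => wf s t x p q (fxy x y r) - wf s t x p q r) (α false + α true) =
      dF d p q := by
    intro p q
    rw [wt_add, chF (Or.inr (hd' false)) (fxy x y) hfl (hp false).2.2.2.1 (hp false).2.2.2.2,
      chF (Or.inr (hd' true)) (fxy x y) hfl (hp true).2.2.2.1 (hp true).2.2.2.2, sum_iv_dF]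
  have hmem' : ∀ r ∈ α false + α true, r ∈ T := by
    intro r hr
    rw [hT]
    exact Multiset.mem_add.2 (Or.inr hr)
  have e1 : iv true true = 1 := rfl
  have e2 : iv true false = 0 := rfl
  have hG : ∀ p q, wt (fun r => wf s t y p q (fxy x y r) - wf s t y p q r) (α false + α true) =
      dF e q p := by
    intro p q
    rcases hc with hc | hc
    · rw [← hc.2, ← hF]
      apply wt_congr
      intro r hr
      obtain ⟨v1, v2, v3, v4⟩ := fxy_vals h r
      unfold wf
      rw [v1, v2, v3, v4, hc.1 r (hmem' r hr)]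
    · have : dF e q p = - dF d p q := by rw [hc.2]; ring
      rw [this, ← hF, ← wt_neg]
      apply wt_congr
      intro r hr
      obtain ⟨v1, v2, v3, v4⟩ := fxy_vals h r
      unfold wf
      rw [v1, v2, v3, v4, hc.1 r (hmem' r hr)]
      generalize iv p (r s) * iv q (r t) = z
      cases r x
      · simp only [Bool.not_true, Bool.not_false, e1, e2]; ring
      · simp only [Bool.not_true, Bool.not_false, e1, e2]; ring
  have hH : wt (fun r => wh x y (fxy x y r) - wh x y r) (α false + α true) = 0 := by
    rw [h6, h7]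
    simp only [wt_add, wt_sing]
    obtain ⟨v1, v2, v3, v4⟩ := fxy_vals h r1
    obtain ⟨v1', v2', v3', v4'⟩ := fxy_vals h r2
    obtain ⟨v5, v6, v7, v8⟩ := fxy_vals h r3
    obtain ⟨v5', v6', v7', v8'⟩ := fxy_vals h r4
    unfold wh
    rw [v3, v4, v3', v4', v7, v8, v7', v8']
    rcases hc with hc | hc
    · rw [hc.1 r1 m1, hc.1 r2 m2, hc.1 r3 m3, hc.1 r4 m4, a3, b3, c3, f3]
      rfl
    · rw [hc.1 r1 m1, hc.1 r2 m2, hc.1 r3 m3, hc.1 r4 m4, a3, b3, c3, f3]
      rfl
  refine ⟨T2, (om_mono h1).trans (mv_h h h2 ?_).cn, ?_, ?_⟩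
  · rw [(step_wt hT h1 h3 wh_loc4).1, (step_wt hT h1 h3 wh_loc4).2, hH, add_zero]
  · intro p q
    rw [(step_wt hT h1 h3 (wf_loc4x p q)).2, hF]
  · intro p q
    rw [(step_wt hT h1 h3 (wf_loc4y p q)).2, hG]

omit [DecidableEq V] in
theorem cell_zero {T : Tab V} {r : V → Bool} (hr : r ∈ T) :
    wt (w4 s t x y (r s) (r t) (r x) (r y)) T ≠ 0 := by
  intro h0
  have h1 := wt_eq_zero (fun r' _ => w4_nonneg s t x y (r s) (r t) (r x) (r y) r') h0 r hr
  unfold w4 at h1
  generalize r s = a at *; generalize r t = b at *; generalize r x = c at *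
  generalize r y = d at *
  clear h0 hr
  revert a b c d
  decide

omit [DecidableEq V] in
theorem wf_sw (s t x : V) (p q : Bool) (T : Tab V) : wt (wf t s x q p) T = wt (wf s t x p q) T := by
  apply wt_congr
  intro r _
  unfold wf
  ring

omit [DecidableEq V] in
theorem wn_sw (s t : V) (p q : Bool) (T : Tab V) : wt (wn t s q p) T = wt (wn s t p q) T := by
  apply wt_congr
  intro r _
  unfold wn
  ring

omit [DecidableEq V] in
theorem wh_sw (x y : V) (T : Tab V) : wt (wh y x) T = wt (wh x y) T := by
  apply wt_congr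
  intro r _
  unfold wh
  ring

theorem ad_sw : ad (cone t G2 ∪ cone s G1) y x = ad (cone s G1 ∪ cone t G2) x y := by
  unfold ad
  rw [Set.union_comm, Finset.pair_comm]

theorem dF_zero (p q : Bool) : dF 0 p q = 0 := by
  unfold dF
  cases q <;> simp

/-- One step towards `T'`. -/
theorem one_step (hU : StmtUnit) (hS : StmtSlice) (hR : StmtReal) (hL : StmtLat)
    (h : Cr G1 G2 U W s t x y) (hOm : Dg (Om G1 G2 s t x y)) (hOm' : Dg (Om G2 G1 t s y x))
    (hPP : PP G1 x t) (hDg : Dg (ad G1 x t)) (hPP' : PP G2 y s) (hDg' : Dg (ad G2 y s))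
    {T T' : Tab V} (hf : Fb (ad (cone s G1 ∪ cone t G2) x y) T T')
    (hne : ¬ ((∀ p q, wt (wf s t x p q) T = wt (wf s t x p q) T') ∧
      ∀ p q, wt (wf s t y p q) T = wt (wf s t y p q) T')) :
    ∃ (d e : Bool → ℤ) (T3 : Tab V), Cn (ad (cone s G1 ∪ cone t G2) x y) 4 T T3 ∧
      (∀ p q, wt (wf s t x p q) T3 = wt (wf s t x p q) T + dF d p q) ∧
      (∀ p q, wt (wf s t y p q) T3 = wt (wf s t y p q) T + dF e q p) ∧
      (∀ p, d p = 0 ∨ (d p = 1 ∧ wt (wf s t x p true) T < wt (wf s t x p true) T') ∨
        (d p = -1 ∧ wt (wf s t x p true) T' < wt (wf s t x p true) T)) ∧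
      (∀ q, e q = 0 ∨ (e q = 1 ∧ wt (wf s t y true q) T < wt (wf s t y true q) T') ∨
        (e q = -1 ∧ wt (wf s t y true q) T' < wt (wf s t y true q) T)) ∧
      ((∃ p, d p ≠ 0) ∨ ∃ q, e q ≠ 0) := by
  have hf1 := (fb_ad.1 hf).2
  have hfbU : Fb (cone s G1) T T' := (fb_union.1 hf1).1
  have hfbW : Fb (cone t G2) T T' := (fb_union.1 hf1).2
  obtain ⟨hn, hsx, hty, -, -⟩ := fb_par h hf1
  have hH : wt (wh x y) T = wt (wh x y) T' := wt_loc (wh_loc x y) (fb_ad.1 hf).1
  have nn : ∀ (T : Tab V) p q, 0 ≤ wt (wf s t x p q) T ∧ wt (wf s t x p q) T ≤ wt (wn s t p q) T ∧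
      0 ≤ wt (wf s t y p q) T ∧ wt (wf s t y p q) T ≤ wt (wn s t p q) T := by
    intro T p q
    have k1 := w4_wt_nonneg s t x y p q true true T
    have k2 := w4_wt_nonneg s t x y p q true false T
    have k3 := w4_wt_nonneg s t x y p q false true T
    have k4 := w4_wt_nonneg s t x y p q false false T
    rw [wf_x s t x y, wf_y s t x y, wn_eq s t x y]
    refine ⟨?_, ?_, ?_, ?_⟩ <;> omega
  have bnd : ∀ (T : Tab V), sm (fun p q => max 0 (wt (wf s t x p q) T + wt (wf s t y p q) T -
        wt (wn s t p q) T)) ≤ wt (wh x y) T ∧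
      wt (wh x y) T ≤ sm (fun p q => min (wt (wf s t x p q) T) (wt (wf s t y p q) T)) := by
    intro T
    have k : ∀ p q, max 0 (wt (wf s t x p q) T + wt (wf s t y p q) T - wt (wn s t p q) T) ≤
        wt (w4 s t x y p q true true) T ∧
        wt (w4 s t x y p q true true) T ≤ min (wt (wf s t x p q) T) (wt (wf s t y p q) T) := by
      intro p q
      have k1 := w4_wt_nonneg s t x y p q true true T
      have k2 := w4_wt_nonneg s t x y p q true false T
      have k3 := w4_wt_nonneg s t x y p q false true T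
      have k4 := w4_wt_nonneg s t x y p q false false T
      rw [wf_x s t x y, wf_y s t x y, wn_eq s t x y]
      constructor <;> omega
    rw [wh_eq s t x y]
    simp only [sm]
    have a1 := k false false
    have a2 := k false true
    have a3 := k true false
    have a4 := k true true
    constructor <;> omega
  obtain ⟨d, e, hd, he, halt⟩ := hL (fun p q => wt (wn s t p q) T) (fun p q => wt (wf s t x p q) T)
    (fun p q => wt (wf s t y p q) T) (fun p q => wt (wf s t x p q) T')
    (fun p q => wt (wf s t y p q) T') (wt (wh x y) T) (nn T) (by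
      intro p q
      have := nn T' p q
      simp only [hn]
      exact this) (fun p => sumF hsx p) (by
      intro q
      have := sumF (s := t) (t := s) (x := y) hty q
      rw [wf_sw s t y, wf_sw s t y, wf_sw s t y, wf_sw s t y] at this
      exact this) (bnd T).1 (bnd T).2 (by
      have := (bnd T').1
      rw [← hH] at this
      simp only [hn]
      exact this) (by
      have := (bnd T').2
      rw [← hH] at this
      exact this) (by
      by_contra hcon
      push Not at hcon
      apply hne
      exact ⟨fun p q => congrFun (congrFun hcon.1 p) q, fun p q => congrFun (congrFun hcon.2 p) q⟩)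
  have he' : ∀ q, e q = 0 ∨ (e q = 1 ∧ wt (wf t s y q true) T < wt (wf t s y q true) T') ∨
      (e q = -1 ∧ wt (wf t s y q true) T' < wt (wf t s y q true) T) := by
    intro q
    rw [wf_sw s t y, wf_sw s t y]
    exact he q
  rcases halt with ⟨hLo, hHi, hcase⟩ | ⟨he0, p0, hdn, hq⟩ | ⟨hd0, q0, hen, hq⟩ | ⟨hdn, hFG, hHs⟩ |
    ⟨hdn, hFG, hHs⟩
  · rcases hcase with ⟨he0, hp⟩ | ⟨hd0, hq⟩
    · subst he0
      simp only [dF_zero, add_zero] at hLo hHi
      obtain ⟨T3, h1, h2, h3⟩ := step1 hU hS hR h hOm hPP hDg hfbU d hd hp hLo hHi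
      obtain ⟨p, hp1, -⟩ := hp
      exact ⟨d, 0, T3, h1, h2, fun p q => by rw [h3, dF_zero, add_zero], hd, he, Or.inl ⟨p, hp1⟩⟩
    · subst hd0
      simp only [dF_zero, add_zero] at hLo hHi
      obtain ⟨T3, h1, h2, h3⟩ := step1 hU hS hR (Cr_swap h) hOm' hPP' hDg' hfbW e he' hq (by
        rw [wh_sw x y]
        refine le_trans (le_of_eq ?_) hLo
        have k : ∀ p q, wt (wf t s y q p) T + dF e q p + wt (wf t s x q p) T - wt (wn t s q p) T =
            wt (wf s t x p q) T + (wt (wf s t y p q) T + dF e q p) - wt (wn s t p q) T := by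
          intro p q
          rw [wf_sw s t y, wf_sw s t x, wn_sw s t]
          ring
        simp only [sm, k]
        ring) (by
        rw [wh_sw x y]
        refine le_trans hHi (le_of_eq ?_)
        have k : ∀ p q, min (wt (wf t s y q p) T + dF e q p) (wt (wf t s x q p) T) =
            min (wt (wf s t x p q) T) (wt (wf s t y p q) T + dF e q p) := by
          intro p q
          rw [wf_sw s t y, wf_sw s t x, min_comm]
        simp only [sm, k]
        ring)
      rw [ad_sw] at h1
      obtain ⟨q, hq1, -⟩ := hq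
      refine ⟨0, e, T3, h1, fun p q => ?_, fun p q => ?_, hd, he, Or.inr ⟨q, hq1⟩⟩
      · rw [dF_zero, add_zero, ← wf_sw s t x, ← wf_sw s t x, h3]
      · rw [← wf_sw s t y, ← wf_sw s t y, h2]
  · subst he0
    obtain ⟨T3, h1, h2, h3⟩ := step2 hU hS hR h hOm hPP hDg hfbU d hd hdn p0 hq
    exact ⟨d, 0, T3, h1, h2, fun p q => by rw [h3, dF_zero, add_zero], hd, he,
      Or.inl ⟨true, hdn true⟩⟩
  · subst hd0
    obtain ⟨T3, h1, h2, h3⟩ := step2 hU hS hR (Cr_swap h) hOm' hPP' hDg' hfbW e he' hen q0 (by
      intro p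
      rw [wf_sw s t x, wf_sw s t x, wn_sw s t, wn_sw s t]
      exact hq p)
    rw [ad_sw] at h1
    refine ⟨0, e, T3, h1, fun p q => ?_, fun p q => ?_, hd, he, Or.inr ⟨true, hen true⟩⟩
    · rw [dF_zero, add_zero, ← wf_sw s t x, ← wf_sw s t x, h3]
    · rw [← wf_sw s t y, ← wf_sw s t y, h2]
  · -- all cells have `x = y`
    have hN : ∀ p q, wt (w4 s t x y p q true false) T = 0 ∧
        wt (w4 s t x y p q false true) T = 0 := by
      have k : ∀ p q, wt (w4 s t x y p q true true) T ≤
          min (wt (wf s t x p q) T) (wt (wf s t y p q) T) ∧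
          (wt (w4 s t x y p q true true) T = min (wt (wf s t x p q) T) (wt (wf s t y p q) T) →
          wt (w4 s t x y p q true false) T = 0 ∧ wt (w4 s t x y p q false true) T = 0) := by
        intro p q
        have k1 := w4_wt_nonneg s t x y p q true true T
        have k2 := w4_wt_nonneg s t x y p q true false T
        have k3 := w4_wt_nonneg s t x y p q false true T
        have k5 := (hFG p q).1
        rw [wf_x s t x y, wf_y s t x y] at k5
        rw [wf_x s t x y, wf_y s t x y]
        constructor
        · omega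
        · intro _
          constructor <;> omega
      rw [wh_eq s t x y] at hHs
      simp only [sm] at hHs
      have a1 := k false false
      have a2 := k false true
      have a3 := k true false
      have a4 := k true true
      intro p q
      apply (k p q).2
      cases p <;> cases q <;> omega
    obtain ⟨T3, h1, h2, h3⟩ := step45 hU hS hR h hOm hPP hDg hPP' hDg' hfbU hfbW d e hd he' hdn
      (Or.inl ⟨by
        intro r hr
        have k := cell_zero (s := s) (t := t) (x := x) (y := y) hr
        generalize hx : r x = a at *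
        generalize hy : r y = b at *
        cases a <;> cases b
        · rfl
        · exact absurd (hN _ _).2 k
        · exact absurd (hN _ _).1 k
        · rfl, fun p q => (hFG p q).2⟩)
    exact ⟨d, e, T3, h1, h2, h3, hd, he, Or.inl ⟨true, hdn true⟩⟩
  · -- all cells have `x ≠ y`
    have hN : ∀ p q, wt (w4 s t x y p q true true) T = 0 ∧
        wt (w4 s t x y p q false false) T = 0 := by
      have k : ∀ p q, max 0 (wt (wf s t x p q) T + wt (wf s t y p q) T - wt (wn s t p q) T) = 0 ∧
          0 ≤ wt (w4 s t x y p q true true) T ∧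
          (wt (w4 s t x y p q true true) T = 0 →
          wt (w4 s t x y p q true true) T = 0 ∧ wt (w4 s t x y p q false false) T = 0) := by
        intro p q
        have k1 := w4_wt_nonneg s t x y p q true true T
        have k5 := (hFG p q).1
        rw [wf_x s t x y, wf_y s t x y, wn_eq s t x y] at k5
        rw [wf_x s t x y, wf_y s t x y, wn_eq s t x y]
        refine ⟨?_, k1, ?_⟩
        · omega
        · intro _
          constructor <;> omega
      rw [wh_eq s t x y] at hHs
      simp only [sm] at hHs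
      have a1 := k false false
      have a2 := k false true
      have a3 := k true false
      have a4 := k true true
      intro p q
      apply (k p q).2.2
      cases p <;> cases q <;> omega
    obtain ⟨T3, h1, h2, h3⟩ := step45 hU hS hR h hOm hPP hDg hPP' hDg' hfbU hfbW d e hd he' hdn
      (Or.inr ⟨by
        intro r hr
        have k := cell_zero (s := s) (t := t) (x := x) (y := y) hr
        generalize hx : r x = a at *
        generalize hy : r y = b at *
        cases a <;> cases b
        · exact absurd (hN _ _).2 k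
        · rfl
        · rfl
        · exact absurd (hN _ _).1 k, fun p q => (hFG p q).2⟩)
    exact ⟨d, e, T3, h1, h2, h3, hd, he, Or.inl ⟨true, hdn true⟩⟩

/-- (3) the induction on the distance -/
theorem main (hU : StmtUnit) (hS : StmtSlice) (hR : StmtReal) (hL : StmtLat)
    (h : Cr G1 G2 U W s t x y) (hOm : Dg (Om G1 G2 s t x y)) (hOm' : Dg (Om G2 G1 t s y x))
    (hPP : PP G1 x t) (hDg : Dg (ad G1 x t)) (hPP' : PP G2 y s) (hDg' : Dg (ad G2 y s)) (n : ℕ) :
    ∀ T T' : Tab V, Fb (ad (cone s G1 ∪ cone t G2) x y) T T' →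
    (wt (wf s t x false true) T - wt (wf s t x false true) T').natAbs +
      (wt (wf s t x true true) T - wt (wf s t x true true) T').natAbs +
      (wt (wf s t y true false) T - wt (wf s t y true false) T').natAbs +
      (wt (wf s t y true true) T - wt (wf s t y true true) T').natAbs ≤ n →
    Cn (ad (cone s G1 ∪ cone t G2) x y) 4 T T' := by
  induction n with
  | zero =>
    intro T T' hf hm
    obtain ⟨-, hsx, hty, -, -⟩ := fb_par h (fb_ad.1 hf).2
    have k1 := sumF (t := t) hsx false
    have k2 := sumF (t := t) hsx true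
    have k3 := sumF (s := t) (t := s) (x := y) hty false
    have k4 := sumF (s := t) (t := s) (x := y) hty true
    rw [wf_sw s t y, wf_sw s t y, wf_sw s t y, wf_sw s t y] at k3 k4
    refine caseC h hOm _ T T' hf ?_ ?_ le_rfl
    · intro p q
      cases p <;> cases q <;> omega
    · intro p q
      cases p <;> cases q <;> omega
  | succ n ih =>
    intro T T' hf hm
    by_cases hFG : (∀ p q, wt (wf s t x p q) T = wt (wf s t x p q) T') ∧
      ∀ p q, wt (wf s t y p q) T = wt (wf s t y p q) T'
    · exact caseC h hOm _ T T' hf hFG.1 hFG.2 le_rfl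
    · obtain ⟨d, e, T3, h1, h2, h3, h4, h5, h6⟩ :=
        one_step hU hS hR hL h hOm hOm' hPP hDg hPP' hDg' hf hFG
      refine h1.trans (ih T3 T' (h1.fb.symm.trans hf) ?_)
      have e1 := h2 false true
      have e2 := h2 true true
      have e3 := h3 true false
      have e4 := h3 true true
      simp only [dF, if_true] at e1 e2 e3 e4
      rw [e1, e2, e3, e4]
      have d1 := h4 false
      have d2 := h4 true
      have d3 := h5 false
      have d4 := h5 true
      rcases h6 with ⟨p, hp⟩ | ⟨q, hq⟩
      · cases p <;> omega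
      · cases q <;> omega

end

end CrossDN

/-- Crossed cones with the edge `xy`. -/
theorem tCrossD (hU : StmtUnit) (_hF : StmtFace) (_hC : StmtCone) (hO : StmtOmega)
    (hS : StmtSlice) (hR : StmtReal) (hL : StmtLat) : StmtCrossD := by
  intro V _ G1 G2 U W s t x y h hPP hDg hPP' hDg' T T' hf
  exact CrossDN.main hU hS hR hL h (hO V G1 G2 U W s t x y h hDg hDg')
    (hO V G2 G1 W U t s y x (CrossDN.Cr_swap h) hDg' hDg) hPP hDg hPP' hDg' _ T T' hf le_rfl

end Pool.Agent.Lib.MP_73b196_co.Fib
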