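import Mathlib

/-!
# Fibres as multisets of cells

A table is a multiset of cells `V → Bool`. Vertex sets and complexes live on a fixed ambient type `V`;
coordinates outside the support of a complex are irrelevant (moves of degree one may change them).
-/

set_option autoImplicit false

namespace Pool.Agent.Lib.MP_73b196_co.Fib

variable {V : Type} [DecidableEq V]

/-- A table: a multiset of cells. -/
abbrev Tab (V : Type) := Multiset (V → Bool)

/-- Restriction of a cell to `F` (the other coordinates are set to `false`). -/
def rs (F : Finset V) (t : V → Bool) : V → Bool := fun v => if v ∈ F then t v else false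

/-- The same `F`-marginal. -/
def Eqm (F : Finset V) (A B : Tab V) : Prop := A.map (rs F) = B.map (rs F)

/-- The same marginals for all members of `Δ`. -/
def Fb (Δ : Set (Finset V)) (A B : Tab V) : Prop := ∀ F ∈ Δ, Eqm F A B

/-- A move of degree at most `k`. -/
def Mv (Δ : Set (Finset V)) (k : ℕ) (T T' : Tab V) : Prop :=
  ∃ C A B : Tab V, T = C + A ∧ T' = C + B ∧ A.card ≤ k ∧ Fb Δ A B

/-- Connected by moves of degree at most `k`. -/
def Cn (Δ : Set (Finset V)) (k : ℕ) : Tab V → Tab V → Prop := Relation.ReflTransGen (Mv Δ k)

/-- All fibres of `Δ` are connected by moves of degree at most four. -/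
def Dg (Δ : Set (Finset V)) : Prop := ∀ T T', Fb Δ T T' → Cn Δ 4 T T'

/-- The complex with the added edge. -/
def ad (Γ : Set (Finset V)) (x y : V) : Set (Finset V) := insert {x, y} Γ

/-- The relation of property (P): moves of degree at most two, and moves of degree at most four which
keep the `{x, y}`-marginal. -/
def Pr (Γ : Set (Finset V)) (x y : V) (A B : Tab V) : Prop := Mv (ad Γ x y) 4 A B ∨ Mv Γ 2 A B

/-- Property (P). -/
def PP (Γ : Set (Finset V)) (x y : V) : Prop :=
  ∀ T T', Fb Γ T T' → Relation.ReflTransGen (Pr Γ x y) T T'

/-- The height: the number of cells with `x = y = 1`. -/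
def ht (x y : V) (T : Tab V) : ℕ := T.countP fun t => t x = true ∧ t y = true

/-- All subsets of `U`. -/
def pw (U : Finset V) : Set (Finset V) := {F | F ⊆ U}

/-- The cone with apex `a`. -/
def cone (a : V) (Γ : Set (Finset V)) : Set (Finset V) := {F | F.erase a ∈ Γ}

/-- The cell which is `t` on `U` and `s` elsewhere. -/
def gl (U : Finset V) (t s : V → Bool) : V → Bool := fun v => if v ∈ U then t v else s v

end Pool.Agent.Lib.MP_73b196_co.Fib
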