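import Pool.Agent.Lib.MP_73b196_co.Fib.Spec

/-!
# Gluing along a face, series composition, crossed cones: the lifting theorems
-/

set_option autoImplicit false

namespace Pool.Agent.Lib.MP_73b196_co.Fib.FaceN

variable {V : Type} [DecidableEq V]

theorem sub_self {Δ Δ' : Set (Finset V)} (h : Δ' ⊆ Δ) : ∀ F ∈ Δ', ∃ G ∈ Δ, F ⊆ G :=
  fun F hF => ⟨F, h hF, Finset.Subset.refl F⟩

/-- Lift of a general path, whose steps are of two kinds. -/
theorem lift2 {Δ Δ' : Set (Finset V)} {k k' : ℕ} {U W W' : Finset V}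
    (hΔ : On Δ U) (hΔ' : On Δ' U) (hW : W' ⊆ W) (hS : ∃ G ∈ Δ, U ∩ W ⊆ G)
    (hS' : ∃ G ∈ Δ', U ∩ W' ⊆ G) {A B T : Tab V}
    (h : Relation.ReflTransGen (fun A B => Mv Δ k A B ∨ Mv Δ' k' A B) A B) (hT : Eqm U T A) :
    ∃ T', Eqm U T' B ∧ Eqm W' T' T ∧
      Relation.ReflTransGen (fun A B => Mv (Δ ∪ pw W) k A B ∨ Mv (Δ' ∪ pw W') k' A B) T T' := by
  induction h with
  | refl => exact ⟨T, hT, Eqm.refl _ _, Relation.ReflTransGen.refl⟩
  | tail _ h ih =>
    obtain ⟨T1, h1, h2, h3⟩ := ih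
    rcases h with h | h
    · obtain ⟨T2, h4, h5, h6⟩ := h.lift hΔ hS h1
      exact ⟨T2, h4, (h5.mono hW).trans h2, Relation.ReflTransGen.tail h3 (Or.inl h6)⟩
    · obtain ⟨T2, h4, h5, h6⟩ := h.lift hΔ' hS' h1
      exact ⟨T2, h4, h5.trans h2, Relation.ReflTransGen.tail h3 (Or.inr h6)⟩

theorem pr_of {Γ Δ Δ' : Set (Finset V)} {x y : V} {k k' : ℕ} (hk : k ≤ 4) (hk' : k' ≤ 2)
    (h1 : ∀ F ∈ ad Γ x y, ∃ G ∈ Δ, F ⊆ G) (h2 : ∀ F ∈ Γ, ∃ G ∈ Δ', F ⊆ G) {A B : Tab V}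
    (h : Relation.ReflTransGen (fun A B => Mv Δ k A B ∨ Mv Δ' k' A B) A B) :
    Relation.ReflTransGen (Pr Γ x y) A B := by
  induction h with
  | refl => exact Relation.ReflTransGen.refl
  | tail _ h ih =>
    refine Relation.ReflTransGen.tail ih ?_
    rcases h with h | h
    · exact Or.inl (h.mono h1 hk)
    · exact Or.inr (h.mono h2 hk')

theorem cn_pr {Γ Δ : Set (Finset V)} {x y : V} {k : ℕ} (hk : k ≤ 2)
    (h1 : ∀ F ∈ Γ, ∃ G ∈ Δ, F ⊆ G) {A B : Tab V} (h : Cn Δ k A B) :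
    Relation.ReflTransGen (Pr Γ x y) A B := by
  induction h with
  | refl => exact Relation.ReflTransGen.refl
  | tail _ h ih => exact Relation.ReflTransGen.tail ih (Or.inr (Mv.mono h1 hk h))

theorem cn_pr' {Γ Δ : Set (Finset V)} {x y : V} {k : ℕ} (hk : k ≤ 4)
    (h1 : ∀ F ∈ ad Γ x y, ∃ G ∈ Δ, F ⊆ G) {A B : Tab V} (h : Cn Δ k A B) :
    Relation.ReflTransGen (Pr Γ x y) A B := by
  induction h with
  | refl => exact Relation.ReflTransGen.refl
  | tail _ h ih => exact Relation.ReflTransGen.tail ih (Or.inl (Mv.mono h1 hk h))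

theorem union_cov {Δ1 Δ2 : Set (Finset V)} {W : Finset V} (h : On Δ2 W) :
    ∀ F ∈ Δ1 ∪ Δ2, ∃ G ∈ Δ1 ∪ pw W, F ⊆ G := by
  rintro F (hF | hF)
  · exact ⟨F, Or.inl hF, Finset.Subset.refl F⟩
  · exact ⟨F, Or.inr (h F hF), Finset.Subset.refl F⟩

theorem union_cov' {Δ1 Δ2 : Set (Finset V)} {U : Finset V} (h : On Δ1 U) :
    ∀ F ∈ Δ1 ∪ Δ2, ∃ G ∈ Δ2 ∪ pw U, F ⊆ G := by
  rintro F (hF | hF)
  · exact ⟨F, Or.inr (h F hF), Finset.Subset.refl F⟩
  · exact ⟨F, Or.inl hF, Finset.Subset.refl F⟩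

theorem union_pw {Δ1 Δ2 : Set (Finset V)} {U W : Finset V} (h1 : On Δ1 U) (h2 : On Δ2 W) :
    ∀ F ∈ Δ1 ∪ Δ2, ∃ G ∈ pw U ∪ pw W, F ⊆ G := by
  rintro F (hF | hF)
  · exact ⟨F, Or.inl (h1 F hF), Finset.Subset.refl F⟩
  · exact ⟨F, Or.inr (h2 F hF), Finset.Subset.refl F⟩

end Pool.Agent.Lib.MP_73b196_co.Fib.FaceN

namespace Pool.Agent.Lib.MP_73b196_co.Fib

open FaceN

theorem tFace : StmtFace := by
  intro V _ Δ1 Δ2 U W h1 h2 hS1 hS2 hD1 hD2 T T' hT
  have hT1 := (fb_union.1 hT).1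
  have hT2 := (fb_union.1 hT).2
  obtain ⟨T1, a1, a2, a3⟩ := (hD1 T T' hT1).lift (W := W) h1 ⟨_, hS1, Finset.Subset.refl _⟩
    (Eqm.refl U T)
  have hf : Fb Δ2 T1 T' := fun F hF => (a2.mono (h2 F hF)).trans (hT2 F hF)
  obtain ⟨T2, b1, b2, b3⟩ := (hD2 T1 T' hf).lift (W := U) h2
    ⟨_, hS2, by rw [Finset.inter_comm]⟩ (Eqm.refl W T1)
  refine (a3.mono (union_cov h2) le_rfl).trans ((b3.mono (union_cov' h1) le_rfl).trans ?_)
  exact (match_cn (b2.trans a1) b1).mono (union_pw h1 h2) (by norm_num)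

theorem tFaceP : StmtFaceP := by
  intro V _ Γ1 Δ2 U W x y h1 h2 hS1 hS2 hx hy hP hD T T' hT
  have hT1 := (fb_union.1 hT).1
  have hT2 := (fb_union.1 hT).2
  have hxy : ({x, y} : Finset V) ⊆ U := by
    intro v hv
    rw [Finset.mem_insert, Finset.mem_singleton] at hv
    rcases hv with rfl | rfl
    · exact hx
    · exact hy
  have had : On (ad Γ1 x y) U := by
    intro F hF
    rcases Set.mem_insert_iff.1 hF with rfl | hF
    · exact hxy
    · exact h1 F hF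
  obtain ⟨T1, a1, a2, a3⟩ := lift2 (W := W) (W' := W) had h1 (Finset.Subset.refl W)
    ⟨_, Set.mem_insert_of_mem _ hS1, Finset.Subset.refl _⟩ ⟨_, hS1, Finset.Subset.refl _⟩
    (hP T T' hT1) (Eqm.refl U T)
  have hf : Fb Δ2 T1 T' := fun F hF => (a2.mono (h2 F hF)).trans (hT2 F hF)
  obtain ⟨T2, b1, b2, b3⟩ := (hD T1 T' hf).lift (W := U) h2
    ⟨_, hS2, by rw [Finset.inter_comm]⟩ (Eqm.refl W T1)
  refine (pr_of le_rfl le_rfl ?_ (union_cov h2) a3).trans ?_
  · intro F hF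
    rcases Set.mem_insert_iff.1 hF with rfl | (hF | hF)
    · exact ⟨_, Or.inl (Set.mem_insert _ _), Finset.Subset.refl _⟩
    · exact ⟨_, Or.inl (Set.mem_insert_of_mem _ hF), Finset.Subset.refl _⟩
    · exact ⟨_, Or.inr (h2 F hF), Finset.Subset.refl _⟩
  refine (cn_pr' le_rfl ?_ b3).trans ?_
  · intro F hF
    rcases Set.mem_insert_iff.1 hF with rfl | (hF | hF)
    · exact ⟨_, Or.inr hxy, Finset.Subset.refl _⟩
    · exact ⟨_, Or.inr (h1 F hF), Finset.Subset.refl _⟩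
    · exact ⟨_, Or.inl hF, Finset.Subset.refl _⟩
  exact cn_pr le_rfl (union_pw h1 h2) (match_cn (b2.trans a1) b1)

/-- The common pattern of `Ser` and `CrossP`. -/
theorem ser_aux {V : Type} [DecidableEq V] {Γ1 Γ1' Γ2 Γ2' : Set (Finset V)} {U W : Finset V}
    {x y : V} (h1 : On Γ1 U) (h1' : On Γ1' U) (h2 : On Γ2 W) (h2' : On Γ2' W)
    (hc1 : ∀ F ∈ Γ1, ∃ G ∈ Γ1', F ⊆ G) (hc2 : ∀ F ∈ Γ2, ∃ G ∈ Γ2', F ⊆ G)
    (hx : x ∈ U) (hy : y ∈ W)
    (hS1 : ∃ G ∈ Γ1, U ∩ W ⊆ G) (hS2 : ∃ G ∈ Γ2, U ∩ W ⊆ G)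
    (hS1' : ∃ G ∈ Γ1', U ∩ insert x W ⊆ G) (hS2' : ∃ G ∈ Γ2', W ∩ insert y U ⊆ G)
    (hP1 : ∀ T T', Fb Γ1 T T' →
      Relation.ReflTransGen (fun A B => Mv Γ1' 4 A B ∨ Mv Γ1 2 A B) T T')
    (hP2 : ∀ T T', Fb Γ2 T T' →
      Relation.ReflTransGen (fun A B => Mv Γ2' 4 A B ∨ Mv Γ2 2 A B) T T') :
    PP (Γ1 ∪ Γ2) x y := by
  intro T T' hT
  have hT1 := (fb_union.1 hT).1
  have hT2 := (fb_union.1 hT).2
  obtain ⟨T1, a1, a2, a3⟩ := lift2 (W := insert x W) (W' := W) h1' h1 (Finset.subset_insert _ _)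
    hS1' hS1 (hP1 T T' hT1) (Eqm.refl U T)
  have hf : Fb Γ2 T1 T' := fun F hF => (a2.mono (h2 F hF)).trans (hT2 F hF)
  obtain ⟨G2, hG2, hG2'⟩ := hS2
  obtain ⟨T2, b1, b2, b3⟩ := lift2 (W := insert y U) (W' := U) h2' h2 (Finset.subset_insert _ _)
    hS2' ⟨G2, hG2, by rw [Finset.inter_comm]; exact hG2'⟩ (hP2 T1 T' hf) (Eqm.refl W T1)
  refine (pr_of le_rfl le_rfl ?_ (union_cov h2) a3).trans
    ((pr_of le_rfl le_rfl ?_ (union_cov' h1) b3).trans
      (cn_pr le_rfl (union_pw h1 h2) (match_cn (b2.trans a1) b1)))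
  · intro F hF
    rcases Set.mem_insert_iff.1 hF with rfl | (hF | hF)
    · refine ⟨insert x W, Or.inr (Finset.Subset.refl _), ?_⟩
      intro v hv
      rw [Finset.mem_insert, Finset.mem_singleton] at hv
      rcases hv with rfl | rfl
      · exact Finset.mem_insert_self _ _
      · exact Finset.mem_insert_of_mem hy
    · obtain ⟨G, hG, hFG⟩ := hc1 F hF
      exact ⟨G, Or.inl hG, hFG⟩
    · exact ⟨_, Or.inr ((h2 F hF).trans (Finset.subset_insert _ _)), Finset.Subset.refl _⟩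
  · intro F hF
    rcases Set.mem_insert_iff.1 hF with rfl | (hF | hF)
    · refine ⟨insert y U, Or.inr (Finset.Subset.refl _), ?_⟩
      intro v hv
      rw [Finset.mem_insert, Finset.mem_singleton] at hv
      rcases hv with rfl | rfl
      · exact Finset.mem_insert_of_mem hx
      · exact Finset.mem_insert_self _ _
    · exact ⟨_, Or.inr ((h1 F hF).trans (Finset.subset_insert _ _)), Finset.Subset.refl _⟩
    · obtain ⟨G, hG, hFG⟩ := hc2 F hF
      exact ⟨G, Or.inl hG, hFG⟩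

theorem on_ad {V : Type} [DecidableEq V] {Γ : Set (Finset V)} {U : Finset V} {x y : V}
    (h : On Γ U) (hx : x ∈ U) (hy : y ∈ U) : On (ad Γ x y) U := by
  intro F hF
  rcases Set.mem_insert_iff.1 hF with rfl | hF
  · intro v hv
    rw [Finset.mem_insert, Finset.mem_singleton] at hv
    rcases hv with rfl | rfl
    · exact hx
    · exact hy
  · exact h F hF

theorem tSer : StmtSer := by
  intro V _ Γ1 Γ2 U W x u y h1 h2 hUW hu1 hu2 hx hy hxu hyu hP1 hP2
  have huU : u ∈ U := (Finset.mem_inter.1 (by rw [hUW]; exact Finset.mem_singleton_self u)).1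
  have huW : u ∈ W := (Finset.mem_inter.1 (by rw [hUW]; exact Finset.mem_singleton_self u)).2
  refine ser_aux (Γ1' := ad Γ1 x u) (Γ2' := ad Γ2 u y) h1 (on_ad h1 hx huU) h2 (on_ad h2 huW hy)
    (fun F hF => ⟨F, Set.mem_insert_of_mem _ hF, Finset.Subset.refl F⟩)
    (fun F hF => ⟨F, Set.mem_insert_of_mem _ hF, Finset.Subset.refl F⟩) hx hy
    ⟨_, hu1, by rw [hUW]⟩ ⟨_, hu2, by rw [hUW]⟩ ⟨{x, u}, Set.mem_insert _ _, ?_⟩
    ⟨{u, y}, Set.mem_insert _ _, ?_⟩ hP1 hP2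
  · intro v hv
    rw [Finset.mem_inter, Finset.mem_insert] at hv
    rw [Finset.mem_insert]
    rcases hv with ⟨h3, rfl | h4⟩
    · exact Or.inl rfl
    · right
      rw [← hUW]
      exact Finset.mem_inter.2 ⟨h3, h4⟩
  · intro v hv
    rw [Finset.mem_inter, Finset.mem_insert] at hv
    rw [Finset.mem_insert, Finset.mem_singleton]
    rcases hv with ⟨h3, rfl | h4⟩
    · exact Or.inr rfl
    · left
      have : v ∈ U ∩ W := Finset.mem_inter.2 ⟨h4, h3⟩
      rw [hUW] at this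
      exact Finset.mem_singleton.1 this

theorem on_cone_ad {V : Type} [DecidableEq V] {G : Set (Finset V)} {U : Finset V} {s x t : V}
    (h : On (cone s G) U) (hs : s ∈ U) (hx : x ∈ U) (ht : t ∈ U) :
    On (cone s (ad G x t)) U := by
  intro F hF
  rcases Set.mem_insert_iff.1 (show F.erase s ∈ insert {x, t} G from hF) with hF | hF
  · intro v hv
    by_cases hvs : v = s
    · rw [hvs]; exact hs
    · have : v ∈ F.erase s := Finset.mem_erase.2 ⟨hvs, hv⟩
      rw [hF, Finset.mem_insert, Finset.mem_singleton] at this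
      rcases this with rfl | rfl
      · exact hx
      · exact ht
  · exact h F hF

theorem tCrossP : StmtCrossP := by
  intro V _ G1 G2 U W s t x y h1 h2 hUW hst ht1 hs2 hx hy hxs hxt hys hyt hP1 hP2
  have hsU : s ∈ U := (Finset.mem_inter.1 (by rw [hUW]; exact Finset.mem_insert_self _ _)).1
  have hsW : s ∈ W := (Finset.mem_inter.1 (by rw [hUW]; exact Finset.mem_insert_self _ _)).2
  have htU : t ∈ U := (Finset.mem_inter.1 (by rw [hUW]; simp)).1
  have htW : t ∈ W := (Finset.mem_inter.1 (by rw [hUW]; simp)).2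
  refine ser_aux (Γ1' := cone s (ad G1 x t)) (Γ2' := cone t (ad G2 y s)) h1
    (on_cone_ad h1 hsU hx htU) h2 (on_cone_ad h2 htW hy hsW)
    (fun F hF => ⟨F, Set.mem_insert_of_mem _ hF, Finset.Subset.refl F⟩)
    (fun F hF => ⟨F, Set.mem_insert_of_mem _ hF, Finset.Subset.refl F⟩) hx hy
    ⟨{s, t}, ?_, by rw [hUW]⟩ ⟨{s, t}, ?_, by rw [hUW]⟩ ⟨{s, x, t}, ?_, ?_⟩
    ⟨{t, y, s}, ?_, ?_⟩ hP1 hP2
  · show ({s, t} : Finset V).erase s ∈ G1
    have : ({s, t} : Finset V).erase s = {t} := by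
      rw [Finset.erase_insert]
      rw [Finset.mem_singleton]
      exact hst
    rw [this]
    exact ht1
  · show ({s, t} : Finset V).erase t ∈ G2
    have : ({s, t} : Finset V).erase t = {s} := by
      rw [Finset.pair_comm, Finset.erase_insert]
      rw [Finset.mem_singleton]
      exact hst.symm
    rw [this]
    exact hs2
  · show ({s, x, t} : Finset V).erase s ∈ insert {x, t} G1
    have : ({s, x, t} : Finset V).erase s = {x, t} := by
      rw [Finset.erase_insert]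
      rw [Finset.mem_insert, Finset.mem_singleton]
      rintro (h | h)
      · exact hxs h.symm
      · exact hst h
    rw [this]
    exact Set.mem_insert _ _
  · intro v hv
    rw [Finset.mem_inter, Finset.mem_insert] at hv
    rcases hv with ⟨h3, rfl | h4⟩
    · simp
    · have : v ∈ U ∩ W := Finset.mem_inter.2 ⟨h3, h4⟩
      rw [hUW, Finset.mem_insert, Finset.mem_singleton] at this
      rcases this with rfl | rfl <;> simp
  · show ({t, y, s} : Finset V).erase t ∈ insert {y, s} G2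
    have : ({t, y, s} : Finset V).erase t = {y, s} := by
      rw [Finset.erase_insert]
      rw [Finset.mem_insert, Finset.mem_singleton]
      rintro (h | h)
      · exact hyt h.symm
      · exact hst h.symm
    rw [this]
    exact Set.mem_insert _ _
  · intro v hv
    rw [Finset.mem_inter, Finset.mem_insert] at hv
    rcases hv with ⟨h3, rfl | h4⟩
    · simp
    · have : v ∈ U ∩ W := Finset.mem_inter.2 ⟨h4, h3⟩
      rw [hUW, Finset.mem_insert, Finset.mem_singleton] at this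
      rcases this with rfl | rfl <;> simp

end Pool.Agent.Lib.MP_73b196_co.Fib
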