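import Pool.Agent.Lib.MP_73b196_co.Fib.Spec

/-!
# Gluing along `M` with unit steps
-/

set_option autoImplicit false

namespace Pool.Agent.Lib.MP_73b196_co.Fib.GGN

variable {V : Type} [DecidableEq V]

/-- The relation of the statement. -/
def Rl (Δ : Set (Finset V)) (M : Finset V) (k : ℕ) (A B : Tab V) : Prop :=
  Mv (insert M Δ) 4 A B ∨ Mv Δ k A B

theorem cn_rl {Δ : Set (Finset V)} {M : Finset V} {k : ℕ} {A B : Tab V}
    (h : Cn (insert M Δ) 4 A B) : Relation.ReflTransGen (Rl Δ M k) A B := by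
  induction h with
  | refl => exact Relation.ReflTransGen.refl
  | tail _ h ih => exact Relation.ReflTransGen.tail ih (Or.inl h)

theorem eqm_cancel {M : Finset V} {C1 C2 A1 A2 : Tab V} (h : Eqm M (C1 + A1) (C2 + A2))
    (hA : Eqm M A1 A2) : Eqm M C1 C2 := by
  unfold Eqm at *
  rw [Multiset.map_add, Multiset.map_add, hA] at h
  exact add_right_cancel h

theorem fb_glue {Δ1 Δ2 : Set (Finset V)} {U W : Finset V} (h1 : On Δ1 U) (h2 : On Δ2 W)
    {A A1 A2 B B1 B2 : Tab V} (a1 : Eqm U A A1) (a2 : Eqm W A A2) (b1 : Eqm U B B1)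
    (b2 : Eqm W B B2) (f1 : Fb Δ1 A1 B1) (f2 : Fb Δ2 A2 B2) : Fb (Δ1 ∪ Δ2) A B := by
  rw [fb_union]
  constructor
  · intro F hF
    exact ((a1.mono (h1 F hF)).trans (f1 F hF)).trans (b1.mono (h1 F hF)).symm
  · intro F hF
    exact ((a2.mono (h2 F hF)).trans (f2 F hF)).trans (b2.mono (h2 F hF)).symm

theorem up {Δ1 Δ2 : Set (Finset V)} {U W M : Finset V} {k : ℕ} {h : Tab V → ℕ}
    {πA πB : Tab V} (on1 : On Δ1 U) (on2 : On Δ2 W) (hM : U ∩ W = M)
    (hk : πA.card ≤ k) (hinv : ∀ T T', Eqm M T T' → h T = h T')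
    (hstep : ∀ C, h (C + πB) = h (C + πA) + 1)
    (he1 : ∀ T T', Fb Δ1 T T' → h T = h T' → Eqm M T T')
    (q1 : ∀ T T', Fb Δ1 T T' → h T < h T' → ∃ C A B, Cn (insert M Δ1) 4 T (C + A) ∧ Fb Δ1 A B ∧
      Eqm M A πA ∧ Eqm M B πB)
    (q2 : ∀ T T', Fb Δ2 T T' → h T < h T' → ∃ C A B, Cn (insert M Δ2) 4 T (C + A) ∧ Fb Δ2 A B ∧
      Eqm M A πA ∧ Eqm M B πB)
    (hD : Dg (insert M (Δ1 ∪ Δ2))) (n : ℕ) :
    ∀ T T', Fb (Δ1 ∪ Δ2) T T' → h T ≤ h T' → h T' - h T = n →
      Relation.ReflTransGen (Rl (Δ1 ∪ Δ2) M k) T T' := by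
  have hMU : M ⊆ U := by rw [← hM]; exact Finset.inter_subset_left
  have hMW : M ⊆ W := by rw [← hM]; exact Finset.inter_subset_right
  induction n with
  | zero =>
    intro T T' hf hle hn
    have heq : h T = h T' := by omega
    have hE := he1 T T' (hf.mono Set.subset_union_left) heq
    refine cn_rl (hD T T' ?_)
    intro F hF
    rcases Set.mem_insert_iff.1 hF with rfl | hF
    · exact hE
    · exact hf F hF
  | succ n ih =>
    intro T T' hf hle hn
    have hlt : h T < h T' := by omega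
    obtain ⟨C1, A1, B1, c1, f1, a1, b1⟩ := q1 T T' (hf.mono Set.subset_union_left) hlt
    obtain ⟨C2, A2, B2, c2, f2, a2, b2⟩ := q2 T T' (hf.mono Set.subset_union_right) hlt
    obtain ⟨T1, u1, w1, r1⟩ := Cn.lift (U := U) (W := W) (Δ := insert M Δ1) (by
      intro F hF
      rcases Set.mem_insert_iff.1 hF with rfl | hF
      · exact hMU
      · exact on1 F hF) ⟨M, Set.mem_insert _ _, by rw [hM]⟩ c1 (Eqm.refl U T)
    obtain ⟨T2, w2, u2, r2⟩ := Cn.lift (U := W) (W := U) (Δ := insert M Δ2) (by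
      intro F hF
      rcases Set.mem_insert_iff.1 hF with rfl | hF
      · exact hMW
      · exact on2 F hF) ⟨M, Set.mem_insert _ _, by rw [Finset.inter_comm, hM]⟩ c2 w1
    have hU2 : Eqm U T2 (C1 + A1) := u2.trans u1
    have hW2 : Eqm W T2 (C2 + A2) := w2
    have hA12 : Eqm M A1 A2 := a1.trans a2.symm
    have hC12 : Eqm M C1 C2 :=
      eqm_cancel (((hU2.mono hMU).symm).trans (hW2.mono hMW)) hA12
    have hB12 : Eqm M B1 B2 := b1.trans b2.symm
    obtain ⟨C, cU, cW⟩ := exists_glue U W C1 C2 (by rw [hM]; exact hC12)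
    obtain ⟨A, aU, aW⟩ := exists_glue U W A1 A2 (by rw [hM]; exact hA12)
    obtain ⟨B, bU, bW⟩ := exists_glue U W B1 B2 (by rw [hM]; exact hB12)
    have s1 : Cn (insert M (Δ1 ∪ Δ2)) 4 T T1 := r1.mono (by
      intro F hF
      rcases Set.mem_insert_iff.1 hF with rfl | (hF | hF)
      · exact ⟨_, Or.inl (Set.mem_insert _ _), Finset.Subset.refl _⟩
      · exact ⟨F, Or.inl (Set.mem_insert_of_mem _ hF), Finset.Subset.refl _⟩
      · exact ⟨W, Or.inr (Finset.Subset.refl W), on2 F hF⟩) le_rfl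
    have s2 : Cn (insert M (Δ1 ∪ Δ2)) 4 T1 T2 := r2.mono (by
      intro F hF
      rcases Set.mem_insert_iff.1 hF with rfl | (hF | hF)
      · exact ⟨_, Or.inl (Set.mem_insert _ _), Finset.Subset.refl _⟩
      · exact ⟨U, Or.inr (Finset.Subset.refl U), on1 F hF⟩
      · exact ⟨F, Or.inl (Set.mem_insert_of_mem _ hF), Finset.Subset.refl _⟩) le_rfl
    have s3 : Cn (insert M (Δ1 ∪ Δ2)) 4 T2 (C + A) := by
      refine Cn.mono ?_ (by norm_num) (match_cn (U := U) (W := W)
        (hU2.trans (cU.add aU).symm) (hW2.trans (cW.add aW).symm))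
      intro F hF
      rcases Set.mem_insert_iff.1 hF with rfl | (hF | hF)
      · exact ⟨U, Or.inl (Finset.Subset.refl U), hMU⟩
      · exact ⟨U, Or.inl (Finset.Subset.refl U), on1 F hF⟩
      · exact ⟨W, Or.inr (Finset.Subset.refl W), on2 F hF⟩
    have s4 : Cn (insert M (Δ1 ∪ Δ2)) 4 T (C + A) := (s1.trans s2).trans s3
    have fAB : Fb (Δ1 ∪ Δ2) A B := fb_glue on1 on2 aU aW bU bW f1 f2
    have mv : Mv (Δ1 ∪ Δ2) k (C + A) (C + B) := by
      refine ⟨C, A, B, rfl, rfl, ?_, fAB⟩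
      rw [aU.card, a1.card]
      exact hk
    have hAp : Eqm M A πA := (aU.mono hMU).trans a1
    have hBp : Eqm M B πB := (bU.mono hMU).trans b1
    have e1 : h (C + B) = h T + 1 := by
      rw [hinv _ _ ((Eqm.refl M C).add hBp), hstep, ← hinv _ _ ((Eqm.refl M C).add hAp)]
      rw [hinv _ _ (s4.fb M (Set.mem_insert _ _))]
    have f4 : Fb (Δ1 ∪ Δ2) (C + B) T' := by
      have g1 : Fb (Δ1 ∪ Δ2) T (C + A) := s4.fb.mono (Set.subset_insert _ _)
      exact ((g1.trans mv.fb).symm).trans hf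
    have r5 := ih (C + B) T' f4 (by omega) (by omega)
    exact (cn_rl s4).trans (Relation.ReflTransGen.head (Or.inr mv) r5)

end Pool.Agent.Lib.MP_73b196_co.Fib.GGN

namespace Pool.Agent.Lib.MP_73b196_co.Fib

open GGN

theorem tGG (hFace : StmtFace) : StmtGG := by
  intro V _ Δ1 Δ2 U W M k h πA πB on1 on2 hM h0 _ hk hinv hstep he1 _ q1 q2 d1 d2 T T' hf
  have hMU : M ⊆ U := by rw [← hM]; exact Finset.inter_subset_left
  have hMW : M ⊆ W := by rw [← hM]; exact Finset.inter_subset_right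
  have hD : Dg (insert M (Δ1 ∪ Δ2)) := by
    rw [Set.insert_union_distrib]
    refine hFace V (insert M Δ1) (insert M Δ2) U W ?_ ?_ ?_ ?_ d1 d2
    · intro F hF
      rcases Set.mem_insert_iff.1 hF with rfl | hF
      · exact hMU
      · exact on1 F hF
    · intro F hF
      rcases Set.mem_insert_iff.1 hF with rfl | hF
      · exact hMW
      · exact on2 F hF
    · rw [hM]; exact Set.mem_insert _ _
    · rw [hM]; exact Set.mem_insert _ _
  have key := fun n => up on1 on2 hM hk hinv hstep he1 q1 q2 hD n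
  rcases le_total (h T) (h T') with hle | hle
  · exact key _ T T' hf hle rfl
  · have h1 := key _ T' T hf.symm hle rfl
    have hsymm : ∀ A B, Rl (Δ1 ∪ Δ2) M k A B → Rl (Δ1 ∪ Δ2) M k B A := by
      rintro A B (h2 | h2)
      · exact Or.inl (h2.symm ⟨M, Set.mem_insert _ _⟩)
      · exact Or.inr (h2.symm ⟨∅, Or.inl h0⟩)
    have hrev : ∀ A B, Relation.ReflTransGen (Rl (Δ1 ∪ Δ2) M k) A B →
        Relation.ReflTransGen (Rl (Δ1 ∪ Δ2) M k) B A := by
      intro A B h3
      induction h3 with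
      | refl => exact Relation.ReflTransGen.refl
      | tail _ h4 ih => exact Relation.ReflTransGen.head (hsymm _ _ h4) ih
    exact hrev _ _ h1

end Pool.Agent.Lib.MP_73b196_co.Fib
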