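import Pool.Agent.Lib.MP_73b196_co.Fib.Spec

/-!
# The lattice lemma
-/

set_option autoImplicit false

namespace Pool.Agent.Lib.MP_73b196_co.Fib

namespace LatN

theorem lemA (Fu Gu nu Fv Gv nv Hi Lo H : ℤ) (h1 : Lo ≤ H) (h2 : H ≤ Hi)
    (hno : ¬ (Lo + (max 0 (Fu + 1 + Gu - nu) - max 0 (Fu + Gu - nu)) +
      (max 0 (Fv - 1 + Gv - nv) - max 0 (Fv + Gv - nv)) ≤ H ∧
      H ≤ Hi + (min (Fu + 1) Gu - min Fu Gu) + (min (Fv - 1) Gv - min Fv Gv))) :
    (H = Hi ∧ Gu ≤ Fu ∧ Fv ≤ Gv) ∨ (H = Lo ∧ nu ≤ Fu + Gu ∧ Fv + Gv ≤ nv) := by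
  omega

/-- a failed step has one of two types -/
theorem stepF (n F G F' : Bool → Bool → ℤ) (H : ℤ)
    (hs : ∀ p, F p false + F p true = F' p false + F' p true)
    (hLo : sm (fun p q => max 0 (F p q + G p q - n p q)) ≤ H)
    (hHi : H ≤ sm (fun p q => min (F p q) (G p q))) (p : Bool) (hp : F p true ≠ F' p true)
    (hno : ∀ d : Bool → ℤ, (∀ p, d p = 0 ∨ (d p = 1 ∧ F p true < F' p true) ∨
        (d p = -1 ∧ F' p true < F p true)) → d p ≠ 0 → d (!p) = 0 →
      ¬ (sm (fun p q => max 0 (F p q + dF d p q + G p q - n p q)) ≤ H ∧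
        H ≤ sm (fun p q => min (F p q + dF d p q) (G p q)))) :
    (H = sm (fun p q => min (F p q) (G p q)) ∧ ∀ q, (0 < F' p q - F p q → G p q ≤ F p q) ∧
      (F' p q - F p q < 0 → F p q ≤ G p q)) ∨
    (H = sm (fun p q => max 0 (F p q + G p q - n p q)) ∧
      ∀ q, (0 < F' p q - F p q → n p q ≤ F p q + G p q) ∧
      (F' p q - F p q < 0 → F p q + G p q ≤ n p q)) := by
  have hsp := hs p
  rcases lt_or_gt_of_ne hp with h | h
  · -- upwards at `true`
    have h1 := hno (fun p' => if p' = p then 1 else 0)
      (by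
        intro p'
        by_cases hpp : p' = p
        · right; left
          subst hpp
          exact ⟨if_pos rfl, h⟩
        · left
          exact if_neg hpp) (by simp) (by cases p <;> rfl)
    have h2 := lemA (F p true) (G p true) (n p true) (F p false) (G p false) (n p false)
      (sm (fun p q => min (F p q) (G p q))) (sm (fun p q => max 0 (F p q + G p q - n p q))) H
      hLo hHi (by
        intro h3
        apply h1
        refine ⟨le_trans (le_of_eq ?_) h3.1, le_trans h3.2 (le_of_eq ?_)⟩
        · cases p <;> simp [sm, dF] <;> ring_nf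
        · cases p <;> simp [sm, dF] <;> ring_nf)
    rcases h2 with ⟨h3, h4, h5⟩ | ⟨h3, h4, h5⟩
    · left
      refine ⟨h3, fun q => ?_⟩
      cases q
      · exact ⟨fun h6 => by omega, fun _ => h5⟩
      · exact ⟨fun _ => h4, fun h6 => by omega⟩
    · right
      refine ⟨h3, fun q => ?_⟩
      cases q
      · exact ⟨fun h6 => by omega, fun _ => h5⟩
      · exact ⟨fun _ => h4, fun h6 => by omega⟩
  · -- downwards at `true`
    have h1 := hno (fun p' => if p' = p then -1 else 0)
      (by
        intro p'
        by_cases hpp : p' = p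
        · right; right
          subst hpp
          exact ⟨if_pos rfl, h⟩
        · left
          exact if_neg hpp) (by simp) (by cases p <;> rfl)
    have h2 := lemA (F p false) (G p false) (n p false) (F p true) (G p true) (n p true)
      (sm (fun p q => min (F p q) (G p q))) (sm (fun p q => max 0 (F p q + G p q - n p q))) H
      hLo hHi (by
        intro h3
        apply h1
        refine ⟨le_trans (le_of_eq ?_) h3.1, le_trans h3.2 (le_of_eq ?_)⟩
        · cases p <;> simp [sm, dF] <;> ring_nf
        · cases p <;> simp [sm, dF] <;> ring_nf)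
    rcases h2 with ⟨h3, h4, h5⟩ | ⟨h3, h4, h5⟩
    · left
      refine ⟨h3, fun q => ?_⟩
      cases q
      · exact ⟨fun _ => h4, fun h6 => by omega⟩
      · exact ⟨fun h6 => by omega, fun _ => h5⟩
    · right
      refine ⟨h3, fun q => ?_⟩
      cases q
      · exact ⟨fun _ => h4, fun h6 => by omega⟩
      · exact ⟨fun h6 => by omega, fun _ => h5⟩

theorem min_state (F G F' G' : ℤ) (h1 : 0 < F' - F → G ≤ F) (h2 : F' - F < 0 → F ≤ G)
    (h3 : 0 < G' - G → F ≤ G) (h4 : G' - G < 0 → G ≤ F) :
    min F' G' ≤ min F G + min (F' - F) (G' - G) := by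
  omega

/-- if all steps fail downwards, the differences agree -/
theorem core (F G F' G' : Bool → Bool → ℤ) (H : ℤ)
    (hF : ∀ p, F p false + F p true = F' p false + F' p true)
    (hG : ∀ q, G false q + G true q = G' false q + G' true q)
    (hHi' : H ≤ sm (fun p q => min (F' p q) (G' p q)))
    (hH : H = sm (fun p q => min (F p q) (G p q)))
    (hFM : ∀ p q, (0 < F' p q - F p q → G p q ≤ F p q) ∧ (F' p q - F p q < 0 → F p q ≤ G p q))
    (hGM : ∀ p q, (0 < G' p q - G p q → F p q ≤ G p q) ∧ (G' p q - G p q < 0 → G p q ≤ F p q))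
    (hne : F ≠ F' ∨ G ≠ G') :
    ∀ p q, F p q = G p q ∧ F' p q - F p q = G' p q - G p q ∧ F' p q ≠ F p q := by
  have h1 : ∀ p q, min (F' p q) (G' p q) ≤ min (F p q) (G p q) +
      min (F' p q - F p q) (G' p q - G p q) := fun p q =>
    min_state _ _ _ _ (hFM p q).1 (hFM p q).2 (hGM p q).1 (hGM p q).2
  have hD : ∀ p q, F' p q - F p q = G' p q - G p q := by
    have e1 := h1 false false
    have e2 := h1 false true
    have e3 := h1 true false
    have e4 := h1 true true
    have f1 := hF false
    have f2 := hF true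
    have g1 := hG false
    have g2 := hG true
    unfold sm at hHi' hH
    simp only at hHi' hH
    have a1 := min_le_left (F' false false - F false false) (G' false false - G false false)
    have a2 := min_le_left (F' false true - F false true) (G' false true - G false true)
    have a3 := min_le_left (F' true false - F true false) (G' true false - G true false)
    have a4 := min_le_left (F' true true - F true true) (G' true true - G true true)
    have b1 := min_le_right (F' false false - F false false) (G' false false - G false false)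
    have b2 := min_le_right (F' false true - F false true) (G' false true - G false true)
    have b3 := min_le_right (F' true false - F true false) (G' true false - G true false)
    have b4 := min_le_right (F' true true - F true true) (G' true true - G true true)
    intro p q
    cases p <;> cases q <;> linarith
  have hne' : ∀ p q, F' p q ≠ F p q := by
    have f1 := hF false
    have f2 := hF true
    have g1 := hG false
    have g2 := hG true
    have d1 := hD false false
    have d2 := hD false true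
    have d3 := hD true false
    have d4 := hD true true
    intro p q h0
    have h2 : ∀ p q, F' p q = F p q := by
      intro p' q'
      cases p <;> cases q <;> cases p' <;> cases q' <;> linarith
    rcases hne with hn | hn
    · apply hn
      funext p q
      exact (h2 p q).symm
    · apply hn
      funext p q
      have h3 := h2 p q
      have h4 := hD p q
      linarith
  intro p q
  refine ⟨?_, hD p q, hne' p q⟩
  have h2 := hD p q
  have h3 := hFM p q
  have h4 := hGM p q
  have h5 := hne' p q
  rcases lt_or_gt_of_ne h5 with h6 | h6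
  · exact le_antisymm (h3.2 (by linarith)) (h4.2 (by linarith))
  · exact le_antisymm (h4.1 (by linarith)) (h3.1 (by linarith))

theorem dF_sign (F F' : Bool → Bool → ℤ)
    (hF : ∀ p, F p false + F p true = F' p false + F' p true) (p q : Bool) :
    dF (fun p => Int.sign (F' p true - F p true)) p q = Int.sign (F' p q - F p q) := by
  unfold dF
  cases q
  · have h1 : F' p false - F p false = -(F' p true - F p true) := by
      have := hF p
      linarith
    rw [h1, Int.sign_neg]
    rfl
  · rfl

theorem sign_ok (a b : ℤ) : Int.sign (b - a) = 0 ∨ (Int.sign (b - a) = 1 ∧ a < b) ∨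
    (Int.sign (b - a) = -1 ∧ b < a) := by
  rcases lt_trichotomy a b with h | h | h
  · right; left
    exact ⟨Int.sign_eq_one_of_pos (by linarith), h⟩
  · left
    rw [h, sub_self]
    rfl
  · right; right
    exact ⟨Int.sign_eq_neg_one_of_neg (by linarith), h⟩

theorem sm_swap (f : Bool → Bool → ℤ) : sm (fun p q => f q p) = sm f := by
  unfold sm
  ring

/-- in every state one of the functions is extreme -/
theorem extreme (n F G : Bool → Bool → ℤ)
    (h : ∀ p q, 0 ≤ F p q ∧ F p q ≤ n p q ∧ 0 ≤ G p q ∧ G p q ≤ n p q)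
    (he : sm (fun p q => min (F p q) (G p q)) = sm (fun p q => max 0 (F p q + G p q - n p q))) :
    ∀ p q, min (F p q) (G p q) = max 0 (F p q + G p q - n p q) := by
  have h1 : ∀ p q, max 0 (F p q + G p q - n p q) ≤ min (F p q) (G p q) := by
    intro p q
    have := h p q
    omega
  have e1 := h1 false false
  have e2 := h1 false true
  have e3 := h1 true false
  have e4 := h1 true true
  unfold sm at he
  simp only at he
  intro p q
  cases p <;> cases q <;> linarith

/-- the strong form of the types at a state -/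
theorem typeM (n F G F' : ℤ) (h0 : 0 ≤ F ∧ F ≤ n ∧ 0 ≤ G ∧ G ≤ n) (h1 : 0 ≤ F') (h2 : F' ≤ n)
    (hX : min F G = max 0 (F + G - n)) (h3 : 0 < F' - F → G ≤ F) (h4 : F' - F < 0 → F ≤ G) :
    (0 < F' - F → G = 0 ∧ F < n) ∧ (F' - F < 0 → G = n ∧ 0 < F) := by
  constructor <;> intro h <;> omega

theorem typeP (n F G F' : ℤ) (h0 : 0 ≤ F ∧ F ≤ n ∧ 0 ≤ G ∧ G ≤ n) (h1 : 0 ≤ F') (h2 : F' ≤ n)
    (hX : min F G = max 0 (F + G - n)) (h3 : 0 < F' - F → n ≤ F + G)
    (h4 : F' - F < 0 → F + G ≤ n) :
    (0 < F' - F → G = n ∧ F < n) ∧ (F' - F < 0 → G = 0 ∧ 0 < F) := by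
  constructor <;> intro h <;> omega


theorem conflictM (n F G F' G' : ℤ) (h0 : 0 ≤ F ∧ F ≤ n ∧ 0 ≤ G ∧ G ≤ n)
    (h1 : 0 ≤ F' ∧ F' ≤ n ∧ 0 ≤ G' ∧ G' ≤ n) (hX : min F G = max 0 (F + G - n))
    (hD : F' - F ≠ 0) (hE : G' - G ≠ 0) (h3 : 0 < F' - F → G ≤ F) (h4 : F' - F < 0 → F ≤ G)
    (h5 : 0 < G' - G → n ≤ G + F) (h6 : G' - G < 0 → G + F ≤ n) : False := by
  have a1 := typeM n F G F' h0 h1.1 h1.2.1 hX h3 h4
  have a2 := typeP n G F G' ⟨h0.2.2.1, h0.2.2.2, h0.1, h0.2.1⟩ h1.2.2.1 h1.2.2.2
    (by rw [min_comm, hX, add_comm]) h5 h6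
  rcases lt_or_gt_of_ne hD with h | h <;> rcases lt_or_gt_of_ne hE with h' | h'
  · have b1 := a1.2 h
    have b2 := a2.2 h'
    omega
  · have b1 := a1.2 h
    have b2 := a2.1 h'
    omega
  · have b1 := a1.1 h
    have b2 := a2.2 h'
    omega
  · have b1 := a1.1 h
    have b2 := a2.1 h'
    omega

theorem conflictP (n F G F' G' : ℤ) (h0 : 0 ≤ F ∧ F ≤ n ∧ 0 ≤ G ∧ G ≤ n)
    (h1 : 0 ≤ F' ∧ F' ≤ n ∧ 0 ≤ G' ∧ G' ≤ n) (hX : min F G = max 0 (F + G - n))
    (hD : F' - F ≠ 0) (hE : G' - G ≠ 0) (h3 : 0 < F' - F → n ≤ F + G)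
    (h4 : F' - F < 0 → F + G ≤ n) (h5 : 0 < G' - G → F ≤ G) (h6 : G' - G < 0 → G ≤ F) :
    False := by
  have a1 := typeP n F G F' h0 h1.1 h1.2.1 hX h3 h4
  have a2 := typeM n G F G' ⟨h0.2.2.1, h0.2.2.2, h0.1, h0.2.1⟩ h1.2.2.1 h1.2.2.2
    (by rw [min_comm, hX, add_comm]) h5 h6
  rcases lt_or_gt_of_ne hD with h | h <;> rcases lt_or_gt_of_ne hE with h' | h'
  · have b1 := a1.2 h
    have b2 := a2.2 h'
    omega
  · have b1 := a1.2 h
    have b2 := a2.1 h'
    omega
  · have b1 := a1.1 h
    have b2 := a2.2 h'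
    omega
  · have b1 := a1.1 h
    have b2 := a2.1 h'
    omega

theorem sign_ne {a b : ℤ} (h : a ≠ b) : Int.sign (b - a) ≠ 0 := by
  rw [Ne, Int.sign_eq_zero_iff_zero, sub_eq_zero]
  exact Ne.symm h

theorem pos_of_sign {a : ℤ} (h : 0 < Int.sign a) : 0 < a := by
  by_contra h1
  rcases lt_or_eq_of_le (not_lt.1 h1) with h2 | h2
  · rw [Int.sign_eq_neg_one_of_neg h2] at h
    omega
  · rw [h2] at h
    simp at h

theorem neg_of_sign {a : ℤ} (h : Int.sign a < 0) : a < 0 := by
  by_contra h1
  rcases lt_or_eq_of_le (not_lt.1 h1) with h2 | h2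
  · rw [Int.sign_eq_one_of_pos h2] at h
    omega
  · rw [← h2] at h
    simp at h

end LatN

open LatN in
theorem tLat : StmtLat := by
  intro n F G F' G' H hb hb' hF hG hLo hHi hLo' hHi' hne
  by_cases A1 : ∃ d : Bool → ℤ, (∀ p, d p = 0 ∨ (d p = 1 ∧ F p true < F' p true) ∨
      (d p = -1 ∧ F' p true < F p true)) ∧ (∃ p, d p ≠ 0 ∧ d (!p) = 0) ∧
      sm (fun p q => max 0 (F p q + dF d p q + G p q - n p q)) ≤ H ∧
      H ≤ sm (fun p q => min (F p q + dF d p q) (G p q))
  · obtain ⟨d, hd, hp, h1, h2⟩ := A1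
    refine ⟨d, 0, hd, fun q => Or.inl rfl, Or.inl ⟨?_, ?_, Or.inl ⟨rfl, hp⟩⟩⟩
    · have e : ∀ p q, F p q + dF d p q + (G p q + dF (0 : Bool → ℤ) q p) - n p q =
          F p q + dF d p q + G p q - n p q := by
        intro p q
        simp [dF]
      simp only [e]
      exact h1
    · have e : ∀ p q, G p q + dF (0 : Bool → ℤ) q p = G p q := by
        intro p q
        simp [dF]
      simp only [e]
      exact h2
  by_cases A2 : ∃ e : Bool → ℤ, (∀ q, e q = 0 ∨ (e q = 1 ∧ G true q < G' true q) ∨
      (e q = -1 ∧ G' true q < G true q)) ∧ (∃ q, e q ≠ 0 ∧ e (!q) = 0) ∧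
      sm (fun q p => max 0 (G p q + dF e q p + F p q - n p q)) ≤ H ∧
      H ≤ sm (fun q p => min (G p q + dF e q p) (F p q))
  · obtain ⟨e, he, hq, h1, h2⟩ := A2
    rw [sm_swap (fun p q => max 0 (G p q + dF e q p + F p q - n p q))] at h1
    rw [sm_swap (fun p q => min (G p q + dF e q p) (F p q))] at h2
    refine ⟨0, e, fun p => Or.inl rfl, he, Or.inl ⟨?_, ?_, Or.inr ⟨rfl, hq⟩⟩⟩
    · have e' : ∀ p q, F p q + dF (0 : Bool → ℤ) p q + (G p q + dF e q p) - n p q =
          G p q + dF e q p + F p q - n p q := by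
        intro p q
        simp [dF]
        ring
      simp only [e']
      exact h1
    · have e' : ∀ p q, min (F p q + dF (0 : Bool → ℤ) p q) (G p q + dF e q p) =
          min (G p q + dF e q p) (F p q) := by
        intro p q
        rw [min_comm]
        simp [dF]
      simp only [e']
      exact h2
  -- the types of the failed steps
  have hFs : ∀ p, F p true ≠ F' p true →
      (H = sm (fun p q => min (F p q) (G p q)) ∧ ∀ q, (0 < F' p q - F p q → G p q ≤ F p q) ∧
        (F' p q - F p q < 0 → F p q ≤ G p q)) ∨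
      (H = sm (fun p q => max 0 (F p q + G p q - n p q)) ∧
        ∀ q, (0 < F' p q - F p q → n p q ≤ F p q + G p q) ∧
        (F' p q - F p q < 0 → F p q + G p q ≤ n p q)) := by
    intro p hp
    refine stepF n F G F' H hF hLo hHi p hp fun d hd h1 h2 h3 => A1 ⟨d, hd, ⟨p, h1, h2⟩, h3⟩
  have hGs : ∀ q, G true q ≠ G' true q →
      (H = sm (fun p q => min (F p q) (G p q)) ∧ ∀ p, (0 < G' p q - G p q → F p q ≤ G p q) ∧
        (G' p q - G p q < 0 → G p q ≤ F p q)) ∨
      (H = sm (fun p q => max 0 (F p q + G p q - n p q)) ∧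
        ∀ p, (0 < G' p q - G p q → n p q ≤ G p q + F p q) ∧
        (G' p q - G p q < 0 → G p q + F p q ≤ n p q)) := by
    intro q hq
    have e1 : sm (fun q p => max 0 (G p q + F p q - n p q)) =
        sm (fun p q => max 0 (F p q + G p q - n p q)) := by
      rw [← sm_swap]
      simp only [add_comm (G _ _)]
    have e2 : sm (fun q p => min (G p q) (F p q)) = sm (fun p q => min (F p q) (G p q)) := by
      rw [← sm_swap]
      simp only [min_comm (G _ _)]
    have h1 := stepF (fun q p => n p q) (fun q p => G p q) (fun q p => F p q)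
      (fun q p => G' p q) H hG (by
        show sm (fun q p => max 0 (G p q + F p q - n p q)) ≤ H
        rw [e1]
        exact hLo) (by
        show H ≤ sm (fun q p => min (G p q) (F p q))
        rw [e2]
        exact hHi) q hq
      (fun e he h1 h2 h3 => A2 ⟨e, he, ⟨q, h1, h2⟩, h3⟩)
    have h2 : (H = sm (fun q p => min (G p q) (F p q)) ∧
        ∀ p, (0 < G' p q - G p q → F p q ≤ G p q) ∧ (G' p q - G p q < 0 → G p q ≤ F p q)) ∨
      (H = sm (fun q p => max 0 (G p q + F p q - n p q)) ∧
        ∀ p, (0 < G' p q - G p q → n p q ≤ G p q + F p q) ∧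
        (G' p q - G p q < 0 → G p q + F p q ≤ n p q)) := h1
    rw [e1, e2] at h2
    exact h2
  have hF0 : ∀ p, ¬ F p true ≠ F' p true → ∀ q, F' p q - F p q = 0 := by
    intro p hp q
    have h1 := hF p
    have h2 := not_not.1 hp
    cases q <;> linarith
  have hG0 : ∀ q, ¬ G true q ≠ G' true q → ∀ p, G' p q - G p q = 0 := by
    intro q hq p
    have h1 := hG q
    have h2 := not_not.1 hq
    cases p <;> linarith
  have hstep : (∃ p, F p true ≠ F' p true) ∨ (∃ q, G true q ≠ G' true q) := by
    by_contra hcon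
    rw [not_or, not_exists, not_exists] at hcon
    rcases hne with h | h
    · apply h
      funext p q
      have := hF0 p (hcon.1 p) q
      linarith
    · apply h
      funext p q
      have := hG0 q (hcon.2 q) p
      linarith
  -- all steps fail downwards
  by_cases hM : (∀ p, F p true ≠ F' p true →
      (H = sm (fun p q => min (F p q) (G p q)) ∧ ∀ q, (0 < F' p q - F p q → G p q ≤ F p q) ∧
        (F' p q - F p q < 0 → F p q ≤ G p q))) ∧
      ∀ q, G true q ≠ G' true q →
      (H = sm (fun p q => min (F p q) (G p q)) ∧ ∀ p, (0 < G' p q - G p q → F p q ≤ G p q) ∧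
        (G' p q - G p q < 0 → G p q ≤ F p q))
  · have hH : H = sm (fun p q => min (F p q) (G p q)) := by
      rcases hstep with ⟨p, hp⟩ | ⟨q, hq⟩
      · exact (hM.1 p hp).1
      · exact (hM.2 q hq).1
    have hc := core F G F' G' H hF hG hHi' hH (by
      intro p q
      by_cases hp : F p true ≠ F' p true
      · exact (hM.1 p hp).2 q
      · have := hF0 p hp q
        exact ⟨fun h => by omega, fun h => by omega⟩) (by
      intro p q
      by_cases hq : G true q ≠ G' true q
      · exact (hM.2 q hq).2 p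
      · have := hG0 q hq p
        exact ⟨fun h => by omega, fun h => by omega⟩) hne
    refine ⟨fun p => Int.sign (F' p true - F p true), fun q => Int.sign (G' true q - G true q),
      fun p => sign_ok _ _, fun q => sign_ok _ _, Or.inr (Or.inr (Or.inr (Or.inl ⟨?_, ?_, hH⟩)))⟩
    · intro p
      exact sign_ne (Ne.symm (hc p true).2.2)
    · intro p q
      refine ⟨(hc p q).1, ?_⟩
      rw [dF_sign F F' hF, dF_sign (fun q p => G p q) (fun q p => G' p q) hG q p, (hc p q).2.1]
  -- all steps fail upwards
  by_cases hP : (∀ p, F p true ≠ F' p true →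
      (H = sm (fun p q => max 0 (F p q + G p q - n p q)) ∧
        ∀ q, (0 < F' p q - F p q → n p q ≤ F p q + G p q) ∧
        (F' p q - F p q < 0 → F p q + G p q ≤ n p q))) ∧
      ∀ q, G true q ≠ G' true q →
      (H = sm (fun p q => max 0 (F p q + G p q - n p q)) ∧
        ∀ p, (0 < G' p q - G p q → n p q ≤ G p q + F p q) ∧
        (G' p q - G p q < 0 → G p q + F p q ≤ n p q))
  · have hH : H = sm (fun p q => max 0 (F p q + G p q - n p q)) := by
      rcases hstep with ⟨p, hp⟩ | ⟨q, hq⟩
      · exact (hP.1 p hp).1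
      · exact (hP.2 q hq).1
    have hlow : ∀ a b c : ℤ, min a (c - b) = a - max 0 (a + b - c) := by
      intro a b c
      omega
    have hsum : sm F = sm F' := by
      have h1 := hF false
      have h2 := hF true
      unfold sm
      linarith
    have hsub : ∀ f g : Bool → Bool → ℤ, sm (fun p q => f p q - g p q) = sm f - sm g := by
      intro f g
      unfold sm
      ring
    have hc := core F (fun p q => n p q - G p q) F' (fun p q => n p q - G' p q) (sm F - H) hF
      (by
        intro q
        have := hG q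
        show n false q - G false q + (n true q - G true q) =
          n false q - G' false q + (n true q - G' true q)
        linarith) (by
        simp only [hlow]
        rw [hsub F', ← hsum]
        have h1 : sm (fun p q => max 0 (F' p q + G' p q - n p q)) ≤ H := hLo'
        exact sub_le_sub_left h1 _) (by
        simp only [hlow]
        rw [hsub F, hH]) (by
      intro p q
      by_cases hp : F p true ≠ F' p true
      · have h1 := (hP.1 p hp).2 q
        exact ⟨fun h => by have := h1.1 h; linarith,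
          fun h => by have := h1.2 h; linarith⟩
      · have := hF0 p hp q
        exact ⟨fun h => by omega, fun h => by omega⟩) (by
      intro p q
      by_cases hq : G true q ≠ G' true q
      · have h1 := (hP.2 q hq).2 p
        exact ⟨fun h => by have := h1.2 (by linarith); linarith,
          fun h => by have := h1.1 (by linarith); linarith⟩
      · have := hG0 q hq p
        exact ⟨fun h => by omega, fun h => by omega⟩) (by
      rcases hne with h | h
      · exact Or.inl h
      · right
        intro h1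
        apply h
        funext p q
        have h2 : n p q - G p q = n p q - G' p q := congrFun (congrFun h1 p) q
        linarith)
    refine ⟨fun p => Int.sign (F' p true - F p true), fun q => Int.sign (G' true q - G true q),
      fun p => sign_ok _ _, fun q => sign_ok _ _, Or.inr (Or.inr (Or.inr (Or.inr ⟨?_, ?_, hH⟩)))⟩
    · intro p
      exact sign_ne (Ne.symm (hc p true).2.2)
    · intro p q
      obtain ⟨h1, h2, -⟩ := hc p q
      refine ⟨by linarith, ?_⟩
      rw [dF_sign F F' hF, dF_sign (fun q p => G p q) (fun q p => G' p q) hG q p]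
      have h3 : F' p q - F p q = -(G' p q - G p q) := by linarith
      rw [h3, Int.sign_neg]
  -- both types occur
  rw [not_and_or, not_forall, not_forall] at hM hP
  simp only [Classical.not_imp] at hM hP
  have hLH : H = sm (fun p q => max 0 (F p q + G p q - n p q)) := by
    rcases hM with ⟨p, hp, h⟩ | ⟨q, hq, h⟩
    · exact ((hFs p hp).resolve_left h).1
    · exact ((hGs q hq).resolve_left h).1
  have hHH : H = sm (fun p q => min (F p q) (G p q)) := by
    rcases hP with ⟨p, hp, h⟩ | ⟨q, hq, h⟩
    · exact ((hFs p hp).resolve_right h).1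
    · exact ((hGs q hq).resolve_right h).1
  have hX := extreme n F G hb (hHH.symm.trans hLH)
  have hD : ∀ p, F p true ≠ F' p true → ∀ q, F' p q - F p q ≠ 0 := by
    intro p hp q h
    apply hp
    have h1 := hF p
    cases q <;> linarith
  have hE : ∀ q, G true q ≠ G' true q → ∀ p, G' p q - G p q ≠ 0 := by
    intro q hq p h
    apply hq
    have h1 := hG q
    cases p <;> linarith
  rcases hM with ⟨p1, hp1, hn1⟩ | ⟨q1, hq1, hn1⟩
  · have hY1 := (hFs p1 hp1).resolve_left hn1
    rcases hP with ⟨p2, hp2, hn2⟩ | ⟨q2, hq2, hn2⟩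
    · -- two steps of the first kind
      have hX2 := (hFs p2 hp2).resolve_right hn2
      have hpp : p1 = !p2 := by
        rcases Bool.eq_or_eq_not p1 p2 with h | h
        · exact absurd (h ▸ hX2) hn1
        · exact h
      subst hpp
      have hall : ∀ p, F p true ≠ F' p true := by
        intro p
        cases p <;> cases p2 <;> first | exact hp1 | exact hp2
      refine ⟨fun p => Int.sign (F' p true - F p true), 0, fun p => sign_ok _ _,
        fun q => Or.inl rfl, Or.inr (Or.inl ⟨rfl, p2, fun p => sign_ne (hall p), fun q => ?_⟩)⟩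
      rw [dF_sign F F' hF, dF_sign F F' hF]
      have h1 := typeM (n p2 q) (F p2 q) (G p2 q) (F' p2 q) (hb p2 q) (hb' p2 q).1 (hb' p2 q).2.1
        (hX p2 q) (hX2.2 q).1 (hX2.2 q).2
      have h2 := typeP (n (!p2) q) (F (!p2) q) (G (!p2) q) (F' (!p2) q) (hb (!p2) q)
        (hb' (!p2) q).1 (hb' (!p2) q).2.1 (hX (!p2) q) (hY1.2 q).1 (hY1.2 q).2
      exact ⟨fun h => (h1.1 (pos_of_sign h)).1, fun h => (h1.2 (neg_of_sign h)).1,
        fun h => (h2.1 (pos_of_sign h)).1, fun h => (h2.2 (neg_of_sign h)).1⟩
    · exfalso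
      have hX2 := (hGs q2 hq2).resolve_right hn2
      exact conflictP (n p1 q2) (F p1 q2) (G p1 q2) (F' p1 q2) (G' p1 q2) (hb p1 q2)
        (hb' p1 q2) (hX p1 q2) (hD p1 hp1 q2) (hE q2 hq2 p1) (hY1.2 q2).1 (hY1.2 q2).2
        (hX2.2 p1).1 (hX2.2 p1).2
  · have hY1 := (hGs q1 hq1).resolve_left hn1
    rcases hP with ⟨p2, hp2, hn2⟩ | ⟨q2, hq2, hn2⟩
    · exfalso
      have hX2 := (hFs p2 hp2).resolve_right hn2
      exact conflictM (n p2 q1) (F p2 q1) (G p2 q1) (F' p2 q1) (G' p2 q1) (hb p2 q1)
        (hb' p2 q1) (hX p2 q1) (hD p2 hp2 q1) (hE q1 hq1 p2) (hX2.2 q1).1 (hX2.2 q1).2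
        (hY1.2 p2).1 (hY1.2 p2).2
    · -- two steps of the second kind
      have hX2 := (hGs q2 hq2).resolve_right hn2
      have hqq : q1 = !q2 := by
        rcases Bool.eq_or_eq_not q1 q2 with h | h
        · exact absurd (h ▸ hX2) hn1
        · exact h
      subst hqq
      have hall : ∀ q, G true q ≠ G' true q := by
        intro q
        cases q <;> cases q2 <;> first | exact hq1 | exact hq2
      refine ⟨0, fun q => Int.sign (G' true q - G true q), fun p => Or.inl rfl,
        fun q => sign_ok _ _, Or.inr (Or.inr (Or.inl ⟨rfl, q2, fun q => sign_ne (hall q),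
          fun p => ?_⟩))⟩
      rw [dF_sign (fun q p => G p q) (fun q p => G' p q) hG,
        dF_sign (fun q p => G p q) (fun q p => G' p q) hG]
      have h0 := hb p q2
      have h0' := hb p (!q2)
      have h1 := typeM (n p q2) (G p q2) (F p q2) (G' p q2) ⟨h0.2.2.1, h0.2.2.2, h0.1, h0.2.1⟩
        (hb' p q2).2.2.1 (hb' p q2).2.2.2 (by rw [min_comm, hX p q2, add_comm])
        (hX2.2 p).1 (hX2.2 p).2
      have h2 := typeP (n p (!q2)) (G p (!q2)) (F p (!q2)) (G' p (!q2))
        ⟨h0'.2.2.1, h0'.2.2.2, h0'.1, h0'.2.1⟩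
        (hb' p (!q2)).2.2.1 (hb' p (!q2)).2.2.2 (by rw [min_comm, hX p (!q2), add_comm])
        (hY1.2 p).1 (hY1.2 p).2
      exact ⟨fun h => (h1.1 (pos_of_sign h)).1, fun h => (h1.2 (neg_of_sign h)).1,
        fun h => (h2.1 (pos_of_sign h)).1, fun h => (h2.2 (neg_of_sign h)).1⟩

end Pool.Agent.Lib.MP_73b196_co.Fib
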