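import Pool.Agent.Lib.MP_73b196_co.Fib.Spec

/-!
# The refined complex is connected
-/

set_option autoImplicit false

namespace Pool.Agent.Lib.MP_73b196_co.Fib.OmegaN

variable {V : Type} [DecidableEq V]

theorem dg_pw (M : Finset V) : Dg (pw M) := by
  intro T T' h
  have h1 := fb_pw.1 h
  refine Cn.mono ?_ (by norm_num) (match_cn (U := M) (W := M) h1 h1)
  intro F hF
  exact ⟨F, Or.inl hF, Finset.Subset.refl F⟩

theorem on_cone {G : Set (Finset V)} {U : Finset V} {s x t : V} (hs : s ∈ U) (hx : x ∈ U)
    (ht : t ∈ U) (h : On (cone s G) U) : On (cone s (ad G x t)) U := by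
  intro F hF
  rcases Set.mem_insert_iff.1 (show F.erase s ∈ insert {x, t} G from hF) with h1 | h1
  · intro v hv
    by_cases hvs : v = s
    · rw [hvs]; exact hs
    · have : v ∈ F.erase s := Finset.mem_erase.2 ⟨hvs, hv⟩
      rw [h1, Finset.mem_insert, Finset.mem_singleton] at this
      rcases this with rfl | rfl
      · exact hx
      · exact ht
  · exact h F h1

theorem free_ad {G : Set (Finset V)} {s x t : V} (hx : x ≠ s) (ht : t ≠ s)
    (h : ∀ F ∈ G, s ∉ F) : ∀ F ∈ ad G x t, s ∉ F := by
  intro F hF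
  rcases Set.mem_insert_iff.1 hF with rfl | hF
  · rw [Finset.mem_insert, Finset.mem_singleton, not_or]
    exact ⟨hx.symm, ht.symm⟩
  · exact h F hF

end Pool.Agent.Lib.MP_73b196_co.Fib.OmegaN

namespace Pool.Agent.Lib.MP_73b196_co.Fib

open OmegaN

theorem tOmega (hFace : StmtFace) (hCone : StmtCone) : StmtOmega := by
  intro V _ G1 G2 U W s t x y H d1 d2
  have hsU : s ∈ U := by
    have : s ∈ U ∩ W := by rw [H.inter]; simp
    exact (Finset.mem_inter.1 this).1
  have hsW : s ∈ W := by
    have : s ∈ U ∩ W := by rw [H.inter]; simp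
    exact (Finset.mem_inter.1 this).2
  have htU : t ∈ U := by
    have : t ∈ U ∩ W := by rw [H.inter]; simp
    exact (Finset.mem_inter.1 this).1
  have htW : t ∈ W := by
    have : t ∈ U ∩ W := by rw [H.inter]; simp
    exact (Finset.mem_inter.1 this).2
  have hyU : y ∉ U := by
    intro h
    have : y ∈ U ∩ W := Finset.mem_inter.2 ⟨h, H.yW⟩
    rw [H.inter, Finset.mem_insert, Finset.mem_singleton] at this
    rcases this with h | h
    · exact H.ys h
    · exact H.yt h
  have hxW : x ∉ W := by
    intro h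
    have : x ∈ U ∩ W := Finset.mem_inter.2 ⟨H.xU, h⟩
    rw [H.inter, Finset.mem_insert, Finset.mem_singleton] at this
    rcases this with h | h
    · exact H.xs h
    · exact H.xt h
  have c1 : Dg (cone s (ad G1 x t)) :=
    hCone V _ s (free_ad H.xs H.st.symm H.free1) d1
  have c2 : Dg (cone t (ad G2 y s)) :=
    hCone V _ t (free_ad H.yt H.st H.free2) d2
  have o1 : On (cone s (ad G1 x t)) U := on_cone hsU H.xU htU H.on1
  have o2 : On (cone t (ad G2 y s)) W := on_cone htW H.yW hsW H.on2
  have e1 : U ∩ {s, t, x, y} = {s, t, x} := by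
    ext v
    simp only [Finset.mem_inter, Finset.mem_insert, Finset.mem_singleton]
    constructor
    · rintro ⟨h, rfl | rfl | rfl | rfl⟩
      · exact Or.inl rfl
      · exact Or.inr (Or.inl rfl)
      · exact Or.inr (Or.inr rfl)
      · exact absurd h hyU
    · rintro (rfl | rfl | rfl)
      · exact ⟨hsU, Or.inl rfl⟩
      · exact ⟨htU, Or.inr (Or.inl rfl)⟩
      · exact ⟨H.xU, Or.inr (Or.inr (Or.inl rfl))⟩
  have e2 : (U ∪ {s, t, x, y}) ∩ W = {s, t, y} := by
    ext v
    simp only [Finset.mem_inter, Finset.mem_union, Finset.mem_insert, Finset.mem_singleton]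
    constructor
    · rintro ⟨h | rfl | rfl | rfl | rfl, hw⟩
      · have : v ∈ U ∩ W := Finset.mem_inter.2 ⟨h, hw⟩
        rw [H.inter, Finset.mem_insert, Finset.mem_singleton] at this
        rcases this with rfl | rfl
        · exact Or.inl rfl
        · exact Or.inr (Or.inl rfl)
      · exact Or.inl rfl
      · exact Or.inr (Or.inl rfl)
      · exact absurd hw hxW
      · exact Or.inr (Or.inr rfl)
    · rintro (rfl | rfl | rfl)
      · exact ⟨Or.inl hsU, hsW⟩
      · exact ⟨Or.inl htU, htW⟩
      · exact ⟨Or.inr (Or.inr (Or.inr (Or.inr rfl))), H.yW⟩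
  have k1 : ({s, t, x} : Finset V) ∈ cone s (ad G1 x t) := by
    have e : ({s, t, x} : Finset V).erase s = {x, t} := by
      ext v
      simp only [Finset.mem_erase, Finset.mem_insert, Finset.mem_singleton]
      constructor
      · rintro ⟨h, rfl | rfl | rfl⟩
        · exact absurd rfl h
        · exact Or.inr rfl
        · exact Or.inl rfl
      · rintro (rfl | rfl)
        · exact ⟨H.xs, Or.inr (Or.inr rfl)⟩
        · exact ⟨H.st.symm, Or.inr (Or.inl rfl)⟩
    show ({s, t, x} : Finset V).erase s ∈ ad G1 x t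
    rw [e]
    exact Set.mem_insert _ _
  have k2 : ({s, t, y} : Finset V) ∈ cone t (ad G2 y s) := by
    have e : ({s, t, y} : Finset V).erase t = {y, s} := by
      ext v
      simp only [Finset.mem_erase, Finset.mem_insert, Finset.mem_singleton]
      constructor
      · rintro ⟨h, rfl | rfl | rfl⟩
        · exact Or.inr rfl
        · exact absurd rfl h
        · exact Or.inl rfl
      · rintro (rfl | rfl)
        · exact ⟨H.yt, Or.inr (Or.inr rfl)⟩
        · exact ⟨H.st, Or.inl rfl⟩
    show ({s, t, y} : Finset V).erase t ∈ ad G2 y s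
    rw [e]
    exact Set.mem_insert _ _
  have g1 : Dg (cone s (ad G1 x t) ∪ pw {s, t, x, y}) := by
    refine hFace V _ _ U {s, t, x, y} o1 (fun F hF => hF) ?_ ?_ c1 (dg_pw _)
    · rw [e1]; exact k1
    · exact Finset.inter_subset_right
  refine hFace V _ _ (U ∪ {s, t, x, y}) W ?_ o2 ?_ ?_ g1 c2
  · rintro F (hF | hF)
    · exact (o1 F hF).trans Finset.subset_union_left
    · exact (show F ⊆ {s, t, x, y} from hF).trans Finset.subset_union_right
  · rw [e2]
    refine Or.inr ?_
    show ({s, t, y} : Finset V) ⊆ {s, t, x, y}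
    intro v hv
    simp only [Finset.mem_insert, Finset.mem_singleton] at hv ⊢
    rcases hv with rfl | rfl | rfl
    · exact Or.inl rfl
    · exact Or.inr (Or.inl rfl)
    · exact Or.inr (Or.inr (Or.inr rfl))
  · rw [e2]
    exact k2

end Pool.Agent.Lib.MP_73b196_co.Fib
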