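import Pool.Agent.Lib.MP_73b196_co.Fib.Spec

/-!
# Gluing along a pair
-/

set_option autoImplicit false

namespace Pool.Agent.Lib.MP_73b196_co.Fib

namespace ParN

variable {V : Type} [DecidableEq V]

theorem countP_eqm {F : Finset V} {A B : Tab V} (h : Eqm F A B) (P : (V → Bool) → Prop)
    [DecidablePred P] (hP : ∀ s t, rs F s = rs F t → (P s ↔ P t)) : A.countP P = B.countP P := by
  have key : ∀ T : Tab V, T.countP P = (T.map (rs F)).countP P := by
    intro T
    rw [Multiset.countP_map, Multiset.countP_eq_card_filter]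
    congr 1
    refine Multiset.filter_congr fun t _ => ?_
    exact hP t (rs F t) (rs_rs (Finset.Subset.refl F) t).symm
  rw [key A, key B, h]

omit [DecidableEq V] in
theorem split_x (x y : V) (p : Bool) (T : Tab V) :
    T.countP (fun t => t x = p ∧ t y = true) + T.countP (fun t => t x = p ∧ t y = false) =
      T.countP (fun t => t x = p) := by
  induction T using Multiset.induction_on with
  | empty => simp
  | cons t T ih =>
    rw [Multiset.countP_cons, Multiset.countP_cons, Multiset.countP_cons, ← ih]
    by_cases h1 : t x = p <;> cases h2 : t y <;> simp [h1] <;> omega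

omit [DecidableEq V] in
theorem split_y (x y : V) (q : Bool) (T : Tab V) :
    T.countP (fun t => t x = true ∧ t y = q) + T.countP (fun t => t x = false ∧ t y = q) =
      T.countP (fun t => t y = q) := by
  induction T using Multiset.induction_on with
  | empty => simp
  | cons t T ih =>
    rw [Multiset.countP_cons, Multiset.countP_cons, Multiset.countP_cons, ← ih]
    by_cases h1 : t y = q <;> cases h2 : t x <;> simp [h1] <;> omega

theorem eqm_pair {Γ : Set (Finset V)} {x y : V} (hx : {x} ∈ Γ) (hy : {y} ∈ Γ) {T T' : Tab V}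
    (h : Fb Γ T T') (hh : ht x y T = ht x y T') : Eqm {x, y} T T' := by
  classical
  have h1 : ∀ p, T.countP (fun t => t x = p) = T'.countP (fun t => t x = p) := fun p =>
    countP_eqm (h _ hx) _ fun s t hst => by
      rw [(rs_eq_iff _ s t).1 hst x (Finset.mem_singleton_self x)]
  have h2 : ∀ p, T.countP (fun t => t y = p) = T'.countP (fun t => t y = p) := fun p =>
    countP_eqm (h _ hy) _ fun s t hst => by
      rw [(rs_eq_iff _ s t).1 hst y (Finset.mem_singleton_self y)]
  have h3 : T.countP (fun t => t x = true ∧ t y = true) =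
      T'.countP (fun t => t x = true ∧ t y = true) := hh
  have a1 := split_x x y true T
  have a2 := split_x x y true T'
  have a3 := split_x x y false T
  have a4 := split_x x y false T'
  have b1 := split_y x y true T
  have b2 := split_y x y true T'
  have c1 := h1 true
  have c2 := h1 false
  have c3 := h2 true
  have key : ∀ p q, T.countP (fun t => t x = p ∧ t y = q) =
      T'.countP (fun t => t x = p ∧ t y = q) := by
    intro p q
    cases p <;> cases q <;> omega
  refine Multiset.ext.2 fun c => ?_
  rw [Multiset.count_map, Multiset.count_map]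
  by_cases hc : rs {x, y} c = c
  · have h4 : ∀ S : Tab V, (S.filter fun a => c = rs {x, y} a).card =
        S.countP (fun t => t x = c x ∧ t y = c y) := by
      intro S
      rw [Multiset.countP_eq_card_filter]
      congr 1
      refine Multiset.filter_congr fun t _ => ?_
      conv_lhs => rw [← hc]
      rw [rs_eq_iff]
      constructor
      · intro h5
        exact ⟨(h5 x (by simp)).symm, (h5 y (by simp)).symm⟩
      · rintro ⟨h5, h6⟩ v hv
        rcases Finset.mem_insert.1 hv with rfl | hv
        · exact h5.symm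
        · rw [Finset.mem_singleton.1 hv]
          exact h6.symm
    rw [h4, h4, key]
  · have h4 : ∀ S : Tab V, (S.filter fun a => c = rs {x, y} a) = 0 := by
      intro S
      rw [Multiset.filter_eq_nil]
      intro a _ h5
      apply hc
      rw [h5, rs_rs (Finset.Subset.refl _)]
    rw [h4, h4]

/-- the cell with the values `p, q` at `x, y` -/
def cxy (x y : V) (p q : Bool) : V → Bool := fun v => if v = x then p else if v = y then q else false

theorem cxy_x (x y : V) (p q : Bool) : cxy x y p q x = p := if_pos rfl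

theorem cxy_y {x y : V} (h : x ≠ y) (p q : Bool) : cxy x y p q y = q := by
  unfold cxy
  rw [if_neg h.symm, if_pos rfl]

theorem rs_cxy {x y : V} (h : x ≠ y) {p q : Bool} {a : V → Bool} (h1 : a x = p) (h2 : a y = q) :
    rs {x, y} a = rs {x, y} (cxy x y p q) := by
  rw [rs_eq_iff]
  intro v hv
  rcases Finset.mem_insert.1 hv with rfl | hv
  · rw [cxy_x, h1]
  · rw [Finset.mem_singleton.1 hv, cxy_y h, h2]

theorem un_eqm {x y : V} (h : x ≠ y) {A B : Tab V} (hu : Un x y A B) :
    Eqm {x, y} A {cxy x y true false, cxy x y false true} ∧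
      Eqm {x, y} B {cxy x y true true, cxy x y false false} := by
  obtain ⟨a, a', b, b', rfl, rfl, h1, h2, h3, h4, h5, h6, h7, h8⟩ := hu
  constructor
  · unfold Eqm
    simp only [Multiset.insert_eq_cons, Multiset.map_cons, Multiset.map_singleton,
      rs_cxy h h1 h2, rs_cxy h h3 h4]
  · unfold Eqm
    simp only [Multiset.insert_eq_cons, Multiset.map_cons, Multiset.map_singleton,
      rs_cxy h h5 h6, rs_cxy h h7 h8]

theorem dg_of_pp {Γ : Set (Finset V)} {x y : V} (h : PP Γ x y) : Dg Γ := by
  intro T T' hT
  have h1 := h T T' hT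
  induction h1 with
  | refl => exact Cn.refl _ _ _
  | tail h2 h3 ih =>
    have h4 : Cn Γ 4 T _ := ih (by
      refine hT.trans ?_
      rcases h3 with h3 | h3
      · exact (h3.fb.mono (Set.subset_insert _ _)).symm
      · exact h3.fb.symm)
    refine h4.trans (Mv.cn ?_)
    rcases h3 with h3 | h3
    · exact h3.mono (fun F hF => ⟨F, Set.mem_insert_of_mem _ hF, Finset.Subset.refl F⟩) le_rfl
    · exact h3.mono (fun F hF => ⟨F, hF, Finset.Subset.refl F⟩) (by norm_num)

end ParN

open ParN

theorem tPar (hU : StmtUnit) (hG : StmtGG) : StmtPar := by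
  intro V _ Γ1 Γ2 U W x y hxy hO1 hO2 hUW e1 x1 y1 e2 x2 y2 hP1 hD1 hP2 hD2
  have hst : ∀ Γ : Set (Finset V), ∅ ∈ Γ → {x} ∈ Γ → {y} ∈ Γ → PP Γ x y → Dg (ad Γ x y) →
      ∀ T T', Fb Γ T T' → ht x y T < ht x y T' → ∃ C A B, Cn (insert {x, y} Γ) 4 T (C + A) ∧
        Fb Γ A B ∧ Eqm {x, y} A {cxy x y true false, cxy x y false true} ∧
          Eqm {x, y} B {cxy x y true true, cxy x y false false} := by
    intro Γ he hx hy hP hD T T' hT hlt
    obtain ⟨C, A, B, h1, h2, h3⟩ := (hU V Γ x y hxy he hx hy hP hD).1 T T' hT hlt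
    obtain ⟨h4, h5⟩ := un_eqm hxy h3
    exact ⟨C, A, B, h1, h2, h4, h5⟩
  have hPP : PP (Γ1 ∪ Γ2) x y := by
    intro T T' hT
    refine hG V Γ1 Γ2 U W {x, y} 2 (ht x y) {cxy x y true false, cxy x y false true}
      {cxy x y true true, cxy x y false false} hO1 hO2 hUW e1 (by norm_num) (by simp) ?_ ?_ ?_ ?_
      (hst Γ1 e1 x1 y1 hP1 hD1) (hst Γ2 e2 x2 y2 hP2 hD2) hD1 hD2 T T' hT
    · intro T T' h
      refine countP_eqm h _ fun s t hst => ?_
      rw [(rs_eq_iff _ s t).1 hst x (by simp), (rs_eq_iff _ s t).1 hst y (by simp)]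
    · intro C
      unfold ht
      rw [Multiset.countP_add, Multiset.countP_add]
      simp [Multiset.insert_eq_cons, cxy_x, cxy_y hxy, Multiset.countP_eq_card_filter,
        Multiset.filter_singleton]
    · exact fun T T' h hh => eqm_pair x1 y1 h hh
    · exact fun T T' h hh => eqm_pair x2 y2 h hh
  exact ⟨hPP, dg_of_pp hPP⟩

end Pool.Agent.Lib.MP_73b196_co.Fib
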