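import Pool.Agent.Lib.MP_73b196_co.Fib.Spec

/-!
# Realization of a step on the four vertices of two crossed cones
-/

set_option autoImplicit false

namespace Pool.Agent.Lib.MP_73b196_co.Fib

namespace RealN

variable {V : Type} [DecidableEq V] {G1 G2 : Set (Finset V)} {U W : Finset V} {s t x y : V}

theorem mem_st (h : Cr G1 G2 U W s t x y) {v : V} (hU : v ∈ U) (hW : v ∈ W) : v = s ∨ v = t := by
  have h1 : v ∈ U ∩ W := Finset.mem_inter.2 ⟨hU, hW⟩
  rw [h.inter] at h1
  simpa using h1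

theorem sU (h : Cr G1 G2 U W s t x y) : s ∈ U := by
  have h1 : s ∈ U ∩ W := by rw [h.inter]; simp
  exact (Finset.mem_inter.1 h1).1

theorem sW (h : Cr G1 G2 U W s t x y) : s ∈ W := by
  have h1 : s ∈ U ∩ W := by rw [h.inter]; simp
  exact (Finset.mem_inter.1 h1).2

theorem tU (h : Cr G1 G2 U W s t x y) : t ∈ U := by
  have h1 : t ∈ U ∩ W := by rw [h.inter]; simp
  exact (Finset.mem_inter.1 h1).1

theorem tW (h : Cr G1 G2 U W s t x y) : t ∈ W := by
  have h1 : t ∈ U ∩ W := by rw [h.inter]; simp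
  exact (Finset.mem_inter.1 h1).2

theorem yU (h : Cr G1 G2 U W s t x y) : y ∉ U := fun hU => by
  rcases mem_st h hU h.yW with h1 | h1
  · exact h.ys h1
  · exact h.yt h1

theorem xW (h : Cr G1 G2 U W s t x y) : x ∉ W := fun hW => by
  rcases mem_st h h.xU hW with h1 | h1
  · exact h.xs h1
  · exact h.xt h1

theorem on1' (h : Cr G1 G2 U W s t x y) : On (cone s (ad G1 x t)) U := by
  intro F hF
  rcases Set.mem_insert_iff.1 hF with h1 | h1
  · intro v hv
    by_cases hvs : v = s
    · rw [hvs]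
      exact sU h
    · have h2 : v ∈ F.erase s := Finset.mem_erase.2 ⟨hvs, hv⟩
      rw [h1, Finset.mem_insert, Finset.mem_singleton] at h2
      rcases h2 with rfl | rfl
      · exact h.xU
      · exact tU h
  · exact h.on1 F h1

theorem on2' (h : Cr G1 G2 U W s t x y) : On (cone t (ad G2 y s)) W := by
  intro F hF
  rcases Set.mem_insert_iff.1 hF with h1 | h1
  · intro v hv
    by_cases hvs : v = t
    · rw [hvs]
      exact tW h
    · have h2 : v ∈ F.erase t := Finset.mem_erase.2 ⟨hvs, hv⟩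
      rw [h1, Finset.mem_insert, Finset.mem_singleton] at h2
      rcases h2 with rfl | rfl
      · exact h.yW
      · exact sW h
  · exact h.on2 F h1

theorem face1 (h : Cr G1 G2 U W s t x y) : ({s, t, x} : Finset V) ∈ cone s (ad G1 x t) := by
  refine Set.mem_insert_iff.2 (Or.inl ?_)
  ext v
  simp only [Finset.mem_erase, Finset.mem_insert, Finset.mem_singleton]
  constructor
  · rintro ⟨h1, h2 | h2 | h2⟩
    · exact absurd h2 h1
    · exact Or.inr h2
    · exact Or.inl h2
  · rintro (h1 | h1)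
    · exact ⟨fun h2 => h.xs (h1.symm.trans h2), Or.inr (Or.inr h1)⟩
    · exact ⟨fun h2 => h.st (h2.symm.trans h1), Or.inr (Or.inl h1)⟩

theorem face2 (h : Cr G1 G2 U W s t x y) : ({s, t, y} : Finset V) ∈ cone t (ad G2 y s) := by
  refine Set.mem_insert_iff.2 (Or.inl ?_)
  ext v
  simp only [Finset.mem_erase, Finset.mem_insert, Finset.mem_singleton]
  constructor
  · rintro ⟨h1, h2 | h2 | h2⟩
    · exact Or.inr h2
    · exact absurd h2 h1
    · exact Or.inl h2
  · rintro (h1 | h1)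
    · exact ⟨fun h2 => h.yt (h1.symm.trans h2), Or.inr (Or.inr h1)⟩
    · exact ⟨fun h2 => h.st (h1.symm.trans h2), Or.inl h1⟩

theorem inter1 (h : Cr G1 G2 U W s t x y) :
    U ∩ (({s, t, x, y} : Finset V) ∪ W) ⊆ {s, t, x} := by
  intro v hv
  rw [Finset.mem_inter, Finset.mem_union] at hv
  simp only [Finset.mem_insert, Finset.mem_singleton] at hv ⊢
  obtain ⟨h1, (h2 | h2 | h2 | h2) | h2⟩ := hv
  · exact Or.inl h2
  · exact Or.inr (Or.inl h2)
  · exact Or.inr (Or.inr h2)
  · rw [h2] at h1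
    exact absurd h1 (yU h)
  · rcases mem_st h h1 h2 with h3 | h3
    · exact Or.inl h3
    · exact Or.inr (Or.inl h3)

theorem inter2 (h : Cr G1 G2 U W s t x y) :
    W ∩ (U ∪ ({s, t, x, y} : Finset V)) ⊆ {s, t, y} := by
  intro v hv
  rw [Finset.mem_inter, Finset.mem_union] at hv
  simp only [Finset.mem_insert, Finset.mem_singleton] at hv ⊢
  obtain ⟨h1, h2 | h2 | h2 | h2 | h2⟩ := hv
  · rcases mem_st h h2 h1 with h3 | h3
    · exact Or.inl h3
    · exact Or.inr (Or.inl h3)
  · exact Or.inl h2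
  · exact Or.inr (Or.inl h2)
  · rw [h2] at h1
    exact absurd h1 (xW h)
  · exact Or.inr (Or.inr h2)

theorem sub1 : ({s, t, x} : Finset V) ⊆ {s, t, x, y} := by
  intro v hv
  simp only [Finset.mem_insert, Finset.mem_singleton] at hv ⊢
  tauto

theorem sub2 : ({s, t, y} : Finset V) ⊆ {s, t, x, y} := by
  intro v hv
  simp only [Finset.mem_insert, Finset.mem_singleton] at hv ⊢
  tauto

theorem subU (h : Cr G1 G2 U W s t x y) : ({s, t, x} : Finset V) ⊆ U := by
  intro v hv
  simp only [Finset.mem_insert, Finset.mem_singleton] at hv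
  rcases hv with rfl | rfl | rfl
  · exact sU h
  · exact tU h
  · exact h.xU

theorem subW (h : Cr G1 G2 U W s t x y) : ({s, t, y} : Finset V) ⊆ W := by
  intro v hv
  simp only [Finset.mem_insert, Finset.mem_singleton] at hv
  rcases hv with rfl | rfl | rfl
  · exact sW h
  · exact tW h
  · exact h.yW

/-- Gluing of three tables. -/
theorem glue3 (h : Cr G1 G2 U W s t x y) (A w B : Tab V) (hA : Eqm {s, t, x} A w)
    (hB : Eqm {s, t, y} B w) :
    ∃ J, Eqm U J A ∧ Eqm {s, t, x, y} J w ∧ Eqm W J B := by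
  obtain ⟨J1, h1, h2⟩ := exists_glue U {s, t, x, y} A w
    (hA.mono (fun v hv => inter1 h (Finset.mem_inter.2 ⟨(Finset.mem_inter.1 hv).1,
      Finset.mem_union_left _ (Finset.mem_inter.1 hv).2⟩)))
  obtain ⟨J, h3, h4⟩ := exists_glue (U ∪ {s, t, x, y}) W J1 B
    (Eqm.mono (G := {s, t, y}) (fun v hv => inter2 h (Finset.mem_inter.2
      ⟨(Finset.mem_inter.1 hv).2, (Finset.mem_inter.1 hv).1⟩)) ((h2.mono sub2).trans hB.symm))
  exact ⟨J, (h3.mono Finset.subset_union_left).trans h1,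
    (h3.mono Finset.subset_union_right).trans h2, h4⟩

/-- The three marginals determine the fibre of the refined complex. -/
theorem fb_Om (h : Cr G1 G2 U W s t x y) {A B : Tab V} (h1 : Eqm U A B)
    (h2 : Eqm {s, t, x, y} A B) (h3 : Eqm W A B) : Fb (Om G1 G2 s t x y) A B := by
  rintro F ((hF | hF) | hF)
  · exact h1.mono (on1' h F hF)
  · exact h2.mono hF
  · exact h3.mono (on2' h F hF)

end RealN

open RealN

theorem tReal : StmtReal := by
  intro V _ G1 G2 U W s t x y h hDg T A0 a a' B0 b b' w0 α β k hA haa hB hbb hT hk h1 h2 h3 h4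
  -- the first lift
  obtain ⟨T1, e1, e2, e3⟩ := Cn.lift (U := U) (W := {s, t, x, y} ∪ W) (on1' h)
    ⟨_, face1 h, inter1 h⟩ hA (Eqm.refl U T)
  -- the second lift
  obtain ⟨T2, f1, f2, f3⟩ := Cn.lift (U := W) (W := U ∪ {s, t, x, y}) (on2' h)
    ⟨_, face2 h, inter2 h⟩ hB (e2.mono Finset.subset_union_right)
  have g1 : Cn (Om G1 G2 s t x y) 4 T T1 := by
    refine Cn.mono ?_ le_rfl e3
    rintro F ((hF | hF) | hF)
    · exact ⟨F, Or.inl hF, Finset.Subset.refl F⟩
    · exact ⟨F, Or.inr (Finset.Subset.trans hF Finset.subset_union_left), Finset.Subset.refl F⟩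
    · exact ⟨F, Or.inr (Finset.Subset.trans (on2' h F hF) Finset.subset_union_right),
        Finset.Subset.refl F⟩
  have g2 : Cn (Om G1 G2 s t x y) 4 T1 T2 := by
    refine Cn.mono ?_ le_rfl f3
    rintro F ((hF | hF) | hF)
    · exact ⟨F, Or.inr (Finset.Subset.trans (on1' h F hF) Finset.subset_union_left),
        Finset.Subset.refl F⟩
    · exact ⟨F, Or.inr (Finset.Subset.trans hF Finset.subset_union_right), Finset.Subset.refl F⟩
    · exact ⟨F, Or.inl hF, Finset.Subset.refl F⟩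
  -- the three marginals of `T2`
  have mU : Eqm U T2 (A0 + a) := (f2.mono Finset.subset_union_left).trans e1
  have mM : Eqm {s, t, x, y} T2 (w0 + α) :=
    ((f2.mono Finset.subset_union_right).trans (e2.mono Finset.subset_union_left)).trans hT
  have c1 : Eqm {s, t, x} A0 w0 := by
    have h5 : Eqm {s, t, x} (A0 + a) (w0 + α) :=
      (mU.mono (subU h)).symm.trans (mM.mono sub1)
    have h6 : Eqm {s, t, x} (a + A0) (a + w0) := by
      rw [add_comm a A0, add_comm a w0]
      exact h5.trans ((Eqm.refl _ w0).add h1.symm)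
    exact h6.cancel
  have c2 : Eqm {s, t, y} B0 w0 := by
    have h5 : Eqm {s, t, y} (B0 + b) (w0 + α) :=
      (f1.mono (subW h)).symm.trans (mM.mono sub2)
    have h6 : Eqm {s, t, y} (b + B0) (b + w0) := by
      rw [add_comm b B0, add_comm b w0]
      exact h5.trans ((Eqm.refl _ w0).add h3.symm)
    exact h6.cancel
  obtain ⟨J, j1, j2, j3⟩ := glue3 h A0 w0 B0 c1 c2
  obtain ⟨τ, t1, t2, t3⟩ := glue3 h a α b h1 h3
  obtain ⟨τ', u1, u2, u3⟩ := glue3 h a' β b' h2 h4
  refine ⟨J + τ, J + τ', (g1.trans g2).trans (hDg _ _ (fb_Om h ?_ ?_ ?_)),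
    ⟨J, τ, τ', rfl, rfl, ?_, ?_⟩, j2.add u2⟩
  · exact mU.trans (j1.add t1).symm
  · exact mM.trans (j2.add t2).symm
  · exact f1.trans (j3.add t3).symm
  · rw [t2.card]
    exact hk
  · rw [fb_union]
    refine ⟨fun F hF => ?_, fun F hF => ?_⟩
    · exact ((t1.mono (h.on1 F hF)).trans (haa F hF)).trans (u1.mono (h.on1 F hF)).symm
    · exact ((t3.mono (h.on2 F hF)).trans (hbb F hF)).trans (u3.mono (h.on2 F hF)).symm

end Pool.Agent.Lib.MP_73b196_co.Fib
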