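import Pool.Agent.Lib.MP_73b196_co.Fib.Spec

/-!
# Unit steps in the slices of a cone
-/

set_option autoImplicit false

namespace Pool.Agent.Lib.MP_73b196_co.Fib.SliceN

variable {V : Type} [DecidableEq V]

/-- The cell with the value at `s` replaced by `p`. -/
def up (s : V) (p : Bool) (r : V → Bool) : V → Bool := Function.update r s p

theorem up_self (s : V) (p : Bool) (r : V → Bool) : up s p r s = p := Function.update_self _ _ _

theorem up_ne {s v : V} (h : v ≠ s) (p : Bool) (r : V → Bool) : up s p r v = r v :=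
  Function.update_of_ne h _ _

theorem fb_up {Γ : Set (Finset V)} (s : V) (p : Bool) {A B : Tab V} (h : Fb Γ A B) :
    Fb (cone s Γ) (A.map (up s p)) (B.map (up s p)) := by
  intro F hF
  have h1 := h (F.erase s) hF
  have h2 : ∀ r : V → Bool, rs F (up s p r) =
      (fun q : V → Bool => fun v => if v = s then (if s ∈ F then p else false) else q v)
        (rs (F.erase s) r) := by
    intro r
    funext v
    by_cases hv : v = s
    · subst hv
      by_cases hF' : v ∈ F
      · rw [rs_mem hF', up_self]
        simp [hF']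
      · rw [rs_notMem hF']
        simp [hF']
    · by_cases hF' : v ∈ F
      · rw [rs_mem hF', up_ne hv]
        simp [hv, rs_mem (Finset.mem_erase.2 ⟨hv, hF'⟩)]
      · rw [rs_notMem hF']
        have h3 : v ∉ F.erase s := fun h => hF' (Finset.mem_of_mem_erase h)
        simp [hv, rs_notMem h3]
  have h3 : (rs F) ∘ (up s p) =
      (fun q : V → Bool => fun v => if v = s then (if s ∈ F then p else false) else q v) ∘
        (rs (F.erase s)) := funext h2
  unfold Eqm at *
  rw [Multiset.map_map, Multiset.map_map, h3, ← Multiset.map_map, ← Multiset.map_map, h1]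

theorem mv_up {Γ : Set (Finset V)} {k : ℕ} (s : V) (p : Bool) {A B : Tab V} (h : Mv Γ k A B) :
    Mv (cone s Γ) k (A.map (up s p)) (B.map (up s p)) := by
  obtain ⟨C, A0, B0, rfl, rfl, hk, hf⟩ := h
  exact ⟨C.map (up s p), A0.map (up s p), B0.map (up s p), Multiset.map_add _ _ _,
    Multiset.map_add _ _ _, by rw [Multiset.card_map]; exact hk, fb_up s p hf⟩

theorem cn_up {Γ : Set (Finset V)} {k : ℕ} (s : V) (p : Bool) {A B : Tab V} (h : Cn Γ k A B) :
    Cn (cone s Γ) k (A.map (up s p)) (B.map (up s p)) := by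
  induction h with
  | refl => exact Cn.refl _ _ _
  | tail _ h ih => exact Relation.ReflTransGen.tail ih (mv_up s p h)

/-- The slice `r s = p`. -/
def sl (s : V) (p : Bool) (T : Tab V) : Tab V := T.filter fun r => r s = p

theorem sl_up (s : V) (p : Bool) (T : Tab V) : (sl s p T).map (up s p) = sl s p T := by
  have h1 : ∀ r ∈ sl s p T, up s p r = r := by
    intro r hr
    have h2 : r s = p := (Multiset.mem_filter.1 hr).2
    unfold up
    rw [← h2]
    exact Function.update_eq_self _ _
  calc (sl s p T).map (up s p) = (sl s p T).map id := Multiset.map_congr rfl h1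
    _ = sl s p T := Multiset.map_id _

theorem sl_add (s : V) (T : Tab V) : T = sl s false T + sl s true T := by
  have h1 := Multiset.filter_add_not (fun r : V → Bool => r s = false) T
  have h2 : T.filter (fun r : V → Bool => ¬ r s = false) = sl s true T := by
    unfold sl
    refine Multiset.filter_congr fun r _ => ?_
    cases r s <;> simp
  rw [h2] at h1
  exact h1.symm

theorem sl_fb {Γ : Set (Finset V)} (s : V) (hs : ∀ F ∈ Γ, s ∉ F) (p : Bool) {T T' : Tab V}
    (h : Fb (cone s Γ) T T') : Fb Γ (sl s p T) (sl s p T') := by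
  intro F hF
  have h0 : (insert s F).erase s = F := Finset.erase_insert (hs F hF)
  have h1 : Eqm (insert s F) T T' := h (insert s F) (by
    show (insert s F).erase s ∈ Γ
    rw [h0]
    exact hF)
  have h2 : ∀ S : Tab V, (sl s p S).map (rs F) =
      (((S.map (rs (insert s F))).filter fun r => r s = p).map (rs F)) := by
    intro S
    rw [Multiset.filter_map, Multiset.map_map]
    have h3 : (fun r : V → Bool => r s = p) ∘ rs (insert s F) = fun r => r s = p := by
      funext r
      show (rs (insert s F) r s = p) = (r s = p)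
      rw [rs_mem (Finset.mem_insert_self s F)]
    have h4 : S.filter ((fun r : V → Bool => r s = p) ∘ rs (insert s F)) = sl s p S := by
      unfold sl
      refine Multiset.filter_congr fun r _ => ?_
      show (rs (insert s F) r s = p) ↔ (r s = p)
      rw [rs_mem (Finset.mem_insert_self s F)]
    rw [h4]
    refine Multiset.map_congr rfl fun r _ => ?_
    show rs F r = rs F (rs (insert s F) r)
    rw [rs_rs (Finset.subset_insert s F)]
  unfold Eqm at *
  rw [h2, h2, h1]

theorem rs_cl (s t x : V) (hst : s ≠ t) (hxs : x ≠ s) (hxt : x ≠ t) (p q a a' : Bool)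
    (r : V → Bool) (ht : r t = q) (hx : r x = a) :
    rs {s, t, x} (up s p r) = rs {s, t, x} (cl s t x x p q a a') := by
  rw [rs_eq_iff]
  intro v hv
  rw [Finset.mem_insert, Finset.mem_insert, Finset.mem_singleton] at hv
  rcases hv with rfl | rfl | rfl
  · rw [up_self]
    simp [cl]
  · rw [up_ne hst.symm, ht]
    simp [cl, hst.symm]
  · rw [up_ne hxs, hx]
    simp [cl, hxs, hxt]

theorem eqm_pair (F : Finset V) (a a' b b' : V → Bool) (h : rs F a = rs F b)
    (h' : rs F a' = rs F b') : Eqm F ({a, a'} : Tab V) {b, b'} := by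
  unfold Eqm
  simp only [Multiset.insert_eq_cons, Multiset.map_cons, Multiset.map_singleton, h, h']

theorem map_pair (f : (V → Bool) → (V → Bool)) (a a' : V → Bool) :
    Multiset.map f ({a, a'} : Tab V) = {f a, f a'} := by
  simp only [Multiset.insert_eq_cons, Multiset.map_cons, Multiset.map_singleton]

theorem one (G1 : Set (Finset V)) (s t x : V) (hs : ∀ F ∈ G1, s ∉ F) (hst : s ≠ t) (hxs : x ≠ s)
    (hxt : x ≠ t) (hU : QU G1 x t) (hD : QD G1 x t) (T T' : Tab V) (hf : Fb (cone s G1) T T')
    (P : Bool → Prop) (u : Bool → Bool)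
    (h1 : ∀ p, P p → u p = true → ht x t (sl s p T) < ht x t (sl s p T'))
    (h2 : ∀ p, P p → u p = false → ht x t (sl s p T') < ht x t (sl s p T)) (p : Bool) :
    ∃ C A B : Tab V, Cn (cone s (ad G1 x t)) 4 (sl s p T) (C + A) ∧
      Fb (cone s G1) A B ∧ (¬ P p → A = 0 ∧ B = 0) ∧
      (P p → u p = true → Eqm {s, t, x} A {cl s t x x p false true true, cl s t x x p true false false} ∧
        Eqm {s, t, x} B {cl s t x x p true true true, cl s t x x p false false false}) ∧
      (P p → u p = false → Eqm {s, t, x} B {cl s t x x p false true true, cl s t x x p true false false} ∧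
        Eqm {s, t, x} A {cl s t x x p true true true, cl s t x x p false false false}) := by
  by_cases hP : P p
  · have hf' := sl_fb s hs p hf
    cases hu : u p with
    | true =>
      obtain ⟨C, A, B, hC, hAB, a, a', b, b', rfl, rfl, ax, at', ax', at'', bx, bt, bx', bt'⟩ :=
        hU _ _ hf' (h1 p hP hu)
      have h3 := cn_up s p hC
      rw [sl_up, Multiset.map_add] at h3
      refine ⟨_, _, _, h3, fb_up s p hAB, fun h => absurd hP h, fun _ _ => ?_,
        fun _ h => Bool.noConfusion h⟩
      rw [map_pair, map_pair]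
      exact ⟨eqm_pair _ _ _ _ _ (rs_cl s t x hst hxs hxt p _ _ _ a at' ax)
        (rs_cl s t x hst hxs hxt p _ _ _ a' at'' ax'),
        eqm_pair _ _ _ _ _ (rs_cl s t x hst hxs hxt p _ _ _ b bt bx)
        (rs_cl s t x hst hxs hxt p _ _ _ b' bt' bx')⟩
    | false =>
      obtain ⟨C, A, B, hC, hAB, a, a', b, b', rfl, rfl, ax, at', ax', at'', bx, bt, bx', bt'⟩ :=
        hD _ _ hf' (h2 p hP hu)
      have h3 := cn_up s p hC
      rw [sl_up, Multiset.map_add] at h3
      refine ⟨_, _, _, h3, (fb_up s p hAB).symm, fun h => absurd hP h,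
        fun _ h => Bool.noConfusion h, fun _ _ => ?_⟩
      rw [map_pair, map_pair]
      exact ⟨eqm_pair _ _ _ _ _ (rs_cl s t x hst hxs hxt p _ _ _ a at' ax)
        (rs_cl s t x hst hxs hxt p _ _ _ a' at'' ax'),
        eqm_pair _ _ _ _ _ (rs_cl s t x hst hxs hxt p _ _ _ b bt bx)
        (rs_cl s t x hst hxs hxt p _ _ _ b' bt' bx')⟩
  · refine ⟨sl s p T, 0, 0, ?_, Fb.refl _ _, fun _ => ⟨rfl, rfl⟩, fun h => absurd h hP,
      fun h => absurd h hP⟩
    rw [add_zero]
    exact Cn.refl _ _ _

end Pool.Agent.Lib.MP_73b196_co.Fib.SliceN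

open Pool.Agent.Lib.MP_73b196_co.Fib.SliceN in
theorem Pool.Agent.Lib.MP_73b196_co.Fib.tSlice : Pool.Agent.Lib.MP_73b196_co.Fib.StmtSlice := by
  intro V _ G1 s t x hs hst hxs hxt _ hU hD T T' hf P u h1 h2
  choose C A B h3 h4 using one G1 s t x hs hst hxs hxt hU hD T T' hf P u h1 h2
  refine ⟨C false + C true, A, B, ?_, h4⟩
  have h5 := (h3 false).add_add (h3 true)
  rw [← sl_add, add_add_add_comm] at h5
  exact h5
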