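import Pool.Agent.Lib.MP_73b196_co.Fib.Basic
import Pool.Agent.Lib.MP_73b196_co.Suff

/-!
# The fibre side of the classification (statements; complete proofs in the docstrings)

Tables are multisets of cells (`Fib/Defs.lean`). The basic tools are in `Fib/Basic.lean`:
`Mv.lift`, `Cn.lift` (a move on `U` lifts to tables on `U ∪ W`, keeping the `W`-marginal, if `U ∩ W` is
contained in a member of the complex), `exists_glue`, `match_cn` (tables with equal `U`- and
`W`-marginals are joined by moves of degree two keeping these marginals), `Cn.add_add`, `Cn.mono`,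
`exists_pairs`, `exists_split`. One module `Fib/<Name>.lean` per statement, theorem
`Pool.Agent.Lib.MP_73b196_co.Fib.t<Name> ... : Stmt<Name>`; the statements under `uses` are hypotheses.
-/

set_option autoImplicit false

namespace Pool.Agent.Lib.MP_73b196_co.Fib

/-- All members of `Δ` are subsets of `U`. -/
def On {V : Type} (Δ : Set (Finset V)) (U : Finset V) : Prop := ∀ F ∈ Δ, F ⊆ U

/-- `A` consists of two cells with `(x,y) = (1,0), (0,1)`, and `B` of two cells with `(1,1), (0,0)`. -/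
def Un {V : Type} (x y : V) (A B : Tab V) : Prop :=
  ∃ a a' b b' : V → Bool, A = {a, a'} ∧ B = {b, b'} ∧ a x = true ∧ a y = false ∧ a' x = false ∧
    a' y = true ∧ b x = true ∧ b y = true ∧ b' x = false ∧ b' y = false

/-- A unit step upwards is possible as long as the height is smaller than the one of another table. -/
def QU {V : Type} [DecidableEq V] (Γ : Set (Finset V)) (x y : V) : Prop :=
  ∀ T T', Fb Γ T T' → ht x y T < ht x y T' →
    ∃ C A B, Cn (ad Γ x y) 4 T (C + A) ∧ Fb Γ A B ∧ Un x y A B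

/-- A unit step downwards. -/
def QD {V : Type} [DecidableEq V] (Γ : Set (Finset V)) (x y : V) : Prop :=
  ∀ T T', Fb Γ T T' → ht x y T' < ht x y T →
    ∃ C A B, Cn (ad Γ x y) 4 T (C + B) ∧ Fb Γ A B ∧ Un x y A B

/-- The relation of (P) in a cone. -/
def Prc {V : Type} [DecidableEq V] (Γ : Set (Finset V)) (a x y : V) (A B : Tab V) : Prop :=
  Mv (cone a (ad Γ x y)) 4 A B ∨ Mv (cone a Γ) 2 A B

/-- (P) in a cone, slice by slice. -/
def PPc {V : Type} [DecidableEq V] (Γ : Set (Finset V)) (a x y : V) : Prop :=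
  ∀ T T', Fb (cone a Γ) T T' → Relation.ReflTransGen (Prc Γ a x y) T T'

/-- **Face** gluing along a face. Proof. `T, T'` in one fibre. `Dg Δ1`: `Cn Δ1 4 T T'`; `Cn.lift` gives
`T1` with `Eqm U T1 T'`, `Eqm W T1 T`, `Cn (Δ1 ∪ pw W) 4 T T1`. Then `Fb Δ2 T1 T'`, `Dg Δ2` and
`Cn.lift` (roles exchanged) give `T2` with `Eqm W T2 T'`, `Eqm U T2 T1`, `Cn (Δ2 ∪ pw U) 4 T1 T2`.
`match_cn` connects `T2` and `T'`. -/
def StmtFace : Prop := ∀ (V : Type) [DecidableEq V] (Δ1 Δ2 : Set (Finset V)) (U W : Finset V),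
  On Δ1 U → On Δ2 W → U ∩ W ∈ Δ1 → U ∩ W ∈ Δ2 → Dg Δ1 → Dg Δ2 → Dg (Δ1 ∪ Δ2)

/-- **FaceP** (P) for a gluing along a face, `x, y` on one side. Proof. As `Face`: the path of `PP Γ1`
is lifted step by step (`Mv.lift` with `Δ = ad Γ1 x y` or `Δ = Γ1`; the lifted steps are moves of
`ad (Γ1 ∪ Δ2) x y` resp. `Γ1 ∪ Δ2`), then `Dg Δ2` is lifted keeping the `U`-marginal, which contains the
`{x, y}`-marginal, then `match_cn`. -/
def StmtFaceP : Prop := ∀ (V : Type) [DecidableEq V] (Γ1 Δ2 : Set (Finset V)) (U W : Finset V)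
  (x y : V), On Γ1 U → On Δ2 W → U ∩ W ∈ Γ1 → U ∩ W ∈ Δ2 → x ∈ U → y ∈ U → PP Γ1 x y → Dg Δ2 →
    PP (Γ1 ∪ Δ2) x y

/-- **Ser** (P) for a series composition at the vertex `u`. Proof. Lift the steps of `PP Γ1 x u`: a move
of `ad Γ1 x u` with `Mv.lift` for `U` and `insert x W` (`U ∩ insert x W = {x, u}`): the lifted move keeps
the `insert x W`-marginal, so the `{x, y}`-marginal; a move of degree two of `Γ1` with `U`, `W`. Then the
same for `PP Γ2 u y` (with `W` and `insert y U`), then `match_cn`. -/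
def StmtSer : Prop := ∀ (V : Type) [DecidableEq V] (Γ1 Γ2 : Set (Finset V)) (U W : Finset V)
  (x u y : V), On Γ1 U → On Γ2 W → U ∩ W = {u} → {u} ∈ Γ1 → {u} ∈ Γ2 → x ∈ U → y ∈ W → x ≠ u →
    y ≠ u → PP Γ1 x u → PP Γ2 u y → PP (Γ1 ∪ Γ2) x y

/-- **CrossP** (P) for crossed cones. Proof. As `Ser`, with `PPc G1 s x t`: a move of
`cone s (ad G1 x t)` is lifted with `U` and `insert x W`, `U ∩ insert x W = {s, t, x}`, whose erasure
of `s` is `{x, t}`; on the other side `PPc G2 t y s`. -/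
def StmtCrossP : Prop := ∀ (V : Type) [DecidableEq V] (G1 G2 : Set (Finset V)) (U W : Finset V)
  (s t x y : V), On (cone s G1) U → On (cone t G2) W → U ∩ W = {s, t} → s ≠ t → {t} ∈ G1 → {s} ∈ G2 →
  x ∈ U → y ∈ W → x ≠ s → x ≠ t → y ≠ s → y ≠ t → PPc G1 s x t → PPc G2 t y s →
    PP (cone s G1 ∪ cone t G2) x y

/-- **Cone** Proof. For `b : Bool` let `T_b` be the part of `T` with `t a = b`. `Fb (cone a Γ) T T'`
implies `Fb Γ T_b T'_b` (for `F ∈ Γ` the set `insert a F` is in the cone). So `Cn Γ 4 T_b T'_b`; apply to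
all cells of the path the map `t ↦ Function.update t a b`: moves of `Γ` become moves of `cone a Γ` (all
cells have the value `b` at `a`), and `T_b`, `T'_b` are not changed. `T = T_false + T_true`,
`Cn.add_add`. -/
def StmtCone : Prop := ∀ (V : Type) [DecidableEq V] (Γ : Set (Finset V)) (a : V),
  (∀ F ∈ Γ, a ∉ F) → Dg Γ → Dg (cone a Γ)

/-- **ConeP** (P) in a cone, with the steps of `Prc`. Proof as `Cone`. -/
def StmtConeP : Prop := ∀ (V : Type) [DecidableEq V] (Γ : Set (Finset V)) (a x y : V),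
  (∀ F ∈ Γ, a ∉ F) → a ≠ x → a ≠ y → PP Γ x y → PPc Γ a x y

/-- **Unit** unit steps from (P). Proof. (a) If `Fb Γ A B` and `ht A = ht B` then `Eqm {x, y} A B` (the
numbers of cells with `x = 1`, with `y = 1` and the cardinalities agree). (b) A move of `ad Γ x y` keeps the
height; a move `C + A → C + B` of `Γ` of degree at most two changes it by at most one, and
`ht B = ht A + 1` forces `Un x y A B` (two cells each; the sums of `x` and of `y` agree). (c) On the path
of `PP` from `T` to `T'` take the first step `S → S'` with `ht T < ht S'`: `ht S = ht T`, the step is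
`C + A → C + B` with `Un x y A B`, and `Fb (ad Γ x y) T S`, so `Cn (ad Γ x y) 4 T S` by `Dg`. The same
downwards. -/
def StmtUnit : Prop := ∀ (V : Type) [DecidableEq V] (Γ : Set (Finset V)) (x y : V), x ≠ y →
  ∅ ∈ Γ → {x} ∈ Γ → {y} ∈ Γ → PP Γ x y → Dg (ad Γ x y) → QU Γ x y ∧ QD Γ x y

/-- **GG** (uses `Face`) gluing along `M` with unit steps. Proof. The relation is symmetric
(`Mv.symm`), so let `h T ≤ h T'`, induction on `h T' - h T`. If equal: `Eqm M T T'` and
`Dg (insert M Δ1 ∪ insert M Δ2)` by `Face`. Otherwise let `C1, A1, B1` and `C2, A2, B2` be as in the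
hypotheses. Lift `T → C1 + A1` to `T → T1`, `Eqm U T1 (C1 + A1)`, `Eqm W T1 T` (moves of
`insert M Δ1 ∪ pw W`), then `T → C2 + A2` to `T1 → T2`, `Eqm W T2 (C2 + A2)`, `Eqm U T2 T1`. On `M`:
`C1 + A1 ~ T2 ~ C2 + A2` and `A1 ~ πA ~ A2`, so `C1 ~ C2`. `exists_glue` gives `C` (from `C1, C2`), `A`
(from `A1, A2`), `B` (from `B1, B2`); `match_cn` connects `T2` and `C + A`; `C + A → C + B` is a move of
`Δ1 ∪ Δ2` of degree at most `k`, and `h (C + B) = h (C + A) + 1 = h T + 1`. -/
def StmtGG : Prop := ∀ (V : Type) [DecidableEq V] (Δ1 Δ2 : Set (Finset V)) (U W M : Finset V)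
  (k : ℕ) (h : Tab V → ℕ) (πA πB : Tab V), On Δ1 U → On Δ2 W → U ∩ W = M → ∅ ∈ Δ1 → k ≤ 4 →
  πA.card ≤ k → (∀ T T', Eqm M T T' → h T = h T') → (∀ C, h (C + πB) = h (C + πA) + 1) →
  (∀ T T', Fb Δ1 T T' → h T = h T' → Eqm M T T') → (∀ T T', Fb Δ2 T T' → h T = h T' → Eqm M T T') →
  (∀ T T', Fb Δ1 T T' → h T < h T' → ∃ C A B, Cn (insert M Δ1) 4 T (C + A) ∧ Fb Δ1 A B ∧
    Eqm M A πA ∧ Eqm M B πB) →
  (∀ T T', Fb Δ2 T T' → h T < h T' → ∃ C A B, Cn (insert M Δ2) 4 T (C + A) ∧ Fb Δ2 A B ∧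
    Eqm M A πA ∧ Eqm M B πB) →
  Dg (insert M Δ1) → Dg (insert M Δ2) → ∀ T T', Fb (Δ1 ∪ Δ2) T T' →
    Relation.ReflTransGen (fun A B => Mv (insert M (Δ1 ∪ Δ2)) 4 A B ∨ Mv (Δ1 ∪ Δ2) k A B) T T'

/-- **Par** (uses `Unit`, `GG`) gluing along a pair. Proof. `GG` with `M = {x, y}`, `k = 2`,
`h = ht x y`, `πA` the two cells with `(x,y) = (1,0), (0,1)`, `πB` with `(1,1), (0,0)` (`false` elsewhere).
Consequence: `Dg (Γ1 ∪ Γ2)`, as both kinds of steps are moves of `Γ1 ∪ Γ2` of degree at most four. -/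
def StmtPar : Prop := ∀ (V : Type) [DecidableEq V] (Γ1 Γ2 : Set (Finset V)) (U W : Finset V)
  (x y : V), x ≠ y → On Γ1 U → On Γ2 W → U ∩ W = {x, y} → ∅ ∈ Γ1 → {x} ∈ Γ1 → {y} ∈ Γ1 → ∅ ∈ Γ2 →
  {x} ∈ Γ2 → {y} ∈ Γ2 → PP Γ1 x y → Dg (ad Γ1 x y) → PP Γ2 x y → Dg (ad Γ2 x y) →
    PP (Γ1 ∪ Γ2) x y ∧ Dg (Γ1 ∪ Γ2)

/-- **Tri** (uses `GG`) gluing along a hollow triangle. Proof. `GG` with `M = {a, b, c}`, `k = 4`,
`h T` = number of cells with `a = b = c = 1`, `πA` the four cells on `M` with an even number of ones,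
`πB` those with an odd number. If `Fb Δ1 A B` (so the marginals for the three pairs agree) and
`h B = h A + j`, `j ≥ 0`, then `B` has `j` more cells of each odd type and `j` less cells of each even
type than `A` (on `M`); so if `A.card ≤ 4` then `j ≤ 1`, and `j = 1` forces `Eqm M A πA`, `Eqm M B πB`.
Unit steps as in `Unit`: path from `Dg Δ1`, first step above the level of `T`; `Fb (insert M Δ1) T S`,
`Dg (insert M Δ1)`. -/
def StmtTri : Prop := ∀ (V : Type) [DecidableEq V] (Δ1 Δ2 : Set (Finset V)) (U W : Finset V)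
  (a b c : V), a ≠ b → a ≠ c → b ≠ c → On Δ1 U → On Δ2 W → U ∩ W = {a, b, c} →
  (∀ F, F ⊆ {a, b, c} → F ≠ {a, b, c} → F ∈ Δ1 ∧ F ∈ Δ2) → Dg Δ1 → Dg (insert {a, b, c} Δ1) →
  Dg Δ2 → Dg (insert {a, b, c} Δ2) → Dg (Δ1 ∪ Δ2)

/-- **ConeD** (uses `Unit`) the complex `{x,y} + a * Γ`. Proof. Slices `T_b`, `T'_b` (`t a = b`),
`b = false, true`. `Fb Γ T_b T'_b` and `∑ ht T_b = ∑ ht T'_b`. Induction on `|ht T_false - ht T'_false|`.
If `0`: `Fb (ad Γ x y) T_b T'_b`, so `Cn (ad Γ x y) 4 T_b T'_b`, as in `Cone` (cells `t[a := b]`), and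
these are moves of `ad (cone a Γ) x y`. Otherwise in one slice `QU` gives a unit step upwards towards
`T'`, in the other one `QD` a unit step downwards; after the two paths (moves of `ad Γ x y` in the
slices) both unit steps together are one move of degree four, keeping the `{x,y}`-marginal of `T`. -/
def StmtConeD : Prop := ∀ (V : Type) [DecidableEq V] (Γ : Set (Finset V)) (a x y : V), x ≠ y →
  (∀ F ∈ Γ, a ∉ F) → a ≠ x → a ≠ y → ∅ ∈ Γ → {x} ∈ Γ → {y} ∈ Γ → PP Γ x y → Dg (ad Γ x y) →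
    Dg (ad (cone a Γ) x y)

/-! ## Crossed cones -/

/-- The cell with the values `p, q, a, b` at `s, t, x, y`. -/
def cl {V : Type} [DecidableEq V] (s t x y : V) (p q a b : Bool) : V → Bool :=
  fun v => if v = s then p else if v = t then q else if v = x then a else if v = y then b else false

/-- The refined complex, in whose fibres all the parameters are constant. -/
def Om {V : Type} [DecidableEq V] (G1 G2 : Set (Finset V)) (s t x y : V) : Set (Finset V) :=
  (cone s (ad G1 x t) ∪ pw {s, t, x, y}) ∪ cone t (ad G2 y s)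

/-- The common hypotheses for crossed cones. -/
structure Cr {V : Type} [DecidableEq V] (G1 G2 : Set (Finset V)) (U W : Finset V) (s t x y : V) :
    Prop where
  on1 : On (cone s G1) U
  on2 : On (cone t G2) W
  free1 : ∀ F ∈ G1, s ∉ F
  free2 : ∀ F ∈ G2, t ∉ F
  inter : U ∩ W = {s, t}
  st : s ≠ t
  xs : x ≠ s
  xt : x ≠ t
  ys : y ≠ s
  yt : y ≠ t
  xU : x ∈ U
  yW : y ∈ W
  e1 : ∅ ∈ G1
  e2 : ∅ ∈ G2
  t1 : {t} ∈ G1
  x1 : {x} ∈ G1
  s2 : {s} ∈ G2
  y2 : {y} ∈ G2

/-- **Omega** (uses `Face`, `Cone`) Proof. `cone s (ad G1 x t)` (on `U`) is glued with `pw {s,t,x,y}`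
along the face `{s,t,x}`, then with `cone t (ad G2 y s)` (on `W`) along `{s,t,y}`. `Dg (pw U)` is
`match_cn` for `U` and `U`. -/
def StmtOmega : Prop := ∀ (V : Type) [DecidableEq V] (G1 G2 : Set (Finset V)) (U W : Finset V)
  (s t x y : V), Cr G1 G2 U W s t x y → Dg (ad G1 x t) → Dg (ad G2 y s) → Dg (Om G1 G2 s t x y)

/-- **Slice** unit steps in a slice. Here `T` is arbitrary, `T_p` is the part with `t s = p`. Proof.
`Fb G1 T_p T'_p`; apply `QU` (or `QD`) for `(G1; x, t)` to `T_p, T'_p` and then the map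
`t ↦ Function.update t s p` to all cells (as in `Cone`), and add the other slice of `T`. The result:
`T` is joined to `C + A` by moves of `cone s (ad G1 x t)`; if `up`, `A` has the `(s,t,x)`-values
`(p,0,1), (p,1,0)` and `B` has `(p,1,1), (p,0,0)`; otherwise the other way round. The changed cells of
both slices are independent of each other, so the same can be done for both slices at the same time
(second statement: `up` is a function of the slice). -/
def StmtSlice : Prop := ∀ (V : Type) [DecidableEq V] (G1 : Set (Finset V)) (s t x : V),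
  (∀ F ∈ G1, s ∉ F) → s ≠ t → x ≠ s → x ≠ t → ∅ ∈ G1 → QU G1 x t → QD G1 x t → ∀ T T' : Tab V,
  Fb (cone s G1) T T' → ∀ (P : Bool → Prop) (up : Bool → Bool),
  (∀ p, P p → up p = true → ht x t (T.filter fun r => r s = p) < ht x t (T'.filter fun r => r s = p)) →
  (∀ p, P p → up p = false → ht x t (T'.filter fun r => r s = p) < ht x t (T.filter fun r => r s = p)) →
  ∃ (C : Tab V) (A B : Bool → Tab V), Cn (cone s (ad G1 x t)) 4 T (C + (A false + A true)) ∧
    ∀ p, Fb (cone s G1) (A p) (B p) ∧ (¬ P p → A p = 0 ∧ B p = 0) ∧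
      (P p → up p = true → Eqm {s, t, x} (A p) {cl s t x x p false true true, cl s t x x p true false false} ∧
        Eqm {s, t, x} (B p) {cl s t x x p true true true, cl s t x x p false false false}) ∧
      (P p → up p = false → Eqm {s, t, x} (B p) {cl s t x x p false true true, cl s t x x p true false false} ∧
        Eqm {s, t, x} (A p) {cl s t x x p true true true, cl s t x x p false false false})

/-- **Real** realization of a step. Proof. Let `M = {s,t,x,y}`. Lift `T → A0 + a` with `U` and `M ∪ W`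
(`U ∩ (M ∪ W) = {s,t,x}`) to `T → T1`: `Eqm U T1 (A0 + a)`, `Eqm (M ∪ W) T1 T`; lift `T → B0 + b` with `W`
and `U ∪ M` to `T1 → T2`: `Eqm W T2 (B0 + b)`, `Eqm (U ∪ M) T2 T1`. So `T2` has the marginals `A0 + a`,
`w0 + α`, `B0 + b` on `U, M, W`, and `Cn (Om ..) 4 T T2`. On `{s,t,x}`: `A0 ~ w0` (cancel), on `{s,t,y}`:
`B0 ~ w0`. Two applications of `exists_glue` give a table `J0` with the marginals `A0, w0, B0` on
`U, M, W`, a table `τ` for `a, α, b` and `τ'` for `a', β, b'`. `T2` and `J0 + τ` are in one fibre of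
`Om`, so they are connected (`Dg`); `J0 + τ → J0 + τ'` is the move. -/
def StmtReal : Prop := ∀ (V : Type) [DecidableEq V] (G1 G2 : Set (Finset V)) (U W : Finset V)
  (s t x y : V), Cr G1 G2 U W s t x y → Dg (Om G1 G2 s t x y) →
  ∀ (T A0 a a' B0 b b' w0 α β : Tab V) (k : ℕ), Cn (cone s (ad G1 x t)) 4 T (A0 + a) →
  Fb (cone s G1) a a' → Cn (cone t (ad G2 y s)) 4 T (B0 + b) → Fb (cone t G2) b b' →
  Eqm {s, t, x, y} T (w0 + α) → α.card ≤ k → Eqm {s, t, x} a α → Eqm {s, t, x} a' β →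
  Eqm {s, t, y} b α → Eqm {s, t, y} b' β →
    ∃ T1 T2, Cn (Om G1 G2 s t x y) 4 T T1 ∧ Mv (cone s G1 ∪ cone t G2) k T1 T2 ∧
      Eqm {s, t, x, y} T2 (w0 + β)

/-- the sum over the four states -/
def sm (f : Bool → Bool → ℤ) : ℤ := f false false + f false true + f true false + f true true

/-- the change of `F` given by `d`: `d p` at `(p, true)`, `- d p` at `(p, false)` -/
def dF (d : Bool → ℤ) (p q : Bool) : ℤ := if q then d p else - d p

/-- **Lat** the lattice lemma. All functions are integer valued on the states `(p,q)`. Proof.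
Let `Hi = ∑ min F G`, `Lo = ∑ max 0 (F+G-n)`, `D = F'-F = dF δ`, `E = G'-G`, `E p q = dF ε q p`
(`δ p = F' p true - F p true`, `ε q = G' true q - G true q`). For a nonzero `δ p` let `a` be the change of
`Hi`, `b` the change of `Lo` under the unit step `d = sign (δ p)` at `p`, similarly for `ε q`. All are in
`{-1,0,1}`, and `b ≤ a` if `Lo = Hi = H` (at the new point `Lo ≤ Hi`).
(A) `Lo < H < Hi`: every unit step works. (B) `H = Hi`, all `a = -1`: then in every state
`min F' G' ≤ min F G + min D E` (for `D > 0`: `F ≥ G`, for `D < 0`: `F ≤ G`, for `E > 0`: `G ≥ F`, for `E < 0`: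
`G ≤ F`; check the nine sign cases), so `H ≤ Hi' ≤ H + ∑ min D E = H - (1/2) ∑ |D - E|`
(`∑ D = ∑ E = 0`), hence `D = E` in all states, so all of `δ, ε` are nonzero with
`D p q = E p q = ± κ`, and `F = G` everywhere (both signs occur): third alternative. (C) `H = Lo`, all
`b = 1`: symmetric, `G` replaced by `n - G`: `D = - E`, `F + G = n`. (D) `Lo = H = Hi`: a unit step with
`a ≥ 0`, `b ≤ 0` works. Otherwise every unit step has `(a,b) = (-1,-1)` or `(1,1)`. All `(-1,-1)`: (B).
All `(1,1)`: (C). In every state `F ∈ {0,n}` or `G ∈ {0,n}`. For a step of `δ p` of type `(-1,-1)`: `G = 0`,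
`F < n` where `F` increases and `G = n`, `F > 0` where `F` decreases; for type `(1,1)`: `G = n`, `F < n`
where `F` increases, `G = 0`, `F > 0` where it decreases. For a step of `ε q` of type `(-1,-1)`: `F = 0`,
`G < n` where `G` increases, `F = n`, `G > 0` where it decreases; type `(1,1)`: `F = n`, `G < n` resp.
`F = 0`, `G > 0`. In the common state `(p,q)` the types of `δ p` and `ε q` cannot be different. So two
different types occur for `δ false, δ true` or for `ε false, ε true`: second alternative. -/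
def StmtLat : Prop := ∀ (n F G F' G' : Bool → Bool → ℤ) (H : ℤ),
  (∀ p q, 0 ≤ F p q ∧ F p q ≤ n p q ∧ 0 ≤ G p q ∧ G p q ≤ n p q) →
  (∀ p q, 0 ≤ F' p q ∧ F' p q ≤ n p q ∧ 0 ≤ G' p q ∧ G' p q ≤ n p q) →
  (∀ p, F p false + F p true = F' p false + F' p true) →
  (∀ q, G false q + G true q = G' false q + G' true q) →
  sm (fun p q => max 0 (F p q + G p q - n p q)) ≤ H → H ≤ sm (fun p q => min (F p q) (G p q)) →
  sm (fun p q => max 0 (F' p q + G' p q - n p q)) ≤ H → H ≤ sm (fun p q => min (F' p q) (G' p q)) →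
  (F ≠ F' ∨ G ≠ G') →
  ∃ d e : Bool → ℤ, (∀ p, d p = 0 ∨ (d p = 1 ∧ F p true < F' p true) ∨ (d p = -1 ∧ F' p true < F p true)) ∧
    (∀ q, e q = 0 ∨ (e q = 1 ∧ G true q < G' true q) ∨ (e q = -1 ∧ G' true q < G true q)) ∧
    ((sm (fun p q => max 0 (F p q + dF d p q + (G p q + dF e q p) - n p q)) ≤ H ∧
      H ≤ sm (fun p q => min (F p q + dF d p q) (G p q + dF e q p)) ∧
      ((e = 0 ∧ ∃ p, d p ≠ 0 ∧ d (!p) = 0) ∨ (d = 0 ∧ ∃ q, e q ≠ 0 ∧ e (!q) = 0))) ∨
     (e = 0 ∧ ∃ p0, (∀ p, d p ≠ 0) ∧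
      ∀ q, (0 < dF d p0 q → G p0 q = 0) ∧ (dF d p0 q < 0 → G p0 q = n p0 q) ∧
        (0 < dF d (!p0) q → G (!p0) q = n (!p0) q) ∧ (dF d (!p0) q < 0 → G (!p0) q = 0)) ∨
     (d = 0 ∧ ∃ q0, (∀ q, e q ≠ 0) ∧
      ∀ p, (0 < dF e q0 p → F p q0 = 0) ∧ (dF e q0 p < 0 → F p q0 = n p q0) ∧
        (0 < dF e (!q0) p → F p (!q0) = n p (!q0)) ∧ (dF e (!q0) p < 0 → F p (!q0) = 0)) ∨
     ((∀ p, d p ≠ 0) ∧ (∀ p q, F p q = G p q ∧ dF d p q = dF e q p) ∧
      H = sm (fun p q => min (F p q) (G p q))) ∨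
     ((∀ p, d p ≠ 0) ∧ (∀ p q, F p q + G p q = n p q ∧ dF d p q = - dF e q p) ∧
      H = sm (fun p q => max 0 (F p q + G p q - n p q))))

/-- **CrossD** (uses `Unit`, `Face`, `Cone`, `Omega`, `Slice`, `Real`, `Lat`) crossed cones with the
edge `xy`. Proof. For a table `T` let `N p q a b` be the number of cells with the values `p,q,a,b` at
`s,t,x,y`, `n p q = ∑ N p q a b`, `F p q = ∑_b N p q 1 b`, `G p q = ∑_a N p q a 1`,
`c p q = N p q 1 1`. For `T, T'` in one fibre of `Δ = ad (cone s G1 ∪ cone t G2) x y`: `n` agrees (`{s,t}`),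
`F p 0 + F p 1` (`{s,x}`), `G 0 q + G 1 q` (`{t,y}`), `∑ c = H` (`{x,y}`). `F p true = ht x t` of the slice
`s = p`, `G true q = ht y s` of the slice `t = q`.
(1) If `F, G, c` agree then `Eqm {s,t,x,y} T T'`, so `T, T'` are in one fibre of `Om`, `Omega`.
(2) If `F, G` agree and `c` does not, there are states with `c > c'` and with `c < c'`. In the first one
there are cells with `(x,y) = (1,1)` and `(0,0)` in `T` (`c > c' ≥ max 0 (F+G-n)`), in the second one cells
with `(1,0)` and `(0,1)`. Exchanging the parts outside `U` of the two cells of each of these pairs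
(`gl U r r'`, `gl U r' r`) is one move of degree four and diminishes `∑ |c - c'|`.
(3) Otherwise induction on `∑ |F p true - F' p true| + ∑ |G true q - G' true q|`; apply `Lat`. `Slice`
(for `P p := d p ≠ 0`, `up p := d p = 1`) gives `C, A, B` for the `U`-side, the same for the `W`-side
(with `s, t`, `x, y` exchanged). First alternative (one unit step, say `d p ≠ 0`): let `q⁻` be the state
value where `F p` decreases, `q⁺ = !q⁻`. Choose a cell `(p,q⁻,1,y0)` and a cell `(p,q⁺,0,y1)` of `T`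
(`F p q⁻ > 0`, `F p q⁺ < n p q⁺`). `Real` with `α` = these two (on `{s,t,x,y}`), `β` =
`(p,q⁺,1,y1), (p,q⁻,0,y0)`, `b = b'` two cells of `T` with the right values on `{s,t,y}` (`B0` the rest,
`Cn` trivial): `T1 → T2` a move of `cone s G1 ∪ cone t G2` of degree two, `H(T2) = H + y1 - y0`. If
`H(T2) = H`: done. If `H(T2) = H + 1 > Lo(T2)` some state of `T2` has `c > max 0 (F+G-n)`, so cells `(1,1)`,
`(0,0)`; exchange their parts outside `U`: `T2 → T3`, `H(T3) = H`; the composition `T1 → T3` is a move of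
degree at most four of `Δ` (if `T1 = C + A`, `T2 = C + B = C' + A'`, `T3 = C' + B'` then the common part
`C ∩ C'` misses at most `|A| + |A'|` cells). If `H(T2) = H - 1`: the same with `(1,0)`, `(0,1)`.
Second alternative (both slices of `U`): `α` = four cells, for `p = p0`: `(p,q⁻,1,1)`, `(p,q⁺,0,0)`, for
`p = !p0`: `(p,q⁻,1,0)`, `(p,q⁺,0,1)` (they exist as `G` is `0` or `n`), `β` the same with `x` exchanged
between the two cells of a slice; `H` does not change. Third: symmetric. Fourth: all `c = min F G = F = G`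
(as `∑ c = H = ∑ min`), so all cells are `(1,1)` or `(0,0)`; `α` = one cell `(p,q,1,1)` for each state where
`F` decreases, one cell `(p,q,0,0)` for each state where `F` increases, `β` the opposite ones; `a, b` from
`Slice` on both sides. Fifth: all `c = 0 = F + G - n`, cells `(1,0)` and `(0,1)`. In all cases the distance
becomes smaller. -/
def StmtCrossD : Prop := ∀ (V : Type) [DecidableEq V] (G1 G2 : Set (Finset V)) (U W : Finset V)
  (s t x y : V), Cr G1 G2 U W s t x y → PP G1 x t → Dg (ad G1 x t) → PP G2 y s → Dg (ad G2 y s) →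
    Dg (ad (cone s G1 ∪ cone t G2) x y)

/-- **Bridge** Proof. A table `x : (V → Bool) → ℕ` corresponds to the multiset with these
multiplicities; `mg F (toInt x) i` is the multiplicity of `rs F i` in the image under `rs F`. A step of
degree at most four `x → x + m` corresponds to `T = C + A → C + B`, `C` the common part, `A.card =
degree (-m) = degree m` (`Basic.lean`: `degree_neg`). For the converse take the finite set `B4 Δ` of
`Suff.lean` (`B4_finite`). -/
def StmtBridge : Prop := ∀ (n : ℕ) (Δ : Set (Finset (Fin n))), IsComplex Δ →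
  (MarkovDegreeLE Δ 4 ↔ Dg Δ)

end Pool.Agent.Lib.MP_73b196_co.Fib
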