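import Pool.Agent.Lib.MP_73b196_co.Fib.Spec

/-!
# Gluing along a hollow triangle
-/

set_option autoImplicit false

namespace Pool.Agent.Lib.MP_73b196_co.Fib.TriN

variable {V : Type} [DecidableEq V]

/-- The values at `a, b, c`. -/
def ev (a b c : V) (t : V → Bool) : Bool × Bool × Bool := (t a, t b, t c)

/-- The cell with given values at `a, b, c`. -/
def cm (a b c : V) (z : Bool × Bool × Bool) : V → Bool :=
  fun v => if v = a then z.1 else if v = b then z.2.1 else if v = c then z.2.2 else false

theorem rs_cm (a b c : V) (t : V → Bool) : rs {a, b, c} t = cm a b c (ev a b c t) := by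
  funext v
  rw [rs_apply]
  unfold cm ev
  by_cases h1 : v = a
  · subst h1
    simp
  · by_cases h2 : v = b
    · subst h2
      simp [h1]
    · by_cases h3 : v = c
      · subst h3
        simp [h1, h2]
      · simp [h1, h2, h3]

theorem ev_rs (a b c : V) (t : V → Bool) : ev a b c (rs {a, b, c} t) = ev a b c t := by
  unfold ev
  rw [rs_mem (by simp), rs_mem (by simp), rs_mem (by simp)]

theorem ev_cm {a b c : V} (hab : a ≠ b) (hac : a ≠ c) (hbc : b ≠ c) (z : Bool × Bool × Bool) :
    ev a b c (cm a b c z) = z := by
  unfold ev cm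
  rw [if_pos rfl, if_neg hab.symm, if_pos rfl, if_neg hac.symm, if_neg hbc.symm, if_pos rfl]

theorem eqm_iff (a b c : V) (A B : Tab V) :
    Eqm {a, b, c} A B ↔ A.map (ev a b c) = B.map (ev a b c) := by
  constructor
  · intro h
    have h1 := congrArg (Multiset.map (ev a b c)) h
    rw [Multiset.map_map, Multiset.map_map] at h1
    have h2 : ev a b c ∘ rs {a, b, c} = ev a b c := funext fun t => ev_rs a b c t
    rwa [h2] at h1
  · intro h
    have h1 := congrArg (Multiset.map (cm a b c)) h
    rw [Multiset.map_map, Multiset.map_map] at h1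
    have h2 : cm a b c ∘ ev a b c = rs {a, b, c} := funext fun t => (rs_cm a b c t).symm
    rwa [h2] at h1

theorem pair_map {x y : V} {A B : Tab V} (h : Eqm {x, y} A B) :
    A.map (fun t => (t x, t y)) = B.map (fun t => (t x, t y)) := by
  have h1 := congrArg (Multiset.map fun t : V → Bool => (t x, t y)) h
  rw [Multiset.map_map, Multiset.map_map] at h1
  have h2 : (fun t : V → Bool => (t x, t y)) ∘ rs {x, y} = fun t => (t x, t y) := by
    funext t
    show (rs {x, y} t x, rs {x, y} t y) = (t x, t y)
    rw [rs_mem (by simp), rs_mem (by simp)]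
  rwa [h2] at h1

theorem cnt_ab (X : Multiset (Bool × Bool × Bool)) (p q : Bool) :
    (X.map fun z => (z.1, z.2.1)).count (p, q) = X.count (p, q, false) + X.count (p, q, true) := by
  induction X using Multiset.induction_on with
  | empty => simp
  | cons z X ih =>
    obtain ⟨z1, z2, z3⟩ := z
    rw [Multiset.map_cons, Multiset.count_cons, ih, Multiset.count_cons, Multiset.count_cons]
    cases z1 <;> cases z2 <;> cases z3 <;> cases p <;> cases q <;> simp <;> omega

theorem cnt_ac (X : Multiset (Bool × Bool × Bool)) (p q : Bool) :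
    (X.map fun z => (z.1, z.2.2)).count (p, q) = X.count (p, false, q) + X.count (p, true, q) := by
  induction X using Multiset.induction_on with
  | empty => simp
  | cons z X ih =>
    obtain ⟨z1, z2, z3⟩ := z
    rw [Multiset.map_cons, Multiset.count_cons, ih, Multiset.count_cons, Multiset.count_cons]
    cases z1 <;> cases z2 <;> cases z3 <;> cases p <;> cases q <;> simp <;> omega

theorem cnt_bc (X : Multiset (Bool × Bool × Bool)) (p q : Bool) :
    (X.map fun z => (z.2.1, z.2.2)).count (p, q) = X.count (false, p, q) + X.count (true, p, q) := by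
  induction X using Multiset.induction_on with
  | empty => simp
  | cons z X ih =>
    obtain ⟨z1, z2, z3⟩ := z
    rw [Multiset.map_cons, Multiset.count_cons, ih, Multiset.count_cons, Multiset.count_cons]
    cases z1 <;> cases z2 <;> cases z3 <;> cases p <;> cases q <;> simp <;> omega

theorem cnt_card (X : Multiset (Bool × Bool × Bool)) : X.card =
    X.count (false, false, false) + X.count (false, false, true) + X.count (false, true, false) +
    X.count (false, true, true) + X.count (true, false, false) + X.count (true, false, true) +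
    X.count (true, true, false) + X.count (true, true, true) := by
  induction X using Multiset.induction_on with
  | empty => simp
  | cons z X ih =>
    obtain ⟨z1, z2, z3⟩ := z
    rw [Multiset.card_cons, ih]
    simp only [Multiset.count_cons]
    cases z1 <;> cases z2 <;> cases z3 <;> simp <;> omega

/-- The relations between the counts of two tables in one fibre of the hollow triangle. -/
structure Rel (x y : Bool × Bool × Bool → ℕ) : Prop where
  ab : ∀ p q, x (p, q, false) + x (p, q, true) = y (p, q, false) + y (p, q, true)
  ac : ∀ p q, x (p, false, q) + x (p, true, q) = y (p, false, q) + y (p, true, q)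
  bc : ∀ p q, x (false, p, q) + x (true, p, q) = y (false, p, q) + y (true, p, q)

theorem rel_of {a b c : V} {A B : Tab V} (h1 : Eqm {a, b} A B) (h2 : Eqm {a, c} A B)
    (h3 : Eqm {b, c} A B) : Rel (fun z => (A.map (ev a b c)).count z)
      (fun z => (B.map (ev a b c)).count z) := by
  constructor
  · intro p q
    show (A.map (ev a b c)).count _ + (A.map (ev a b c)).count _ =
      (B.map (ev a b c)).count _ + (B.map (ev a b c)).count _
    rw [← cnt_ab, ← cnt_ab, Multiset.map_map, Multiset.map_map]
    exact congrArg (Multiset.count (p, q)) (pair_map h1)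
  · intro p q
    show (A.map (ev a b c)).count _ + (A.map (ev a b c)).count _ =
      (B.map (ev a b c)).count _ + (B.map (ev a b c)).count _
    rw [← cnt_ac, ← cnt_ac, Multiset.map_map, Multiset.map_map]
    exact congrArg (Multiset.count (p, q)) (pair_map h2)
  · intro p q
    show (A.map (ev a b c)).count _ + (A.map (ev a b c)).count _ =
      (B.map (ev a b c)).count _ + (B.map (ev a b c)).count _
    rw [← cnt_bc, ← cnt_bc, Multiset.map_map, Multiset.map_map]
    exact congrArg (Multiset.count (p, q)) (pair_map h3)

theorem Rel.eq {x y : Bool × Bool × Bool → ℕ} (h : Rel x y)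
    (h1 : x (true, true, true) = y (true, true, true)) (z : Bool × Bool × Bool) : x z = y z := by
  have a1 := h.ab true true
  have a2 := h.ac true true
  have a3 := h.bc true true
  have a4 := h.ac true false
  have a5 := h.bc false true
  have a6 := h.bc true false
  have a7 := h.bc false false
  obtain ⟨z1, z2, z3⟩ := z
  cases z1 <;> cases z2 <;> cases z3 <;> omega

/-- A step of degree at most four upwards. -/
theorem Rel.unit {x y : Bool × Bool × Bool → ℕ} (h : Rel x y)
    (hc : x (false, false, false) + x (false, false, true) + x (false, true, false) +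
      x (false, true, true) + x (true, false, false) + x (true, false, true) +
      x (true, true, false) + x (true, true, true) ≤ 4)
    (h1 : x (true, true, true) < y (true, true, true)) :
    (x (false, false, false) = 1 ∧ x (false, false, true) = 0 ∧ x (false, true, false) = 0 ∧
      x (false, true, true) = 1 ∧ x (true, false, false) = 0 ∧ x (true, false, true) = 1 ∧
      x (true, true, false) = 1 ∧ x (true, true, true) = 0) ∧
    (y (false, false, false) = 0 ∧ y (false, false, true) = 1 ∧ y (false, true, false) = 1 ∧
      y (false, true, true) = 0 ∧ y (true, false, false) = 1 ∧ y (true, false, true) = 0 ∧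
      y (true, true, false) = 0 ∧ y (true, true, true) = 1) := by
  have a1 := h.ab true true
  have a2 := h.ac true true
  have a3 := h.bc true true
  have a4 := h.ac true false
  have a5 := h.bc false true
  have a6 := h.bc true false
  have a7 := h.bc false false
  omega

/-- The even cells. -/
def pA (a b c : V) : Tab V :=
  {cm a b c (false, false, false), cm a b c (false, true, true), cm a b c (true, false, true),
    cm a b c (true, true, false)}

/-- The odd cells. -/
def pB (a b c : V) : Tab V :=
  {cm a b c (false, false, true), cm a b c (false, true, false), cm a b c (true, false, false),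
    cm a b c (true, true, true)}

theorem map_pA {a b c : V} (hab : a ≠ b) (hac : a ≠ c) (hbc : b ≠ c) :
    (pA a b c).map (ev a b c) =
      {(false, false, false), (false, true, true), (true, false, true), (true, true, false)} := by
  unfold pA
  simp only [Multiset.insert_eq_cons, Multiset.map_cons, Multiset.map_singleton,
    ev_cm hab hac hbc]

theorem map_pB {a b c : V} (hab : a ≠ b) (hac : a ≠ c) (hbc : b ≠ c) :
    (pB a b c).map (ev a b c) =
      {(false, false, true), (false, true, false), (true, false, false), (true, true, true)} := by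
  unfold pB
  simp only [Multiset.insert_eq_cons, Multiset.map_cons, Multiset.map_singleton,
    ev_cm hab hac hbc]

/-- The height. -/
def hh (a b c : V) (T : Tab V) : ℕ := (T.map (ev a b c)).count (true, true, true)

omit [DecidableEq V] in
theorem hh_add (a b c : V) (C A : Tab V) : hh a b c (C + A) = hh a b c C + hh a b c A := by
  unfold hh
  rw [Multiset.map_add, Multiset.count_add]

/-- The first step above the level. -/
theorem first_up {Δ : Set (Finset V)} {k : ℕ} (h : Tab V → ℕ) (n : ℕ) {T T' : Tab V}
    (hc : Cn Δ k T T') (h1 : h T ≤ n) (h2 : n < h T') :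
    ∃ S S', Cn Δ k T S ∧ Mv Δ k S S' ∧ h S ≤ n ∧ n < h S' := by
  induction hc with
  | refl => omega
  | @tail S S' hp hm ih =>
    by_cases h3 : n < h S
    · exact ih h3
    · exact ⟨S, S', hp, hm, by omega, h2⟩

/-- The assumptions on one side. -/
theorem side {a b c : V} (hab : a ≠ b) (hac : a ≠ c) (hbc : b ≠ c) {Δ : Set (Finset V)}
    (hF : ∀ F, F ⊆ {a, b, c} → F ≠ {a, b, c} → F ∈ Δ) (hD : Dg Δ)
    (hD' : Dg (insert {a, b, c} Δ)) :
    (∀ T T', Fb Δ T T' → hh a b c T = hh a b c T' → Eqm {a, b, c} T T') ∧
    (∀ T T', Fb Δ T T' → hh a b c T < hh a b c T' → ∃ C A B,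
      Cn (insert {a, b, c} Δ) 4 T (C + A) ∧ Fb Δ A B ∧ Eqm {a, b, c} A (pA a b c) ∧
      Eqm {a, b, c} B (pB a b c)) := by
  have m1 : ({a, b} : Finset V) ∈ Δ := by
    refine hF _ (by intro v; simp; tauto) fun h => ?_
    have : c ∈ ({a, b} : Finset V) := by rw [h]; simp
    simp only [Finset.mem_insert, Finset.mem_singleton] at this
    rcases this with h | h
    · exact hac h.symm
    · exact hbc h.symm
  have m2 : ({a, c} : Finset V) ∈ Δ := by
    refine hF _ (by intro v; simp; tauto) fun h => ?_
    have : b ∈ ({a, c} : Finset V) := by rw [h]; simp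
    simp only [Finset.mem_insert, Finset.mem_singleton] at this
    rcases this with h | h
    · exact hab h.symm
    · exact hbc h
  have m3 : ({b, c} : Finset V) ∈ Δ := by
    refine hF _ (by intro v; simp; tauto) fun h => ?_
    have : a ∈ ({b, c} : Finset V) := by rw [h]; simp
    simp only [Finset.mem_insert, Finset.mem_singleton] at this
    rcases this with h | h
    · exact hab h
    · exact hac h
  have key : ∀ T T', Fb Δ T T' → hh a b c T = hh a b c T' → Eqm {a, b, c} T T' := by
    intro T T' hT he
    rw [eqm_iff]
    refine Multiset.ext.2 fun z => ?_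
    exact (rel_of (hT _ m1) (hT _ m2) (hT _ m3)).eq he z
  refine ⟨key, fun T T' hT hlt => ?_⟩
  obtain ⟨S, S', hp, ⟨C, A, B, rfl, rfl, hk, hAB⟩, h1, h2⟩ :=
    first_up (hh a b c) (hh a b c T) (hD T T' hT) le_rfl hlt
  rw [hh_add] at h1 h2
  have hk' := cnt_card (A.map (ev a b c))
  rw [Multiset.card_map] at hk'
  have hr := rel_of (hAB _ m1) (hAB _ m2) (hAB _ m3)
  obtain ⟨⟨x1, x2, x3, x4, x5, x6, x7, x8⟩, ⟨y1, y2, y3, y4, y5, y6, y7, y8⟩⟩ :=
    hr.unit (by rw [← hk']; exact hk) (by
      change hh a b c A < hh a b c B
      omega)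
  have e1 : hh a b c A = 0 := x8
  have e2 : hh a b c B = 1 := y8
  have hS : hh a b c T = hh a b c (C + A) := by
    rw [hh_add]
    omega
  refine ⟨C, A, B, hD' _ _ ?_, hAB, ?_, ?_⟩
  · intro F hF'
    rcases Set.mem_insert_iff.1 hF' with rfl | hF'
    · exact key _ _ hp.fb hS
    · exact hp.fb F hF'
  · rw [eqm_iff, map_pA hab hac hbc]
    refine Multiset.ext.2 fun z => ?_
    obtain ⟨z1, z2, z3⟩ := z
    cases z1 <;> cases z2 <;> cases z3
    · exact x1
    · exact x2
    · exact x3
    · exact x4
    · exact x5
    · exact x6
    · exact x7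
    · exact x8
  · rw [eqm_iff, map_pB hab hac hbc]
    refine Multiset.ext.2 fun z => ?_
    obtain ⟨z1, z2, z3⟩ := z
    cases z1 <;> cases z2 <;> cases z3
    · exact y1
    · exact y2
    · exact y3
    · exact y4
    · exact y5
    · exact y6
    · exact y7
    · exact y8

end Pool.Agent.Lib.MP_73b196_co.Fib.TriN

namespace Pool.Agent.Lib.MP_73b196_co.Fib

open TriN in
theorem tTri (hGG : StmtGG) : StmtTri := by
  intro V _ Δ1 Δ2 U W a b c hab hac hbc hU hW hUW hF hD1 hD1' hD2 hD2' T T' hT
  obtain ⟨k1, u1⟩ := side hab hac hbc (fun F h1 h2 => (hF F h1 h2).1) hD1 hD1'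
  obtain ⟨k2, u2⟩ := side hab hac hbc (fun F h1 h2 => (hF F h1 h2).2) hD2 hD2'
  have he : (∅ : Finset V) ∈ Δ1 := by
    refine (hF ∅ (Finset.empty_subset _) fun h => ?_).1
    have : a ∈ (∅ : Finset V) := by rw [h]; simp
    exact absurd this (Finset.notMem_empty a)
  have hpath := hGG V Δ1 Δ2 U W {a, b, c} 4 (hh a b c) (pA a b c) (pB a b c) hU hW hUW he le_rfl
    (by simp [pA]) (fun T T' h => by
      unfold hh
      rw [(eqm_iff a b c T T').1 h]) (fun C => by
      rw [hh_add, hh_add]
      unfold hh
      rw [map_pA hab hac hbc, map_pB hab hac hbc]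
      rfl) k1 k2 u1 u2 hD1' hD2' T T' hT
  unfold Cn
  refine Relation.ReflTransGen.mono (fun A B h => ?_) _ _ hpath
  rcases h with h | h
  · exact Mv.mono (fun F hF => ⟨F, Set.mem_insert_of_mem _ hF, Finset.Subset.refl F⟩) le_rfl h
  · exact h

end Pool.Agent.Lib.MP_73b196_co.Fib
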