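import Pool.Agent.Lib.MP_73b196_co.Fib.Spec

/-!
# Unit steps from (P)
-/

set_option autoImplicit false

namespace Pool.Agent.Lib.MP_73b196_co.Fib.UnitN

variable {V : Type}

/-- the number of cells with the values `a, b` at `x, y` -/
private def N (x y : V) (a b : Bool) (A : Tab V) : ℕ := A.countP fun t => t x = a ∧ t y = b

private theorem N_cons (x y : V) (a b : Bool) (t : V → Bool) (A : Tab V) :
    N x y a b (t ::ₘ A) = N x y a b A + if t x = a ∧ t y = b then 1 else 0 := by
  unfold N
  rw [Multiset.countP_cons]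

private theorem N_zero (x y : V) (a b : Bool) : N x y a b 0 = 0 := by
  unfold N
  rw [Multiset.countP_zero]

private theorem N_add (x y : V) (a b : Bool) (A B : Tab V) :
    N x y a b (A + B) = N x y a b A + N x y a b B := by
  unfold N
  rw [Multiset.countP_add]

private theorem sum_x (x y : V) (A : Tab V) :
    N x y true false A + N x y true true A = A.countP fun t => t x = true := by
  induction A using Multiset.induction_on with
  | empty => simp [N_zero]
  | cons t A ih =>
    rw [N_cons, N_cons, Multiset.countP_cons, ← ih]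
    cases t x <;> cases t y <;> simp <;> omega

private theorem sum_y (x y : V) (A : Tab V) :
    N x y false true A + N x y true true A = A.countP fun t => t y = true := by
  induction A using Multiset.induction_on with
  | empty => simp [N_zero]
  | cons t A ih =>
    rw [N_cons, N_cons, Multiset.countP_cons, ← ih]
    cases t x <;> cases t y <;> simp <;> omega

private theorem sum_all (x y : V) (A : Tab V) :
    N x y false false A + N x y false true A + N x y true false A + N x y true true A =
      A.card := by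
  induction A using Multiset.induction_on with
  | empty => simp [N_zero]
  | cons t A ih =>
    rw [N_cons, N_cons, N_cons, N_cons, Multiset.card_cons, ← ih]
    cases t x <;> cases t y <;> simp <;> omega

variable [DecidableEq V]

private theorem cnt_eq {F : Finset V} {A B : Tab V} (h : Eqm F A B) (p : (V → Bool) → Prop)
    [DecidablePred p] (hp : ∀ t, p (rs F t) ↔ p t) : A.countP p = B.countP p := by
  have key : ∀ A : Tab V, A.countP p = (A.map (rs F)).countP p := by
    intro A
    rw [Multiset.countP_map, Multiset.countP_eq_card_filter]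
    congr 1
    exact Multiset.filter_congr fun t _ => (hp t).symm
  rw [key, key B]
  exact congrArg _ h

private theorem ht_eq {x y : V} {A B : Tab V} (h : Eqm {x, y} A B) : ht x y A = ht x y B := by
  unfold ht
  refine cnt_eq h _ fun t => ?_
  rw [rs_mem (by simp), rs_mem (by simp)]

private theorem ht_N (x y : V) (A : Tab V) : ht x y A = N x y true true A := rfl

/-- the data of a fibre -/
private theorem facts {Γ : Set (Finset V)} {x y : V} (h0 : ∅ ∈ Γ) (hx : {x} ∈ Γ) (hy : {y} ∈ Γ)
    {A B : Tab V} (h : Fb Γ A B) :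
    N x y true false A + N x y true true A = N x y true false B + N x y true true B ∧
    N x y false true A + N x y true true A = N x y false true B + N x y true true B ∧
    N x y false false A + N x y false true A + N x y true false A + N x y true true A =
      N x y false false B + N x y false true B + N x y true false B + N x y true true B ∧
    A.card = B.card := by
  refine ⟨?_, ?_, ?_, (h _ h0).card⟩
  · rw [sum_x, sum_x]
    refine cnt_eq (h _ hx) _ fun t => ?_
    rw [rs_mem (by simp)]
  · rw [sum_y, sum_y]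
    refine cnt_eq (h _ hy) _ fun t => ?_
    rw [rs_mem (by simp)]
  · rw [sum_all, sum_all]
    exact (h _ h0).card

private theorem eqm_of_N {x y : V} {A B : Tab V} (h : ∀ a b, N x y a b A = N x y a b B) :
    Eqm {x, y} A B := by
  classical
  unfold Eqm
  ext s
  by_cases hs : rs {x, y} s = s
  · have key : ∀ A : Tab V, (A.map (rs {x, y})).count s = N x y (s x) (s y) A := by
      intro A
      unfold N
      rw [Multiset.count, Multiset.countP_map, Multiset.countP_eq_card_filter]
      congr 1
      refine Multiset.filter_congr fun t _ => ?_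
      rw [← hs, rs_eq_iff, hs]
      constructor
      · intro h
        exact ⟨(h x (by simp)).symm, (h y (by simp)).symm⟩
      · rintro ⟨h1, h2⟩ v hv
        rcases Finset.mem_insert.1 hv with rfl | hv
        · exact h1.symm
        · rw [Finset.mem_singleton.1 hv]
          exact h2.symm
    rw [key, key, h]
  · have key : ∀ A : Tab V, (A.map (rs {x, y})).count s = 0 := by
      intro A
      rw [Multiset.count_eq_zero, Multiset.mem_map]
      rintro ⟨t, _, rfl⟩
      exact hs (rs_rs (Finset.Subset.refl _) t)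
    rw [key, key]

private theorem eqm_of_ht {Γ : Set (Finset V)} {x y : V} (h0 : ∅ ∈ Γ) (hx : {x} ∈ Γ)
    (hy : {y} ∈ Γ) {A B : Tab V} (h : Fb Γ A B) (hh : ht x y A = ht x y B) :
    Eqm {x, y} A B := by
  obtain ⟨h1, h2, h3, -⟩ := facts h0 hx hy h
  rw [ht_N, ht_N] at hh
  refine eqm_of_N fun a b => ?_
  cases a <;> cases b <;> omega

/-- two cells with given values -/
private theorem two (x y : V) (a b : Bool) (c d : Bool) (hne : ¬ (a = c ∧ b = d)) (A : Tab V)
    (hA : A.card = 2) (h1 : N x y a b A = 1) (h2 : N x y c d A = 1) :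
    ∃ t t' : V → Bool, A = {t, t'} ∧ t x = a ∧ t y = b ∧ t' x = c ∧ t' y = d := by
  have h3 : 0 < A.countP fun t => t x = a ∧ t y = b := by
    have h4 : (A.countP fun t => t x = a ∧ t y = b) = 1 := h1
    omega
  obtain ⟨t, ht, hta, htb⟩ := Multiset.countP_pos.1 h3
  obtain ⟨A1, rfl⟩ := Multiset.exists_cons_of_mem ht
  rw [Multiset.card_cons] at hA
  obtain ⟨t', rfl⟩ := Multiset.card_eq_one.1 (by omega : A1.card = 1)
  refine ⟨t, t', rfl, hta, htb, ?_⟩
  rw [N_cons, if_neg (by rw [hta, htb]; exact hne), Nat.add_zero] at h2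
  have h5 : 0 < (({t'} : Tab V).countP fun t => t x = c ∧ t y = d) := by
    have h4 : (({t'} : Tab V).countP fun t => t x = c ∧ t y = d) = 1 := h2
    omega
  obtain ⟨s, hs, hsc, hsd⟩ := Multiset.countP_pos.1 h5
  rw [Multiset.mem_singleton] at hs
  subst hs
  exact ⟨hsc, hsd⟩

private theorem un {Γ : Set (Finset V)} {x y : V} (h0 : ∅ ∈ Γ) (hx : {x} ∈ Γ) (hy : {y} ∈ Γ)
    {A B : Tab V} (h : Fb Γ A B) (hA : A.card ≤ 2) (hh : ht x y A < ht x y B) :
    Un x y A B ∧ ht x y B = ht x y A + 1 := by
  obtain ⟨h1, h2, h3, h4⟩ := facts h0 hx hy h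
  have h5 := sum_all x y A
  have h6 := sum_all x y B
  rw [ht_N, ht_N] at hh ⊢
  have e : N x y true true A = 0 ∧ N x y false false A = 0 ∧ N x y true false A = 1 ∧
      N x y false true A = 1 ∧ N x y true true B = 1 ∧ N x y false false B = 1 ∧
      N x y true false B = 0 ∧ N x y false true B = 0 ∧ A.card = 2 ∧ B.card = 2 := by
    refine ⟨?_, ?_, ?_, ?_, ?_, ?_, ?_, ?_, ?_, ?_⟩ <;> omega
  obtain ⟨e1, e2, e3, e4, e5, e6, e7, e8, e9, e10⟩ := e
  obtain ⟨a, a', ha, a1, a2, a3, a4⟩ := two x y true false false true (by simp) A e9 e3 e4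
  obtain ⟨b, b', hb, b1, b2, b3, b4⟩ := two x y true true false false (by simp) B e10 e5 e6
  exact ⟨⟨a, a', b, b', ha, hb, a1, a2, a3, a4, b1, b2, b3, b4⟩, by omega⟩

private theorem pr_fb {Γ : Set (Finset V)} {x y : V} {A B : Tab V} (h : Pr Γ x y A B) :
    Fb Γ A B := by
  rcases h with h | h
  · exact (fb_ad.1 h.fb).2
  · exact h.fb

private theorem path_fb {Γ : Set (Finset V)} {x y : V} {A B : Tab V}
    (h : Relation.ReflTransGen (Pr Γ x y) A B) : Fb Γ A B := by
  induction h with
  | refl => exact Fb.refl _ _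
  | tail _ h ih => exact ih.trans (pr_fb h)

private theorem cross_up {Γ : Set (Finset V)} {x y : V} {T T' : Tab V}
    (h : Relation.ReflTransGen (Pr Γ x y) T T') (hh : ht x y T < ht x y T') :
    ∃ S S', Relation.ReflTransGen (Pr Γ x y) T S ∧ Pr Γ x y S S' ∧ ht x y S ≤ ht x y T ∧
      ht x y T < ht x y S' := by
  induction h with
  | refl => exact absurd hh (lt_irrefl _)
  | tail h1 h2 ih =>
    rename_i S S'
    by_cases h3 : ht x y T < ht x y S
    · exact ih h3
    · exact ⟨S, S', h1, h2, by omega, hh⟩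

private theorem cross_down {Γ : Set (Finset V)} {x y : V} {T T' : Tab V}
    (h : Relation.ReflTransGen (Pr Γ x y) T T') (hh : ht x y T' < ht x y T) :
    ∃ S S', Relation.ReflTransGen (Pr Γ x y) T S ∧ Pr Γ x y S S' ∧ ht x y T ≤ ht x y S ∧
      ht x y S' < ht x y T := by
  induction h with
  | refl => exact absurd hh (lt_irrefl _)
  | tail h1 h2 ih =>
    rename_i S S'
    by_cases h3 : ht x y S < ht x y T
    · exact ih h3
    · exact ⟨S, S', h1, h2, by omega, hh⟩

private theorem ht_add (x y : V) (A B : Tab V) : ht x y (A + B) = ht x y A + ht x y B :=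
  N_add x y true true A B

private theorem up {Γ : Set (Finset V)} {x y : V} (h0 : ∅ ∈ Γ) (hx : {x} ∈ Γ) (hy : {y} ∈ Γ)
    (hP : PP Γ x y) (hD : Dg (ad Γ x y)) : QU Γ x y := by
  intro T T' hT hh
  obtain ⟨S, S', h1, h2, h3, h4⟩ := cross_up (hP T T' hT) hh
  rcases h2 with h2 | ⟨C, A, B, rfl, rfl, hA, hf⟩
  · have := ht_eq (fb_ad.1 h2.fb).1
    omega
  · rw [ht_add] at h3 h4
    obtain ⟨h5, h6⟩ := un h0 hx hy hf hA (by omega)
    refine ⟨C, A, B, hD _ _ (fb_ad.2 ⟨?_, path_fb h1⟩), hf, h5⟩
    refine eqm_of_ht h0 hx hy (path_fb h1) ?_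
    rw [ht_add]
    omega

private theorem down {Γ : Set (Finset V)} {x y : V} (h0 : ∅ ∈ Γ) (hx : {x} ∈ Γ) (hy : {y} ∈ Γ)
    (hP : PP Γ x y) (hD : Dg (ad Γ x y)) : QD Γ x y := by
  intro T T' hT hh
  obtain ⟨S, S', h1, h2, h3, h4⟩ := cross_down (hP T T' hT) hh
  rcases h2 with h2 | ⟨C, A, B, rfl, rfl, hA, hf⟩
  · have := ht_eq (fb_ad.1 h2.fb).1
    omega
  · rw [ht_add] at h3 h4
    have hB : B.card ≤ 2 := by
      rw [← (hf _ h0).card]
      exact hA
    obtain ⟨h5, h6⟩ := un h0 hx hy hf.symm hB (by omega)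
    refine ⟨C, B, A, hD _ _ (fb_ad.2 ⟨?_, path_fb h1⟩), hf.symm, h5⟩
    refine eqm_of_ht h0 hx hy (path_fb h1) ?_
    rw [ht_add]
    omega

end Pool.Agent.Lib.MP_73b196_co.Fib.UnitN

namespace Pool.Agent.Lib.MP_73b196_co.Fib

open UnitN in
/-- **Unit** -/
theorem tUnit : StmtUnit := by
  intro V _ Γ x y _ h0 hx hy hP hD
  exact ⟨up h0 hx hy hP hD, down h0 hx hy hP hD⟩

end Pool.Agent.Lib.MP_73b196_co.Fib
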